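import Pool.Agent.H999R2.KSat.Defs

/-! Auxiliary definitions for the split tasks. -/

set_option autoImplicit false

namespace Pool.Agent.H999R2.KSat
open Finset Filter

/-! ### Sides of a variable -/

/-- the clause `c` contains one of the two literals of the variable `i` -/
def inv {n k : ℕ} (i : Fin n) (c : Cl n k) : Prop := ∃ p, (c p).1 = i

/-- `Q` is nonempty, the clause `c` contains the literal `(i, !b)` and is false everywhere on `Q` -/
def kl {n k : ℕ} (i : Fin n) (b : Bool) (Q : Set (Asg n)) (c : Cl n k) : Prop :=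
  Q.Nonempty ∧ (∃ p, c p = (i, !b)) ∧ ∀ a ∈ Q, ¬ sc a c

/-- all probing clauses `W l`, `l < u`, that avoid the variable `i` are satisfied -/
def PW {n k s : ℕ} (i : Fin n) (W : Fin s → Cl n k) (u : ℕ) : Set (Asg n) :=
  {a | ∀ l : Fin s, l.val < u → ¬ inv i (W l) → sc a (W l)}

/-- side `a i = b`, all clauses `G j'` (`j' ≠ j`, not in `X`) with `j' < j` or avoiding `i`
satisfied, and all `W l`, `l < u`, avoiding `i` satisfied -/
def QG {n k s M : ℕ} (i : Fin n) (b : Bool) (X : Fin M → Prop) (j : Fin M)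
    (G : Fin M → Cl n k) (W : Fin s → Cl n k) (u : ℕ) : Set (Asg n) :=
  {a | a i = b ∧ (∀ j' : Fin M, ¬ X j' → j' ≠ j → (j' < j ∨ ¬ inv i (G j')) → sc a (G j')) ∧
    a ∈ PW i W u}

/-- side `a i = b` of `A`, all `W l` (`l < u`, `l ≠ l0`) with `l < l0` or avoiding `i` satisfied -/
def QW {n k s : ℕ} (i : Fin n) (b : Bool) (A : Set (Asg n)) (l0 : Fin s)
    (W : Fin s → Cl n k) (u : ℕ) : Set (Asg n) :=
  {a | a ∈ A ∧ a i = b ∧
    ∀ l : Fin s, l.val < u → l ≠ l0 → (l < l0 ∨ ¬ inv i (W l)) → sc a (W l)}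

/-- expected number of times `u` at which the clause `G j` kills the side `b` -/
noncomputable def al {n k M : ℕ} (s : ℕ) (i : Fin n) (b : Bool) (X : Fin M → Prop) (j : Fin M)
    (G : Fin M → Cl n k) : ℝ :=
  E (fun W : Fin s → Cl n k => ∑ u ∈ range s, ind (kl i b (QG i b X j G W u) (G j)))

/-- expected number of pairs `l0 < u` such that the probing clause `W l0` kills the side `b` -/
noncomputable def be {n : ℕ} (k s : ℕ) (i : Fin n) (b : Bool) (A : Set (Asg n)) : ℝ :=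
  E (fun W : Fin s → Cl n k =>
    ∑ u ∈ range s, ∑ l0 : Fin s, ind (l0.val < u ∧ kl i b (QW i b A l0 W u) (W l0)))

/-- the constant `2^(κ+1) T + s / T^κ` -/
noncomputable def KK (κ s T : ℕ) : ℝ := 2 ^ (κ + 1) * T + s / (T : ℝ) ^ κ

/-! ### Two blocks of variables -/

/-- a clause on the first block -/
def inl (N1 N2 : ℕ) {k : ℕ} (c : Cl N1 k) : Cl (N1 + N2) k :=
  fun p => (Fin.castAdd N2 (c p).1, (c p).2)
/-- a clause on the second block -/
def inr (N1 N2 : ℕ) {k : ℕ} (c : Cl N2 k) : Cl (N1 + N2) k :=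
  fun p => (Fin.natAdd N1 (c p).1, (c p).2)
/-- survival probability of the set `A` under `m` uniform clauses -/
noncomputable def sv {n : ℕ} (k m : ℕ) (A : Set (Asg n)) : ℝ :=
  E (fun F : Fin m → Cl n k => ind (A ∩ Sol F).Nonempty)
/-- product set -/
def rect {N1 N2 : ℕ} (A1 : Set (Asg N1)) (A2 : Set (Asg N2)) : Set (Asg (N1 + N2)) :=
  {a | (fun i => a (Fin.castAdd N2 i)) ∈ A1 ∧ (fun i => a (Fin.natAdd N1 i)) ∈ A2}

/-! ### Abstract hypotheses for the convergence argument -/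

/-- the properties of `p n m = ps n (κ+1) m` used in the convergence argument -/
structure Hyp (κ : ℕ) (p : ℕ → ℕ → ℝ) : Prop where
  h0 : ∀ n : ℕ, p n 0 = 1
  hnn : ∀ n m : ℕ, 0 ≤ p n m
  hanti : ∀ n m : ℕ, p n (m + 1) ≤ p n m
  hfm : ∃ q : ℝ, 0 ≤ q ∧ q < 1 ∧ ∀ n m : ℕ, 0 < n → p n m ≤ 2 ^ n * q ^ m
  hsharp : ∀ Λ : ℝ, ∃ C : ℝ, 0 < C ∧ ∀ n m T : ℕ, 1 ≤ T → T ≤ n →
      (m : ℝ) + (T : ℝ) ^ (κ + 1) ≤ Λ * n →
      (1 - p n m) * p n (m + T ^ (κ + 1)) ^ 2 ≤ C * n / (T : ℝ) ^ (2 * κ)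
  hone : ∀ n m : ℕ, 0 < n → ((n : ℝ) / (n + 1)) ^ m * p n m ≤ p (n + 1) m
  htwo : ∀ (N1 N2 m m1 m2 : ℕ) (d : ℝ), 0 < N1 → 0 < N2 → 0 ≤ d → 4 * (m : ℝ) ≤ d ^ 2 →
      m * (N1 : ℝ) / (N1 + N2) + d ≤ m1 → m * (N2 : ℝ) / (N1 + N2) + d ≤ m2 →
      1 / 2 * p N1 m1 * p N2 m2 ≤ p (N1 + N2) m

/-- the largest `m` with `p n m ≥ 1/2` -/
noncomputable def Mx (p : ℕ → ℕ → ℝ) (n : ℕ) : ℕ := sSup {m : ℕ | 1 / 2 ≤ p n m}

/-- the window `T_n` -/
noncomputable def Tn (κ n : ℕ) : ℕ := ⌊(n : ℝ) ^ ((2 : ℝ) / (2 * κ + 3))⌋₊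

/-! ### Ordered clauses with distinct variables -/
open Classical in
/-- number of ordered formulas all of whose clauses have distinct variables -/
noncomputable def dcount (n k m : ℕ) : ℕ :=
  (univ.filter (fun F : Fin m → Cl n k => ∀ j, Function.Injective (fun p => (F j p).1))).card

open Classical in
/-- the same, satisfiable -/
noncomputable def dscount (n k m : ℕ) : ℕ :=
  (univ.filter (fun F : Fin m → Cl n k =>
    (∀ j, Function.Injective (fun p => (F j p).1)) ∧ (Sol F).Nonempty)).card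

end Pool.Agent.H999R2.KSat
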