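import Pool.Agent.H999R2.KSat.Defs2

/-! Almost superadditive sequences converge. -/

set_option autoImplicit false

namespace Pool.Agent.H999R2.KSat
open Finset Filter

/-- multiples of `n1` -/
theorem sq_mult (r : ℕ → ℝ) (c C : ℝ) (n0 : ℕ) (hc : 0 < c) (hC : 0 < C)
    (h2 : ∀ N1 N2 : ℕ, n0 ≤ N1 → n0 ≤ N2 → N1 + N2 ≤ 4 * N1 → N1 + N2 ≤ 4 * N2 →
      min (r N1) (r N2) - C * ((N1 + N2 : ℕ) : ℝ) ^ (-c) ≤ r (N1 + N2))
    (n1 : ℕ) (hn1 : n0 ≤ n1) (hn1' : 1 ≤ n1) :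
    ∀ a : ℕ, 1 ≤ a →
      r n1 - C / ((4 / 3 : ℝ) ^ c - 1) * (n1 : ℝ) ^ (-c) * (1 - (a : ℝ) ^ (-c)) ≤ r (a * n1) := by
  have h43 : 0 < (4 / 3 : ℝ) ^ c - 1 := by
    have := Real.one_lt_rpow (by norm_num : (1 : ℝ) < 4 / 3) hc
    linarith
  set C3 : ℝ := C / ((4 / 3 : ℝ) ^ c - 1) with hC3
  have hC3pos : 0 < C3 := div_pos hC h43
  have hC3eq : C3 * ((4 / 3 : ℝ) ^ c - 1) = C := div_mul_cancel₀ _ h43.ne'
  have hnpos : (0 : ℝ) < n1 := by exact_mod_cast hn1'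
  have hnc : 0 < (n1 : ℝ) ^ (-c) := Real.rpow_pos_of_pos hnpos _
  intro a
  induction a using Nat.strong_induction_on with
  | _ a ih =>
    intro ha
    rcases Nat.eq_or_lt_of_le ha with h1 | h1
    · rw [← h1]
      simp
    · -- `a ≥ 2`
      obtain ⟨a1, a2, ha12, h21, h11, h22, h1lt, h43a⟩ : ∃ a1 a2 : ℕ, a = a1 + a2 ∧ a2 ≤ a1 ∧
          1 ≤ a2 ∧ a ≤ 4 * a2 ∧ a1 < a ∧ 4 * a1 ≤ 3 * a :=
        ⟨a - a / 2, a / 2, by omega, by omega, by omega, by omega, by omega, by omega⟩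
      have ha1pos : (0 : ℝ) < a1 := by
        have : 1 ≤ a1 := h11.trans h21
        exact_mod_cast this
      have ha2pos : (0 : ℝ) < a2 := by exact_mod_cast h11
      have hapos : (0 : ℝ) < a := by
        have : 0 < a := by omega
        exact_mod_cast this
      have e1 := ih a1 h1lt (h11.trans h21)
      have e2 := ih a2 (by omega) h11
      have hmono : (a1 : ℝ) ^ (-c) ≤ (a2 : ℝ) ^ (-c) :=
        Real.rpow_le_rpow_of_nonpos ha2pos (by exact_mod_cast h21) (by linarith)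
      have e2' : r n1 - C3 * (n1 : ℝ) ^ (-c) * (1 - (a1 : ℝ) ^ (-c)) ≤ r (a2 * n1) := by
        refine le_trans ?_ e2
        have := mul_le_mul_of_nonneg_left hmono (mul_pos hC3pos hnc).le
        linarith
      have hmin : r n1 - C3 * (n1 : ℝ) ^ (-c) * (1 - (a1 : ℝ) ^ (-c)) ≤
          min (r (a1 * n1)) (r (a2 * n1)) := le_min e1 e2'
      have hsum : a1 * n1 + a2 * n1 = a * n1 := by rw [ha12]; ring
      have e3 := h2 (a1 * n1) (a2 * n1) (hn1.trans (Nat.le_mul_of_pos_left _ (by omega)))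
        (hn1.trans (Nat.le_mul_of_pos_left _ (by omega)))
        (by rw [hsum]; calc a * n1 ≤ (4 * a1) * n1 := Nat.mul_le_mul_right _ (by omega)
              _ = 4 * (a1 * n1) := by ring)
        (by rw [hsum]; calc a * n1 ≤ (4 * a2) * n1 := Nat.mul_le_mul_right _ h22
              _ = 4 * (a2 * n1) := by ring)
      rw [hsum] at e3
      have hmul : ((a * n1 : ℕ) : ℝ) ^ (-c) = (a : ℝ) ^ (-c) * (n1 : ℝ) ^ (-c) := by
        push_cast
        exact Real.mul_rpow hapos.le hnpos.le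
      rw [hmul] at e3
      have hkey : (4 / 3 : ℝ) ^ c * (a : ℝ) ^ (-c) ≤ (a1 : ℝ) ^ (-c) := by
        have h3 : (a1 : ℝ) ≤ 3 / 4 * a := by
          have : (4 : ℝ) * a1 ≤ 3 * a := by exact_mod_cast h43a
          linarith
        have h4 : (3 / 4 * (a : ℝ)) ^ (-c) ≤ (a1 : ℝ) ^ (-c) :=
          Real.rpow_le_rpow_of_nonpos ha1pos h3 (by linarith)
        rw [Real.mul_rpow (by norm_num) hapos.le] at h4
        have h5 : (3 / 4 : ℝ) ^ (-c) = (4 / 3 : ℝ) ^ c := by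
          rw [Real.rpow_neg (by norm_num), ← Real.inv_rpow (by norm_num)]
          norm_num
        rw [h5] at h4
        exact h4
      have hfin : C * ((a : ℝ) ^ (-c) * (n1 : ℝ) ^ (-c)) ≤
          C3 * (n1 : ℝ) ^ (-c) * ((a1 : ℝ) ^ (-c) - (a : ℝ) ^ (-c)) := by
        have h6 : C3 * (n1 : ℝ) ^ (-c) * (((4 / 3 : ℝ) ^ c - 1) * (a : ℝ) ^ (-c)) ≤
            C3 * (n1 : ℝ) ^ (-c) * ((a1 : ℝ) ^ (-c) - (a : ℝ) ^ (-c)) := by
          apply mul_le_mul_of_nonneg_left _ (mul_pos hC3pos hnc).le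
          linarith
        calc C * ((a : ℝ) ^ (-c) * (n1 : ℝ) ^ (-c))
            = (C3 * ((4 / 3 : ℝ) ^ c - 1)) * ((a : ℝ) ^ (-c) * (n1 : ℝ) ^ (-c)) := by rw [hC3eq]
          _ = C3 * (n1 : ℝ) ^ (-c) * (((4 / 3 : ℝ) ^ c - 1) * (a : ℝ) ^ (-c)) := by ring
          _ ≤ _ := h6
      linarith

/-- consecutive steps -/
theorem sq_steps (r : ℕ → ℝ) (c C : ℝ) (n0 : ℕ) (hc : 0 < c) (hC : 0 < C)
    (h1 : ∀ N : ℕ, n0 ≤ N → r N - C * (N : ℝ) ^ (-c) ≤ r (N + 1))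
    (N : ℕ) (hN : n0 ≤ N) (hN' : 1 ≤ N) (j : ℕ) :
    r N - j * (C * (N : ℝ) ^ (-c)) ≤ r (N + j) := by
  have hNpos : (0 : ℝ) < N := by exact_mod_cast hN'
  induction j with
  | zero => simp
  | succ j ih =>
    have e := h1 (N + j) (hN.trans (Nat.le_add_right _ _))
    have hm : ((N + j : ℕ) : ℝ) ^ (-c) ≤ (N : ℝ) ^ (-c) :=
      Real.rpow_le_rpow_of_nonpos hNpos (by push_cast; linarith [Nat.cast_nonneg (α := ℝ) j])
        (by linarith)
    have hm' := mul_le_mul_of_nonneg_left hm hC.le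
    rw [show N + (j + 1) = N + j + 1 from rfl]
    push_cast at ih e hm' ⊢
    linarith

theorem sq_tendsto (n1 : ℕ) (hn1 : 1 ≤ n1) :
    Tendsto (fun M : ℕ => M / n1 * n1) atTop atTop := by
  rw [tendsto_atTop]
  intro b
  filter_upwards [eventually_ge_atTop (b + n1)] with M hM
  have := Nat.lt_div_mul_add (a := M) (b := n1) (by omega)
  omega

theorem seq_lemma (r : ℕ → ℝ) (c C Λ : ℝ) (n0 : ℕ) (hc : 0 < c) (hC : 0 < C)
    (hr0 : ∀ n, 0 ≤ r n) (hrΛ : ∀ n, r n ≤ Λ)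
    (h2 : ∀ N1 N2 : ℕ, n0 ≤ N1 → n0 ≤ N2 → N1 + N2 ≤ 4 * N1 → N1 + N2 ≤ 4 * N2 →
      min (r N1) (r N2) - C * ((N1 + N2 : ℕ) : ℝ) ^ (-c) ≤ r (N1 + N2))
    (h1 : ∀ N : ℕ, n0 ≤ N → r N - C * (N : ℝ) ^ (-c) ≤ r (N + 1)) :
    ∃ L : ℝ, Tendsto r atTop (nhds L) := by
  have h43 : 0 < (4 / 3 : ℝ) ^ c - 1 := by
    have := Real.one_lt_rpow (by norm_num : (1 : ℝ) < 4 / 3) hc
    linarith
  set C3 : ℝ := C / ((4 / 3 : ℝ) ^ c - 1) with hC3
  have hC3pos : 0 < C3 := div_pos hC h43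
  have hpow : Tendsto (fun N : ℕ => (N : ℝ) ^ (-c)) atTop (nhds 0) :=
    (tendsto_rpow_neg_atTop hc).comp tendsto_natCast_atTop_atTop
  -- lower bound for all large arguments
  have hlow : ∀ n1 : ℕ, n0 ≤ n1 → 1 ≤ n1 → ∀ ε : ℝ, 0 < ε → ∀ᶠ M in atTop,
      r n1 - C3 * (n1 : ℝ) ^ (-c) - ε ≤ r M := by
    intro n1 hn1 hn1' ε hε
    have ht := (hpow.comp (sq_tendsto n1 hn1')).const_mul ((n1 : ℝ) * C)
    rw [mul_zero] at ht
    have hev := ht.eventually_lt_const hε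
    filter_upwards [hev, eventually_ge_atTop n1] with M hM hMn
    have hq : 1 ≤ M / n1 := (Nat.one_le_div_iff (by omega)).2 hMn
    have e1 := sq_mult r c C n0 hc hC h2 n1 hn1 hn1' (M / n1) hq
    have e2 := sq_steps r c C n0 hc hC h1 (M / n1 * n1)
      (hn1.trans (Nat.le_mul_of_pos_left _ (by omega)))
      (hn1'.trans (Nat.le_mul_of_pos_left _ (by omega))) (M % n1)
    rw [Nat.div_add_mod'] at e2
    rw [← hC3] at e1
    have hnn : 0 ≤ C3 * (n1 : ℝ) ^ (-c) * ((M / n1 : ℕ) : ℝ) ^ (-c) := by positivity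
    have hmod : ((M % n1 : ℕ) : ℝ) ≤ n1 := by
      exact_mod_cast (Nat.mod_lt M (by omega)).le
    have hnn2 : 0 ≤ C * ((M / n1 * n1 : ℕ) : ℝ) ^ (-c) := by positivity
    have hm := mul_le_mul_of_nonneg_right hmod hnn2
    simp only [Function.comp] at hM
    have hM' : (n1 : ℝ) * (C * ((M / n1 * n1 : ℕ) : ℝ) ^ (-c)) < ε := by
      rw [← mul_assoc]
      exact hM
    linarith
  have hbu : IsBoundedUnder (· ≤ ·) atTop r := isBoundedUnder_of ⟨Λ, hrΛ⟩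
  have hbl : IsBoundedUnder (· ≥ ·) atTop r := isBoundedUnder_of ⟨0, hr0⟩
  refine ⟨limsup r atTop, ?_⟩
  rw [Metric.tendsto_atTop']
  intro ε hε
  have hup : ∀ᶠ M in atTop, r M < limsup r atTop + ε :=
    eventually_lt_of_limsup_lt (by linarith) hbu
  have hfr : ∃ᶠ n in atTop, limsup r atTop - ε / 4 < r n :=
    frequently_lt_of_lt_limsup hbl.isCoboundedUnder_le (by linarith)
  have hsm : ∀ᶠ n : ℕ in atTop, C3 * (n : ℝ) ^ (-c) < ε / 4 := by
    have := hpow.const_mul C3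
    rw [mul_zero] at this
    exact this.eventually_lt_const (by linarith)
  obtain ⟨n1, hn1, hn1s, hn10, hn11⟩ := (hfr.and_eventually (hsm.and
    ((eventually_ge_atTop n0).and (eventually_ge_atTop 1)))).exists
  have hlo := hlow n1 hn10 hn11 (ε / 4) (by linarith)
  obtain ⟨N, hN⟩ := eventually_atTop.1 (hlo.and hup)
  refine ⟨N, fun n hn => ?_⟩
  have := hN n hn.le
  rw [Real.dist_eq, abs_lt]
  constructor <;> linarith [this.1, this.2]

end Pool.Agent.H999R2.KSat
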