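import Pool.Agent.H999R2.KSat.Defs2

set_option autoImplicit false

namespace Pool.Agent.H999R2.KSat
open Finset Filter

theorem efron_stein {X : Type} [Fintype X] (m : ℕ) (f : (Fin m → X) → ℝ)
    (c : Fin m → (Fin m → X) → ℝ)
    (hc : ∀ j F y, c j (Function.update F j y) = c j F) :
    E (fun F => f F ^ 2) - (E f) ^ 2 ≤ ∑ j, E (fun F => (f F - c j F) ^ 2) := by
  induction m with
  | zero =>
    have h : ∀ g : (Fin 0 → X) → ℝ, E g = g default := by
      intro g
      unfold E
      rw [Fintype.card_unique, Fintype.sum_unique]
      simp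
    rw [h, h]
    simp
  | succ m ih =>
    rcases isEmpty_or_nonempty X with hX | hX
    · have : IsEmpty (Fin (m + 1) → X) := ⟨fun F => hX.false (F 0)⟩
      simp [E]
    · obtain ⟨x0⟩ := hX
      haveI : Nonempty X := ⟨x0⟩
      let g : X → ℝ := fun x => E (fun G : Fin m → X => f (Fin.cons x G))
      have e1 : E (fun F => f F ^ 2) = E (fun x : X => E (fun G : Fin m → X =>
          f (Fin.cons x G) ^ 2)) := E_cons (fun F => f F ^ 2)
      have e2 : E f = E g := E_cons f
      have h1 : ∀ x : X, E (fun G : Fin m → X => f (Fin.cons x G) ^ 2) ≤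
          g x ^ 2 + ∑ j : Fin m, E (fun G : Fin m → X =>
            (f (Fin.cons x G) - c j.succ (Fin.cons x G)) ^ 2) := by
        intro x
        have := ih (fun G => f (Fin.cons x G)) (fun j G => c j.succ (Fin.cons x G))
          (by
            intro j G y
            change c j.succ (Fin.cons x (Function.update G j y)) = c j.succ (Fin.cons x G)
            rw [Fin.cons_update, hc])
        change E (fun G : Fin m → X => f (Fin.cons x G) ^ 2) - g x ^ 2 ≤ _ at this
        linarith
      have h2 : E (fun F => f F ^ 2) ≤ E (fun x => g x ^ 2) +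
          ∑ j : Fin m, E (fun F : Fin (m + 1) → X => (f F - c j.succ F) ^ 2) := by
        rw [e1]
        refine (E_mono h1).trans ?_
        rw [E_add, E_sum]
        apply le_of_eq
        congr 1
        apply Finset.sum_congr rfl
        intro j _
        exact (E_cons (fun F : Fin (m + 1) → X => (f F - c j.succ F) ^ 2)).symm
      have hc0 : ∀ (x : X) (G : Fin m → X), c 0 (Fin.cons x G) = c 0 (Fin.cons x0 G) := by
        intro x G
        have := hc 0 (Fin.cons x0 G) x
        rwa [Fin.update_cons_zero] at this
      have h3 := var_le_E_sq_sub g (E (fun G : Fin m → X => c 0 (Fin.cons x0 G)))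
      have h4 : E (fun x => (g x - E (fun G : Fin m → X => c 0 (Fin.cons x0 G))) ^ 2) ≤
          E (fun F : Fin (m + 1) → X => (f F - c 0 F) ^ 2) := by
        rw [E_cons (fun F : Fin (m + 1) → X => (f F - c 0 F) ^ 2)]
        apply E_mono
        intro x
        have e3 : g x - E (fun G : Fin m → X => c 0 (Fin.cons x0 G)) =
            E (fun G : Fin m → X => f (Fin.cons x G) - c 0 (Fin.cons x G)) := by
          rw [E_sub]
          change g x - _ = g x - _
          congr 1
          exact E_congr fun G => (hc0 x G).symm
        rw [e3]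
        exact sq_E_le _
      rw [Fin.sum_univ_succ, e2]
      linarith

end Pool.Agent.H999R2.KSat
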