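import Pool.Agent.H999R2.KSat.Defs2

/-! Task FT: telescoping over the probing clauses that avoid the variable `i`. -/

set_option autoImplicit false

namespace Pool.Agent.H999R2.KSat
open Finset Filter

/-- the average of the indicator of a single point -/
theorem ft_point {n : ℕ} (hn : 0 < n) (l0 : Lit n) :
    E (fun l : Lit n => ind (l = l0)) = 1 / (2 * n) := by
  unfold E
  have h1 : ∑ l : Lit n, ind (l = l0) = 1 := by
    rw [Finset.sum_eq_single l0]
    · exact ind_true rfl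
    · intro l _ hl
      exact ind_false hl
    · intro h
      exact absurd (Finset.mem_univ _) h
  rw [h1, Fintype.card_prod, Fintype.card_fin, Fintype.card_bool]
  push_cast
  rw [mul_comm (n : ℝ) 2]

/-- proportion of false literals away from the variable `i` -/
theorem ft_lit {n : ℕ} (hn : 0 < n) (i : Fin n) (b : Bool) (Q : Set (Asg n))
    (hne : Q.Nonempty) (hsub : ∀ a ∈ Q, a i = b) :
    E (fun l : Lit n => ind (l.1 ≠ i ∧ ∀ a ∈ Q, a l.1 ≠ l.2)) = xf Q - 1 / (2 * n) := by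
  rw [← ft_point hn (i, !b), xf, ← E_sub]
  refine E_congr fun l => ?_
  obtain ⟨a0, ha0⟩ := hne
  by_cases hl : l = (i, !b)
  · have h1 : ∀ a ∈ Q, a l.1 ≠ l.2 := by
      intro a ha
      rw [hl]
      show a i ≠ !b
      rw [hsub a ha]
      cases b <;> simp
    have h2 : ¬ (l.1 ≠ i ∧ ∀ a ∈ Q, a l.1 ≠ l.2) := by
      rintro ⟨h, _⟩
      exact h (by rw [hl])
    rw [ind_false h2, ind_true h1, ind_true hl]
    ring
  · rw [ind_false hl, sub_zero]
    refine ind_congr ⟨fun h => h.2, fun h => ⟨?_, h⟩⟩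
    intro h3
    apply hl
    have h4 := h a0 ha0
    rw [h3, hsub a0 ha0] at h4
    refine Prod.ext h3 ?_
    show l.2 = !b
    cases hb : l.2 <;> cases b <;> simp_all

/-- probability that a clause avoiding `i` kills `Q` -/
theorem ft_prob {n : ℕ} (κ : ℕ) (hn : 0 < n) (i : Fin n) (b : Bool) (Q : Set (Asg n))
    (hne : Q.Nonempty) (hsub : ∀ a ∈ Q, a i = b) :
    E (fun c : Cl n (κ + 1) => ind (¬ inv i c ∧ ∀ a ∈ Q, ¬ sc a c))
      = (xf Q - 1 / (2 * n)) ^ (κ + 1) := by
  have h1 : ∀ c : Cl n (κ + 1), ind (¬ inv i c ∧ ∀ a ∈ Q, ¬ sc a c)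
      = ∏ p, ind ((c p).1 ≠ i ∧ ∀ a ∈ Q, a (c p).1 ≠ (c p).2) := by
    intro c
    rw [← ind_forall]
    refine ind_congr ⟨?_, ?_⟩
    · rintro ⟨h1, h2⟩ p
      refine ⟨fun h => h1 ⟨p, h⟩, fun a ha h => h2 a ha ⟨p, h⟩⟩
    · intro h
      refine ⟨?_, ?_⟩
      · rintro ⟨p, hp⟩
        exact (h p).1 hp
      · rintro a ha ⟨p, hp⟩
        exact (h p).2 a ha hp
  rw [E_congr h1]
  have h2 := E_pi (X := Lit n) (m := κ + 1)
    (fun _ l => ind (l.1 ≠ i ∧ ∀ a ∈ Q, a l.1 ≠ l.2))
  refine h2.trans ?_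
  rw [Finset.prod_const, Finset.card_univ, Fintype.card_fin, ft_lit hn i b Q hne hsub]

/-- pointwise inequality -/
theorem ft_ineq (κ n T : ℕ) (hn : 0 < n) (hT : 1 ≤ T) (hTn : T ≤ n) (y : ℝ)
    (hy : 1 / (2 * (n : ℝ)) ≤ y) :
    y ^ κ ≤ 2 ^ (κ + 1) * T * (y - 1 / (2 * n)) ^ (κ + 1) + 1 / (T : ℝ) ^ κ := by
  have hT0 : (0 : ℝ) < T := by exact_mod_cast hT
  have hn0 : (0 : ℝ) < n := by exact_mod_cast hn
  have hTn' : (T : ℝ) ≤ n := by exact_mod_cast hTn
  have hd : (0 : ℝ) < 1 / (2 * (n : ℝ)) := by positivity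
  have hy0 : 0 < y := lt_of_lt_of_le hd hy
  rcases le_total (1 / (T : ℝ)) y with h | h
  · have hd2 : 1 / (2 * (n : ℝ)) ≤ y / 2 := by
      have h1 : 1 / (2 * (n : ℝ)) ≤ 1 / (T : ℝ) / 2 := by
        rw [div_div, mul_comm (T : ℝ) 2]
        exact one_div_le_one_div_of_le (by positivity) (by linarith)
      linarith
    have h2 : y / 2 ≤ y - 1 / (2 * n) := by linarith
    have h3 : (y / 2) ^ (κ + 1) ≤ (y - 1 / (2 * n)) ^ (κ + 1) :=
      pow_le_pow_left₀ (by positivity) h2 _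
    have h4 : (1 : ℝ) ≤ T * y := by
      rw [div_le_iff₀ hT0] at h
      linarith
    have h5 : y ^ κ ≤ 2 ^ (κ + 1) * T * (y / 2) ^ (κ + 1) := by
      rw [div_pow]
      have : (2 : ℝ) ^ (κ + 1) * T * (y ^ (κ + 1) / 2 ^ (κ + 1)) = (T * y) * y ^ κ := by
        field_simp
        ring
      rw [this]
      have := pow_nonneg hy0.le κ
      nlinarith
    have h6 : 2 ^ (κ + 1) * (T : ℝ) * (y / 2) ^ (κ + 1)
        ≤ 2 ^ (κ + 1) * T * (y - 1 / (2 * n)) ^ (κ + 1) :=
      mul_le_mul_of_nonneg_left h3 (by positivity)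
    have h7 : 0 ≤ 1 / (T : ℝ) ^ κ := by positivity
    linarith
  · have h1 : y ^ κ ≤ 1 / (T : ℝ) ^ κ := by
      have := pow_le_pow_left₀ hy0.le h κ
      rwa [one_div, inv_pow, ← one_div] at this
    have h2 : 0 ≤ 2 ^ (κ + 1) * (T : ℝ) * (y - 1 / (2 * n)) ^ (κ + 1) := by
      have : 0 ≤ y - 1 / (2 * (n : ℝ)) := by linarith
      positivity
    linarith

theorem ft_tele (g : ℕ → ℝ) (a b : ℕ) (hab : a ≤ b) :
    ∑ u ∈ Ico a b, (g u - g (u + 1)) = g a - g b := by
  induction b, hab using Nat.le_induction with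
  | base => simp
  | succ b hb ih =>
    rw [Finset.sum_Ico_succ_top hb, ih]
    ring

theorem filtered_sum {n : ℕ} (κ s T t0 : ℕ) (hn : 0 < n) (hT : 1 ≤ T) (hTn : T ≤ n)
    (i : Fin n) (b : Bool) (Q : ℕ → (Fin s → Cl n (κ + 1)) → Set (Asg n))
    (hsub : ∀ u W, ∀ a ∈ Q u W, a i = b)
    (hstep : ∀ (u : Fin s) W, t0 ≤ u.val →
      Q (u.val + 1) W = Q u.val W ∩ {a | ¬ inv i (W u) → sc a (W u)})
    (hinv : ∀ (u : Fin s) W y, t0 ≤ u.val → Q u.val (Function.update W u y) = Q u.val W) :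
    ∑ u ∈ Ico t0 s, E (fun W => ind (Q u W).Nonempty * xf (Q u W) ^ κ) ≤ KK κ s T := by
  have hT0 : (0 : ℝ) < T := by exact_mod_cast hT
  have hn0 : (0 : ℝ) < n := by exact_mod_cast hn
  have : Nonempty (Fin n) := ⟨⟨0, hn⟩⟩
  have hneC : Nonempty (Fin s → Cl n (κ + 1)) := ⟨fun _ _ => (⟨0, hn⟩, true)⟩
  set d : ℝ := 1 / (2 * n) with hd
  rcases le_or_gt s t0 with hst | hst
  · rw [Finset.Ico_eq_empty (by omega), Finset.sum_empty, KK]
    positivity
  -- one step
  have step : ∀ u ∈ Ico t0 s, E (fun W => ind (Q u W).Nonempty * (xf (Q u W) - d) ^ (κ + 1))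
      = E (fun W => ind (Q u W).Nonempty) - E (fun W => ind (Q (u + 1) W).Nonempty) := by
    intro u hu
    obtain ⟨hu1, hu2⟩ := Finset.mem_Ico.mp hu
    set uf : Fin s := ⟨u, hu2⟩ with huf
    have hpt : ∀ W, ind (Q (u + 1) W).Nonempty = ind (Q u W).Nonempty
        - ind ((Q u W).Nonempty ∧ (¬ inv i (W uf) ∧ ∀ a ∈ Q u W, ¬ sc a (W uf))) := by
      intro W
      have hs := hstep uf W hu1
      have hs' : Q (u + 1) W = Q u W ∩ {a | ¬ inv i (W uf) → sc a (W uf)} := hs
      by_cases hne : (Q u W).Nonempty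
      · by_cases hk : (¬ inv i (W uf) ∧ ∀ a ∈ Q u W, ¬ sc a (W uf))
        · have he : ¬ (Q (u + 1) W).Nonempty := by
            rw [hs']
            rintro ⟨a, ha1, ha2⟩
            exact hk.2 a ha1 (ha2 hk.1)
          rw [ind_false he, ind_true hne, ind_true ⟨hne, hk⟩]
          ring
        · have he : (Q (u + 1) W).Nonempty := by
            rw [hs']
            by_cases hi : inv i (W uf)
            · obtain ⟨a, ha⟩ := hne
              exact ⟨a, ha, fun h => absurd hi h⟩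
            · have : ∃ a ∈ Q u W, sc a (W uf) := by
                by_contra hcon
                push Not at hcon
                exact hk ⟨hi, hcon⟩
              obtain ⟨a, ha, ha2⟩ := this
              exact ⟨a, ha, fun _ => ha2⟩
          rw [ind_true he, ind_true hne, ind_false (fun h => hk h.2)]
          ring
      · have he : ¬ (Q (u + 1) W).Nonempty := by
          rw [hs']
          rintro ⟨a, ha1, _⟩
          exact hne ⟨a, ha1⟩
        rw [ind_false he, ind_false hne, ind_false (fun h => hne h.1)]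
        ring
    have havg : E (fun W : Fin s → Cl n (κ + 1) =>
          ind ((Q u W).Nonempty ∧ (¬ inv i (W uf) ∧ ∀ a ∈ Q u W, ¬ sc a (W uf))))
        = E (fun W => ind (Q u W).Nonempty * (xf (Q u W) - d) ^ (κ + 1)) := by
      rw [E_update uf]
      refine E_congr fun W => ?_
      have hQ : ∀ y, Q u (Function.update W uf y) = Q u W := fun y => hinv uf W y hu1
      have : ∀ y : Cl n (κ + 1),
          ind ((Q u (Function.update W uf y)).Nonempty ∧
            (¬ inv i (Function.update W uf y uf) ∧ ∀ a ∈ Q u (Function.update W uf y),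
              ¬ sc a (Function.update W uf y uf)))
          = ind (Q u W).Nonempty * ind (¬ inv i y ∧ ∀ a ∈ Q u W, ¬ sc a y) := by
        intro y
        rw [hQ y, Function.update_self, ind_and]
      rw [E_congr this, E_mul_left]
      by_cases hne : (Q u W).Nonempty
      · rw [ft_prob κ hn i b (Q u W) hne (hsub u W)]
      · rw [ind_false hne, zero_mul, zero_mul]
    rw [← havg, E_congr hpt, E_sub]
    ring
  have htele : ∑ u ∈ Ico t0 s, E (fun W => ind (Q u W).Nonempty * (xf (Q u W) - d) ^ (κ + 1))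
      ≤ 1 := by
    rw [Finset.sum_congr rfl step, ft_tele (fun u => E (fun W => ind (Q u W).Nonempty)) t0 s hst.le]
    have h1 : E (fun W => ind (Q t0 W).Nonempty) ≤ 1 := E_le_const fun W => ind_le_one _
    have h2 : 0 ≤ E (fun W => ind (Q s W).Nonempty) := E_nonneg fun W => ind_nonneg _
    linarith
  -- pointwise bound
  have hpw : ∀ u ∈ Ico t0 s, E (fun W => ind (Q u W).Nonempty * xf (Q u W) ^ κ)
      ≤ 2 ^ (κ + 1) * T * E (fun W => ind (Q u W).Nonempty * (xf (Q u W) - d) ^ (κ + 1))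
        + 1 / (T : ℝ) ^ κ := by
    intro u _
    have h1 : ∀ W, ind (Q u W).Nonempty * xf (Q u W) ^ κ
        ≤ 2 ^ (κ + 1) * T * (ind (Q u W).Nonempty * (xf (Q u W) - d) ^ (κ + 1))
          + 1 / (T : ℝ) ^ κ := by
      intro W
      by_cases hne : (Q u W).Nonempty
      · rw [ind_true hne, one_mul, one_mul]
        refine ft_ineq κ n T hn hT hTn _ ?_
        have h2 := ft_lit hn i b (Q u W) hne (hsub u W)
        have h3 : 0 ≤ E (fun l : Lit n => ind (l.1 ≠ i ∧ ∀ a ∈ Q u W, a l.1 ≠ l.2)) :=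
          E_nonneg fun l => ind_nonneg _
        linarith
      · rw [ind_false hne, zero_mul, zero_mul, mul_zero, zero_add]
        positivity
    refine (E_mono h1).trans ?_
    rw [E_add, E_mul_left, E_const]
  calc ∑ u ∈ Ico t0 s, E (fun W => ind (Q u W).Nonempty * xf (Q u W) ^ κ)
      ≤ ∑ u ∈ Ico t0 s,
          (2 ^ (κ + 1) * T * E (fun W => ind (Q u W).Nonempty * (xf (Q u W) - d) ^ (κ + 1))
            + 1 / (T : ℝ) ^ κ) := Finset.sum_le_sum hpw
    _ = 2 ^ (κ + 1) * T * (∑ u ∈ Ico t0 s,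
          E (fun W => ind (Q u W).Nonempty * (xf (Q u W) - d) ^ (κ + 1)))
          + (s - t0 : ℕ) * (1 / (T : ℝ) ^ κ) := by
        rw [Finset.sum_add_distrib, ← Finset.mul_sum, Finset.sum_const, Nat.card_Ico,
          nsmul_eq_mul]
    _ ≤ 2 ^ (κ + 1) * T * 1 + s * (1 / (T : ℝ) ^ κ) := by
        have h1 : ((s - t0 : ℕ) : ℝ) ≤ s := by exact_mod_cast Nat.sub_le s t0
        have h2 : 0 ≤ 1 / (T : ℝ) ^ κ := by positivity
        have h3 : (0 : ℝ) ≤ 2 ^ (κ + 1) * T := by positivity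
        have := mul_le_mul_of_nonneg_left htele h3
        have := mul_le_mul_of_nonneg_right h1 h2
        linarith
    _ = KK κ s T := by
        rw [KK]
        ring

end Pool.Agent.H999R2.KSat
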