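import Pool.Agent.H999R2.KSat.KP
import Pool.Agent.H999R2.KSat.FT

set_option autoImplicit false

namespace Pool.Agent.H999R2.KSat
open Finset Filter

/-- expected kills by one fixed probing clause `l0` -/
theorem ab_one {n : ℕ} (κ s T : ℕ) (hn : 0 < n) (hT : 1 ≤ T) (hTn : T ≤ n)
    (i : Fin n) (b : Bool) (A : Set (Asg n)) (l0 : Fin s) :
    ∑ u ∈ range s, E (fun W : Fin s → Cl n (κ + 1) =>
      ind (l0.val < u ∧ kl i b (QW i b A l0 W u) (W l0))) ≤
      ((κ : ℝ) + 1) / (2 * n) * KK κ s T := by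
  have hc0 : 0 ≤ ((κ : ℝ) + 1) / (2 * n) := by positivity
  have hinv0 : ∀ (W : Fin s → Cl n (κ + 1)) (u : ℕ) (y : Cl n (κ + 1)),
      QW i b A l0 (Function.update W l0 y) u = QW i b A l0 W u := by
    intro W u y
    ext a
    simp only [QW, Set.mem_setOf_eq]
    constructor
    · rintro ⟨h1, h2, h3⟩
      refine ⟨h1, h2, fun l hl hne h => ?_⟩
      have := h3 l hl hne (by rwa [Function.update_of_ne hne])
      rwa [Function.update_of_ne hne] at this
    · rintro ⟨h1, h2, h3⟩
      refine ⟨h1, h2, fun l hl hne h => ?_⟩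
      rw [Function.update_of_ne hne] at h ⊢
      exact h3 l hl hne h
  have h3 : ∀ u ∈ range s, E (fun W : Fin s → Cl n (κ + 1) =>
      ind (l0.val < u ∧ kl i b (QW i b A l0 W u) (W l0))) ≤
      if l0.val < u then ((κ : ℝ) + 1) / (2 * n) *
        E (fun W : Fin s → Cl n (κ + 1) =>
          ind (QW i b A l0 W u).Nonempty * xf (QW i b A l0 W u) ^ κ) else 0 := by
    intro u _
    split_ifs with hu
    · rw [E_update l0, ← E_mul_left]
      refine E_mono fun W => ?_
      refine le_trans (le_of_eq ?_) (kill_prob κ hn i b (QW i b A l0 W u))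
      refine E_congr fun y => ?_
      rw [hinv0, Function.update_self]
      exact ind_congr ⟨fun h => h.2, fun h => ⟨hu, h⟩⟩
    · rw [E_congr (g := fun _ => (0 : ℝ)) (fun W => ind_false (fun h => hu h.1)), E_zero]
  have h4 : ∑ u ∈ range s, (if l0.val < u then ((κ : ℝ) + 1) / (2 * n) *
        E (fun W : Fin s → Cl n (κ + 1) =>
          ind (QW i b A l0 W u).Nonempty * xf (QW i b A l0 W u) ^ κ) else 0) =
      ((κ : ℝ) + 1) / (2 * n) * ∑ u ∈ Ico (l0.val + 1) s, E (fun W : Fin s → Cl n (κ + 1) =>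
          ind (QW i b A l0 W u).Nonempty * xf (QW i b A l0 W u) ^ κ) := by
    rw [← Finset.sum_filter, Finset.mul_sum]
    refine Finset.sum_congr ?_ fun _ _ => rfl
    ext u
    simp only [mem_filter, mem_range, mem_Ico]
    omega
  refine (Finset.sum_le_sum h3).trans ?_
  rw [h4]
  refine mul_le_mul_of_nonneg_left ?_ hc0
  refine filtered_sum κ s T (l0.val + 1) hn hT hTn i b (fun u W => QW i b A l0 W u) ?_ ?_ ?_
  · intro u W a ha
    exact ha.2.1
  · intro u W hu
    ext a
    simp only [QW, Set.mem_setOf_eq, Set.mem_inter_iff]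
    have hul : u ≠ l0 := by
      intro h
      rw [h] at hu
      omega
    have hnlt : ¬ u < l0 := by
      intro h
      have : u.val < l0.val := h
      omega
    constructor
    · rintro ⟨h1, h2, h3⟩
      exact ⟨⟨h1, h2, fun l hl hne h => h3 l (by omega) hne h⟩,
        fun h => h3 u (by omega) hul (Or.inr h)⟩
    · rintro ⟨⟨h1, h2, h3⟩, h4⟩
      refine ⟨h1, h2, fun l hl hne h => ?_⟩
      rcases Nat.lt_succ_iff_lt_or_eq.mp hl with hl' | hl'
      · exact h3 l hl' hne h
      · have hlu : l = u := Fin.ext hl'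
        subst hlu
        rcases h with h | h
        · exact absurd h hnlt
        · exact h4 h
  · intro u W y hu
    ext a
    simp only [QW, Set.mem_setOf_eq]
    constructor
    · rintro ⟨h1, h2, h3⟩
      refine ⟨h1, h2, fun l hl hne h => ?_⟩
      have hlu : l ≠ u := by
        intro h'
        rw [h'] at hl
        exact lt_irrefl _ hl
      have := h3 l hl hne (by rwa [Function.update_of_ne hlu])
      rwa [Function.update_of_ne hlu] at this
    · rintro ⟨h1, h2, h3⟩
      refine ⟨h1, h2, fun l hl hne h => ?_⟩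
      have hlu : l ≠ u := by
        intro h'
        rw [h'] at hl
        exact lt_irrefl _ hl
      rw [Function.update_of_ne hlu] at h ⊢
      exact h3 l hl hne h

theorem be_le {n : ℕ} (κ s T : ℕ) (hn : 0 < n) (hT : 1 ≤ T) (hTn : T ≤ n)
    (i : Fin n) (b : Bool) (A : Set (Asg n)) :
    be (κ + 1) s i b A ≤ s * (((κ : ℝ) + 1) / (2 * n) * KK κ s T) := by
  have h1 : be (κ + 1) s i b A = ∑ l0 : Fin s, ∑ u ∈ range s,
      E (fun W : Fin s → Cl n (κ + 1) =>
        ind (l0.val < u ∧ kl i b (QW i b A l0 W u) (W l0))) := by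
    unfold be
    rw [E_sum, Finset.sum_comm]
    refine Finset.sum_congr rfl fun u _ => ?_
    rw [E_sum]
  rw [h1]
  calc ∑ l0 : Fin s, ∑ u ∈ range s, E (fun W : Fin s → Cl n (κ + 1) =>
        ind (l0.val < u ∧ kl i b (QW i b A l0 W u) (W l0)))
      ≤ ∑ _l0 : Fin s, ((κ : ℝ) + 1) / (2 * n) * KK κ s T :=
        Finset.sum_le_sum fun l0 _ => ab_one κ s T hn hT hTn i b A l0
    _ = s * (((κ : ℝ) + 1) / (2 * n) * KK κ s T) := by
        simp only [Finset.sum_const, Finset.card_univ, Fintype.card_fin, nsmul_eq_mul]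

theorem al_update_le {n M : ℕ} (κ s T : ℕ) (hn : 0 < n) (hT : 1 ≤ T) (hTn : T ≤ n)
    (i : Fin n) (b : Bool) (X : Fin M → Prop) (j : Fin M) (G : Fin M → Cl n (κ + 1)) :
    E (fun y : Cl n (κ + 1) => al s i b X j (Function.update G j y)) ≤
      ((κ : ℝ) + 1) / (2 * n) * KK κ s T := by
  have hc0 : 0 ≤ ((κ : ℝ) + 1) / (2 * n) := by positivity
  have hinv0 : ∀ (W : Fin s → Cl n (κ + 1)) (u : ℕ) (y : Cl n (κ + 1)),
      QG i b X j (Function.update G j y) W u = QG i b X j G W u := by
    intro W u y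
    ext a
    simp only [QG, Set.mem_setOf_eq]
    constructor
    · rintro ⟨h1, h2, h3⟩
      refine ⟨h1, fun l hl hne h => ?_, h3⟩
      have := h2 l hl hne (by rwa [Function.update_of_ne hne])
      rwa [Function.update_of_ne hne] at this
    · rintro ⟨h1, h2, h3⟩
      refine ⟨h1, fun l hl hne h => ?_, h3⟩
      rw [Function.update_of_ne hne] at h ⊢
      exact h2 l hl hne h
  have h1 : E (fun y : Cl n (κ + 1) => al s i b X j (Function.update G j y)) =
      ∑ u ∈ range s, E (fun W : Fin s → Cl n (κ + 1) =>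
        E (fun y : Cl n (κ + 1) => ind (kl i b (QG i b X j G W u) y))) := by
    unfold al
    rw [E_comm, E_congr (g := fun W : Fin s → Cl n (κ + 1) => ∑ u ∈ range s,
      E (fun y : Cl n (κ + 1) => ind (kl i b (QG i b X j G W u) y))), E_sum]
    intro W
    rw [E_sum]
    refine Finset.sum_congr rfl fun u _ => E_congr fun y => ?_
    rw [hinv0, Function.update_self]
  rw [h1]
  have h2 : ∀ u ∈ range s, E (fun W : Fin s → Cl n (κ + 1) =>
        E (fun y : Cl n (κ + 1) => ind (kl i b (QG i b X j G W u) y))) ≤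
      ((κ : ℝ) + 1) / (2 * n) * E (fun W : Fin s → Cl n (κ + 1) =>
        ind (QG i b X j G W u).Nonempty * xf (QG i b X j G W u) ^ κ) := by
    intro u _
    rw [← E_mul_left]
    exact E_mono fun W => kill_prob κ hn i b (QG i b X j G W u)
  refine (Finset.sum_le_sum h2).trans ?_
  rw [← Finset.mul_sum, Finset.range_eq_Ico]
  refine mul_le_mul_of_nonneg_left ?_ hc0
  refine filtered_sum κ s T 0 hn hT hTn i b (fun u W => QG i b X j G W u) ?_ ?_ ?_
  · intro u W a ha
    exact ha.1
  · intro u W _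
    ext a
    simp only [QG, PW, Set.mem_setOf_eq, Set.mem_inter_iff]
    constructor
    · rintro ⟨h1, h2, h3⟩
      exact ⟨⟨h1, h2, fun l hl h => h3 l (by omega) h⟩, fun h => h3 u (by omega) h⟩
    · rintro ⟨⟨h1, h2, h3⟩, h4⟩
      refine ⟨h1, h2, fun l hl h => ?_⟩
      rcases Nat.lt_succ_iff_lt_or_eq.mp hl with hl' | hl'
      · exact h3 l hl' h
      · have hlu : l = u := Fin.ext hl'
        subst hlu
        exact h4 h
  · intro u W y _
    ext a
    simp only [QG, PW, Set.mem_setOf_eq]
    constructor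
    · rintro ⟨h1, h2, h3⟩
      refine ⟨h1, h2, fun l hl h => ?_⟩
      have hlu : l ≠ u := by
        intro h'
        rw [h'] at hl
        exact lt_irrefl _ hl
      have := h3 l hl (by rwa [Function.update_of_ne hlu])
      rwa [Function.update_of_ne hlu] at this
    · rintro ⟨h1, h2, h3⟩
      refine ⟨h1, h2, fun l hl h => ?_⟩
      have hlu : l ≠ u := by
        intro h'
        rw [h'] at hl
        exact lt_irrefl _ hl
      rw [Function.update_of_ne hlu] at h ⊢
      exact h3 l hl h

end Pool.Agent.H999R2.KSat
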