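import Pool.Agent.H999R2.KSat.Defs2

/-! Easy facts about `al`, `be`. -/

set_option autoImplicit false

namespace Pool.Agent.H999R2.KSat
open Finset Filter

theorem al_nonneg {n k M : ℕ} (s : ℕ) (i : Fin n) (b : Bool) (X : Fin M → Prop) (j : Fin M)
    (G : Fin M → Cl n k) : 0 ≤ al s i b X j G :=
  E_nonneg fun _ => Finset.sum_nonneg fun _ _ => ind_nonneg _

theorem be_nonneg {n : ℕ} (k s : ℕ) (i : Fin n) (b : Bool) (A : Set (Asg n)) :
    0 ≤ be k s i b A :=
  E_nonneg fun _ => Finset.sum_nonneg fun _ _ => Finset.sum_nonneg fun _ _ => ind_nonneg _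

theorem al_excl {n k M : ℕ} (s : ℕ) (i : Fin n) (b : Bool) (X : Fin M → Prop) (j j2 : Fin M)
    (hj : j2 ≠ j) (hX : X j2) (G : Fin M → Cl n k) (y : Cl n k) :
    al s i b X j (Function.update G j2 y) = al s i b X j G := by
  unfold al
  refine E_congr fun W => Finset.sum_congr rfl fun u _ => ?_
  have h1 : Function.update G j2 y j = G j := Function.update_of_ne hj.symm _ _
  have h2 : QG i b X j (Function.update G j2 y) W u = QG i b X j G W u := by
    ext a
    unfold QG
    constructor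
    · rintro ⟨ha, hb, hc⟩
      refine ⟨ha, fun j' hX' hne hlt => ?_, hc⟩
      have h3 : j' ≠ j2 := fun h => hX' (h ▸ hX)
      have h4 := hb j' hX' hne
      rw [Function.update_of_ne h3] at h4
      exact h4 hlt
    · rintro ⟨ha, hb, hc⟩
      refine ⟨ha, fun j' hX' hne hlt => ?_, hc⟩
      have h3 : j' ≠ j2 := fun h => hX' (h ▸ hX)
      rw [Function.update_of_ne h3] at hlt ⊢
      exact hb j' hX' hne hlt
  rw [h1, h2]

theorem ac_al_zero {n k M : ℕ} (s : ℕ) (i : Fin n) (b : Bool) (X : Fin M → Prop) (j : Fin M)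
    (G : Fin M → Cl n k)
    (h : ∀ (W : Fin s → Cl n k) (u : ℕ), ¬ kl i b (QG i b X j G W u) (G j)) :
    al s i b X j G = 0 := by
  unfold al
  rw [E_congr (g := fun _ => 0) (fun W => Finset.sum_eq_zero fun u _ => ind_false (h W u))]
  exact E_zero

theorem ac_al_zero_of_lit {n k M : ℕ} (s : ℕ) (i : Fin n) (b : Bool) (X : Fin M → Prop)
    (j : Fin M) (G : Fin M → Cl n k) (h : ¬ ∃ p, G j p = (i, !b)) :
    al s i b X j G = 0 :=
  ac_al_zero s i b X j G fun _ _ hk => h hk.2.1

theorem al_opp {n k M : ℕ} (s : ℕ) (i : Fin n) (b : Bool) (X X' : Fin M → Prop) (j : Fin M)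
    (G : Fin M → Cl n k) : al s i b X j G * al s i (!b) X' j G = 0 := by
  by_cases h : ∃ p, G j p = (i, !b)
  · have h2 : al s i (!b) X' j G = 0 := by
      apply ac_al_zero
      rintro W u ⟨⟨a, ha⟩, _, hk⟩
      obtain ⟨p, hp⟩ := h
      apply hk a ha
      refine ⟨p, ?_⟩
      rw [hp]
      exact ha.1
    rw [h2, mul_zero]
  · rw [ac_al_zero_of_lit s i b X j G h, zero_mul]

theorem ac_QG_eq {n k s M : ℕ} (i : Fin n) (b : Bool) (j j' : Fin M)
    (G : Fin M → Cl n k) (h : ∃ p, G j' p = (i, b)) (W : Fin s → Cl n k) (u : ℕ) :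
    QG i b (fun _ => False) j G W u = QG i b (fun x => x = j') j G W u := by
  obtain ⟨p, hp⟩ := h
  ext a
  unfold QG
  constructor
  · rintro ⟨ha, hb, hc⟩
    exact ⟨ha, fun j'' _ hne hlt => hb j'' (fun h => h) hne hlt, hc⟩
  · rintro ⟨ha, hb, hc⟩
    refine ⟨ha, fun j'' _ hne hlt => ?_, hc⟩
    by_cases hj : j'' = j'
    · subst hj
      refine ⟨p, ?_⟩
      rw [hp]
      exact ha
    · exact hb j'' hj hne hlt

theorem al_cross {n k M : ℕ} (s : ℕ) (i : Fin n) (b : Bool) (j j' : Fin M) (hj : j ≠ j')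
    (G : Fin M → Cl n k) :
    al s i b (fun _ => False) j G * al s i (!b) (fun _ => False) j' G ≤
      al s i b (fun x => x = j') j G * al s i (!b) (fun x => x = j) j' G := by
  have _ := hj
  have hnn : 0 ≤ al s i b (fun x => x = j') j G * al s i (!b) (fun x => x = j) j' G :=
    mul_nonneg (al_nonneg s i b _ j G) (al_nonneg s i (!b) _ j' G)
  by_cases h : ∃ p, G j p = (i, !b)
  · by_cases h' : ∃ p, G j' p = (i, !!b)
    · have e1 : al s i b (fun _ => False) j G = al s i b (fun x => x = j') j G := by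
        unfold al
        refine E_congr fun W => Finset.sum_congr rfl fun u _ => ?_
        rw [Bool.not_not] at h'
        rw [ac_QG_eq i b j j' G h' W u]
      have e2 : al s i (!b) (fun _ => False) j' G = al s i (!b) (fun x => x = j) j' G := by
        unfold al
        refine E_congr fun W => Finset.sum_congr rfl fun u _ => ?_
        rw [ac_QG_eq i (!b) j' j G h W u]
      rw [e1, e2]
    · rw [ac_al_zero_of_lit s i (!b) (fun _ => False) j' G h', mul_zero]
      exact hnn
  · rw [ac_al_zero_of_lit s i b (fun _ => False) j G h, zero_mul]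
    exact hnn

end Pool.Agent.H999R2.KSat
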