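import Pool.Agent.H999R2.KSat.Defs2

/-! Task BA: basic facts about `ps` and `RA`. -/

set_option autoImplicit false

namespace Pool.Agent.H999R2.KSat
open Finset Filter

theorem ps_zero (n k : ℕ) : ps n k 0 = 1 := by
  unfold ps
  have h : ∀ F : Fin 0 → Cl n k, ind ((Sol F).Nonempty) = 1 := fun F =>
    ind_true ⟨fun _ => true, fun j => j.elim0⟩
  rw [E_congr h]
  exact E_const 1

theorem ps_nonneg (n k m : ℕ) : 0 ≤ ps n k m := E_nonneg fun _ => ind_nonneg _

theorem ps_le_one (n k m : ℕ) : ps n k m ≤ 1 := E_le_of_nonneg zero_le_one fun _ => ind_le_one _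

theorem ps_succ_le (n k m : ℕ) : ps n k (m + 1) ≤ ps n k m := by
  rcases isEmpty_or_nonempty (Cl n k) with hX | hX
  · have : IsEmpty (Fin (m + 1) → Cl n k) := ⟨fun F => hX.false (F 0)⟩
    have h0 : ps n k (m + 1) = 0 := by simp [ps, E]
    rw [h0]
    exact ps_nonneg n k m
  · have h1 : ps n k (m + 1) = E (fun x : Cl n k => E (fun G : Fin m → Cl n k =>
        ind ((Sol (Fin.cons x G : Fin (m + 1) → Cl n k)).Nonempty))) := by
      unfold ps
      exact E_cons (X := Cl n k) (fun F => ind ((Sol F).Nonempty))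
    rw [h1]
    refine E_le_const fun x => ?_
    unfold ps
    refine E_mono fun G => ind_mono ?_
    rintro ⟨a, ha⟩
    refine ⟨a, fun j => ?_⟩
    have := ha j.succ
    rwa [Fin.cons_succ] at this

theorem ba_lit {n : ℕ} (hn : 0 < n) (a : Asg n) :
    E (fun l : Lit n => ind (a l.1 ≠ l.2)) = 1 / 2 := by
  have hne : Nonempty (Fin n) := ⟨⟨0, hn⟩⟩
  have h1 : E (fun l : Lit n => ind (a l.1 ≠ l.2)) =
      E (fun i : Fin n => E (fun b : Bool => ind (a i ≠ b))) :=
    E_prod (fun (i : Fin n) (b : Bool) => ind (a i ≠ b))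
  rw [h1]
  have h2 : ∀ i : Fin n, E (fun b : Bool => ind (a i ≠ b)) = 1 / 2 := by
    intro i
    unfold E ind
    cases h : a i <;> simp
  rw [E_congr h2]
  exact E_const _

theorem ba_clause {n : ℕ} (k : ℕ) (hn : 0 < n) (a : Asg n) :
    E (fun c : Cl n k => ind (sc a c)) = 1 - 1 / 2 ^ k := by
  have hne : Nonempty (Cl n k) := ⟨fun _ => (⟨0, hn⟩, true)⟩
  have h1 : ∀ c : Cl n k, ind (sc a c) = 1 - ∏ p, ind (a (c p).1 ≠ (c p).2) := by
    intro c
    rw [← ind_forall, ← ind_not]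
    refine ind_congr ?_
    simp only [sc, ne_eq, not_forall, not_not]
  rw [E_congr h1, E_sub, E_const, E_pi (fun _ (l : Lit n) => ind (a l.1 ≠ l.2))]
  simp only [ba_lit hn, Finset.prod_const, Finset.card_univ, Fintype.card_fin]
  rw [div_pow, one_pow]

theorem first_moment (n k m : ℕ) (hn : 0 < n) :
    ps n k m ≤ 2 ^ n * (1 - 1 / 2 ^ k) ^ m := by
  unfold ps
  have h1 : ∀ F : Fin m → Cl n k, ind ((Sol F).Nonempty) ≤
      ∑ a : Asg n, ∏ j, ind (sc a (F j)) := by
    intro F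
    refine (ind_exists_le (fun a : Asg n => a ∈ Sol F)).trans (le_of_eq ?_)
    refine Finset.sum_congr rfl fun a _ => ?_
    exact ind_forall _
  refine (E_mono h1).trans (le_of_eq ?_)
  rw [E_sum]
  have h2 : ∀ a : Asg n, E (fun F : Fin m → Cl n k => ∏ j, ind (sc a (F j))) =
      (1 - 1 / 2 ^ k) ^ m := by
    intro a
    rw [E_pi (fun _ (c : Cl n k) => ind (sc a c))]
    simp only [ba_clause k hn, Finset.prod_const, Finset.card_univ, Fintype.card_fin]
  simp only [h2, Finset.sum_const, Finset.card_univ, Fintype.card_fun, Fintype.card_bool,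
    Fintype.card_fin, nsmul_eq_mul]
  push_cast
  ring

theorem RA_nonneg {n : ℕ} (k s : ℕ) (A : Set (Asg n)) : 0 ≤ RA k s A :=
  E_nonneg fun _ => Finset.sum_nonneg fun _ _ => ind_nonneg _

theorem RA_mono {n : ℕ} (k s : ℕ) {A B : Set (Asg n)} (h : A ⊆ B) : RA k s A ≤ RA k s B := by
  refine E_mono fun W => Finset.sum_le_sum fun u _ => ind_mono ?_
  rintro ⟨a, ha, hW⟩
  exact ⟨a, h ha, hW⟩

theorem RA_empty {n : ℕ} (k s : ℕ) : RA k s (∅ : Set (Asg n)) = 0 := by
  unfold RA
  have h : ∀ W : Fin s → Cl n k, ∑ u ∈ range s, ind (∃ a ∈ (∅ : Set (Asg n)),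
      ∀ l : Fin s, l.val < u → sc a (W l)) = 0 := by
    intro W
    refine Finset.sum_eq_zero fun u _ => ind_false ?_
    rintro ⟨a, ha, -⟩
    exact ha
  rw [E_congr h]
  exact E_zero

theorem E_RA_ge (n k m s : ℕ) :
    (s : ℝ) * ps n k (m + s) ≤ E (fun F : Fin m → Cl n k => RA k s (Sol F)) := by
  have h1 : (s : ℝ) * ps n k (m + s) = E (fun F : Fin m → Cl n k =>
      E (fun W : Fin s → Cl n k => ∑ _u ∈ range s, ind ((Sol (Fin.append F W)).Nonempty))) := by
    unfold ps
    rw [E_append (X := Cl n k) (fun F => ind ((Sol F).Nonempty)), ← E_mul_left]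
    refine E_congr fun F => ?_
    rw [← E_mul_left]
    refine E_congr fun W => ?_
    rw [Finset.sum_const, Finset.card_range, nsmul_eq_mul]
  rw [h1]
  refine E_mono fun F => ?_
  unfold RA
  refine E_mono fun W => Finset.sum_le_sum fun u _ => ind_mono ?_
  rintro ⟨a, ha⟩
  refine ⟨a, fun j => ?_, fun l _ => ?_⟩
  · have := ha (Fin.castAdd s j)
    rwa [Fin.append_left] at this
  · have := ha (Fin.natAdd m l)
    rwa [Fin.append_right] at this

end Pool.Agent.H999R2.KSat
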