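import Pool.Agent.H999R2.KSat.Defs2

/-! Blueprint: exact statements of the tasks (proofs sorry). Import `Pool.Agent.H999R2.KSat.Defs2`
(and, if needed, finished modules), never this file. -/

set_option autoImplicit false

namespace Pool.Agent.H999R2.KSat
open Finset Filter

/-! ### Task ES -/
theorem efron_stein {X : Type} [Fintype X] (m : ℕ) (f : (Fin m → X) → ℝ)
    (c : Fin m → (Fin m → X) → ℝ)
    (hc : ∀ j F y, c j (Function.update F j y) = c j F) :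
    E (fun F => f F ^ 2) - (E f) ^ 2 ≤ ∑ j, E (fun F => (f F - c j F) ^ 2) := by
  sorry

/-! ### Task TE (effect of one random shorter clause on `RA`) -/
theorem tail_effect {n : ℕ} (κ s T : ℕ) (hn : 0 < n) (hT : 1 ≤ T) (B : Set (Asg n)) :
    E (fun c' : Cl n κ => RA (κ + 1) s B - RA (κ + 1) s (B ∩ {a | sc a c'})) ≤
      T + s / (T : ℝ) ^ κ := by
  sorry

/-! ### Task KP (probability that a random clause kills) -/
theorem kill_prob {n : ℕ} (κ : ℕ) (hn : 0 < n) (i : Fin n) (b : Bool) (Q : Set (Asg n)) :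
    E (fun c : Cl n (κ + 1) => ind (kl i b Q c)) ≤
      ((κ : ℝ) + 1) / (2 * n) * (ind Q.Nonempty * xf Q ^ κ) := by
  sorry

/-! ### Task FT (telescoping over the probing clauses that avoid the variable `i`) -/
theorem filtered_sum {n : ℕ} (κ s T t0 : ℕ) (hn : 0 < n) (hT : 1 ≤ T) (hTn : T ≤ n)
    (i : Fin n) (b : Bool) (Q : ℕ → (Fin s → Cl n (κ + 1)) → Set (Asg n))
    (hsub : ∀ u W, ∀ a ∈ Q u W, a i = b)
    (hstep : ∀ (u : Fin s) W, t0 ≤ u.val →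
      Q (u.val + 1) W = Q u.val W ∩ {a | ¬ inv i (W u) → sc a (W u)})
    (hinv : ∀ (u : Fin s) W y, t0 ≤ u.val → Q u.val (Function.update W u y) = Q u.val W) :
    ∑ u ∈ Ico t0 s, E (fun W => ind (Q u W).Nonempty * xf (Q u W) ^ κ) ≤ KK κ s T := by
  sorry

/-! ### Task UN (union bound over the killing clause) -/
theorem union_bound {n k M : ℕ} (s : ℕ) (i : Fin n) (b : Bool) (G : Fin M → Cl n k) :
    RA k s (Sol G) - RA k s (Sol G ∩ {a | a i = b}) ≤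
      ∑ j, al s i b (fun _ => False) j G + be k s i b (Sol G) := by
  sorry

/-! ### Task AB (uses KP, FT) -/
theorem be_le {n : ℕ} (κ s T : ℕ) (hn : 0 < n) (hT : 1 ≤ T) (hTn : T ≤ n)
    (i : Fin n) (b : Bool) (A : Set (Asg n)) :
    be (κ + 1) s i b A ≤ s * (((κ : ℝ) + 1) / (2 * n) * KK κ s T) := by
  sorry

theorem al_update_le {n M : ℕ} (κ s T : ℕ) (hn : 0 < n) (hT : 1 ≤ T) (hTn : T ≤ n)
    (i : Fin n) (b : Bool) (X : Fin M → Prop) (j : Fin M) (G : Fin M → Cl n (κ + 1)) :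
    E (fun y : Cl n (κ + 1) => al s i b X j (Function.update G j y)) ≤
      ((κ : ℝ) + 1) / (2 * n) * KK κ s T := by
  sorry

/-! ### Task AC (easy facts about `al`, `be`) -/
theorem al_nonneg {n k M : ℕ} (s : ℕ) (i : Fin n) (b : Bool) (X : Fin M → Prop) (j : Fin M)
    (G : Fin M → Cl n k) : 0 ≤ al s i b X j G := by
  sorry

theorem be_nonneg {n : ℕ} (k s : ℕ) (i : Fin n) (b : Bool) (A : Set (Asg n)) :
    0 ≤ be k s i b A := by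
  sorry

theorem al_excl {n k M : ℕ} (s : ℕ) (i : Fin n) (b : Bool) (X : Fin M → Prop) (j j2 : Fin M)
    (hj : j2 ≠ j) (hX : X j2) (G : Fin M → Cl n k) (y : Cl n k) :
    al s i b X j (Function.update G j2 y) = al s i b X j G := by
  sorry

theorem al_opp {n k M : ℕ} (s : ℕ) (i : Fin n) (b : Bool) (X X' : Fin M → Prop) (j : Fin M)
    (G : Fin M → Cl n k) : al s i b X j G * al s i (!b) X' j G = 0 := by
  sorry

theorem al_cross {n k M : ℕ} (s : ℕ) (i : Fin n) (b : Bool) (j j' : Fin M) (hj : j ≠ j')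
    (G : Fin M → Cl n k) :
    al s i b (fun _ => False) j G * al s i (!b) (fun _ => False) j' G ≤
      al s i b (fun x => x = j') j G * al s i (!b) (fun x => x = j) j' G := by
  sorry

/-! ### Tasks OS, TS (helper999; use UN, AB, AC) -/
theorem one_sided {n : ℕ} (κ s T M : ℕ) (hn : 0 < n) (hT : 1 ≤ T) (hTn : T ≤ n)
    (i : Fin n) (b : Bool) :
    E (fun G : Fin M → Cl n (κ + 1) =>
      RA (κ + 1) s (Sol G) - RA (κ + 1) s (Sol G ∩ {a | a i = b})) ≤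
      ((M : ℝ) + s) * (((κ : ℝ) + 1) / (2 * n) * KK κ s T) := by
  sorry

theorem two_sided {n : ℕ} (κ s T M : ℕ) (hn : 0 < n) (hT : 1 ≤ T) (hTn : T ≤ n)
    (i : Fin n) (b : Bool) :
    E (fun G : Fin M → Cl n (κ + 1) =>
      (RA (κ + 1) s (Sol G) - RA (κ + 1) s (Sol G ∩ {a | a i = b})) *
      (RA (κ + 1) s (Sol G) - RA (κ + 1) s (Sol G ∩ {a | a i = !b}))) ≤
      (((M : ℝ) + s) * (((κ : ℝ) + 1) / (2 * n) * KK κ s T)) ^ 2 := by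
  sorry

/-! ### Task BA (basic facts about `ps`, `RA`) -/
theorem ps_zero (n k : ℕ) : ps n k 0 = 1 := by
  sorry
theorem ps_nonneg (n k m : ℕ) : 0 ≤ ps n k m := by
  sorry
theorem ps_le_one (n k m : ℕ) : ps n k m ≤ 1 := by
  sorry
theorem ps_succ_le (n k m : ℕ) : ps n k (m + 1) ≤ ps n k m := by
  sorry
theorem first_moment (n k m : ℕ) (hn : 0 < n) :
    ps n k m ≤ 2 ^ n * (1 - 1 / 2 ^ k) ^ m := by
  sorry
theorem RA_nonneg {n : ℕ} (k s : ℕ) (A : Set (Asg n)) : 0 ≤ RA k s A := by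
  sorry
theorem RA_mono {n : ℕ} (k s : ℕ) {A B : Set (Asg n)} (h : A ⊆ B) : RA k s A ≤ RA k s B := by
  sorry
theorem RA_empty {n : ℕ} (k s : ℕ) : RA k s (∅ : Set (Asg n)) = 0 := by
  sorry
theorem E_RA_ge (n k m s : ℕ) :
    (s : ℝ) * ps n k (m + s) ≤ E (fun F : Fin m → Cl n k => RA k s (Sol F)) := by
  sorry

/-! ### Task DE (second moment of the effect of one clause; uses TE, OS, TS, RA_mono, RA_nonneg) -/
theorem delta_sq {n : ℕ} (κ s T M : ℕ) (hn : 0 < n) (hT : 1 ≤ T) (hTn : T ≤ n) :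
    E (fun G : Fin M → Cl n (κ + 1) => E (fun C : Cl n (κ + 1) =>
      (RA (κ + 1) s (Sol G) - RA (κ + 1) s (Sol G ∩ {a | sc a C})) ^ 2)) ≤
      (((M : ℝ) + s) * (((κ : ℝ) + 1) / (2 * n) * KK κ s T)) ^ 2 +
      (((M : ℝ) + s) * (((κ : ℝ) + 1) / (2 * n) * KK κ s T)) * (T + s / (T : ℝ) ^ κ) := by
  sorry

/-! ### Task SH (uses ES, DE, BA) -/
theorem sharp_gen (κ s T n m : ℕ) (hn : 0 < n) (hT : 1 ≤ T) (hTn : T ≤ n) :
    (1 - ps n (κ + 1) m) * ((s : ℝ) * ps n (κ + 1) (m + s)) ^ 2 ≤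
      m * ((((m : ℝ) + s) * (((κ : ℝ) + 1) / (2 * n) * KK κ s T)) ^ 2 +
      (((m : ℝ) + s) * (((κ : ℝ) + 1) / (2 * n) * KK κ s T)) * (T + s / (T : ℝ) ^ κ)) := by
  sorry

/-! ### Task SA (pure algebra from sharp_gen with `s = T^(κ+1)`) -/
theorem sharp' (κ : ℕ) (Λ : ℝ) : ∃ C : ℝ, 0 < C ∧ ∀ n m T : ℕ, 1 ≤ T → T ≤ n →
    (m : ℝ) + (T : ℝ) ^ (κ + 1) ≤ Λ * n →
    (1 - ps n (κ + 1) m) * ps n (κ + 1) (m + T ^ (κ + 1)) ^ 2 ≤ C * n / (T : ℝ) ^ (2 * κ) := by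
  sorry

/-! ### Task IN (interpolation: split clauses against whole clauses) -/
theorem interp (N1 N2 k m : ℕ) (h1 : 0 < N1) (h2 : 0 < N2) (hk : 0 < k)
    (A1 : Set (Asg N1)) (A2 : Set (Asg N2)) :
    ∑ j ∈ range (m + 1), (m.choose j : ℝ) * ((N1 : ℝ) / (N1 + N2)) ^ j *
      ((N2 : ℝ) / (N1 + N2)) ^ (m - j) * (sv k j A1 * sv k (m - j) A2) ≤
      sv k m (rect A1 A2) := by
  sorry

/-! ### Task SM (supermultiplicativity, from IN) -/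
theorem super_one (n k m : ℕ) (hn : 0 < n) (hk : 0 < k) :
    ((n : ℝ) / (n + 1)) ^ m * ps n k m ≤ ps (n + 1) k m := by
  sorry

theorem super_two (N1 N2 k m m1 m2 : ℕ) (d : ℝ) (h1 : 0 < N1) (h2 : 0 < N2) (hk : 0 < k)
    (hd : 0 ≤ d) (hdm : 4 * (m : ℝ) ≤ d ^ 2)
    (hm1 : m * (N1 : ℝ) / (N1 + N2) + d ≤ m1) (hm2 : m * (N2 : ℝ) / (N1 + N2) + d ≤ m2) :
    1 / 2 * ps N1 k m1 * ps N2 k m2 ≤ ps (N1 + N2) k m := by
  sorry

/-! ### Task SQ (pure real analysis) -/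
theorem seq_lemma (r : ℕ → ℝ) (c C Λ : ℝ) (n0 : ℕ) (hc : 0 < c) (hC : 0 < C)
    (hr0 : ∀ n, 0 ≤ r n) (hrΛ : ∀ n, r n ≤ Λ)
    (h2 : ∀ N1 N2 : ℕ, n0 ≤ N1 → n0 ≤ N2 → N1 + N2 ≤ 4 * N1 → N1 + N2 ≤ 4 * N2 →
      min (r N1) (r N2) - C * ((N1 + N2 : ℕ) : ℝ) ^ (-c) ≤ r (N1 + N2))
    (h1 : ∀ N : ℕ, n0 ≤ N → r N - C * (N : ℝ) ^ (-c) ≤ r (N + 1)) :
    ∃ L : ℝ, Tendsto r atTop (nhds L) := by
  sorry

/-! ### Task CV1 -/
theorem Hyp.le_one {κ : ℕ} {p : ℕ → ℕ → ℝ} (h : Hyp κ p) (n m : ℕ) : p n m ≤ 1 := by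
  sorry
theorem Hyp.anti {κ : ℕ} {p : ℕ → ℕ → ℝ} (h : Hyp κ p) (n : ℕ) {m m' : ℕ} (hm : m ≤ m') :
    p n m' ≤ p n m := by
  sorry
theorem Hyp.first_bound {κ : ℕ} {p : ℕ → ℕ → ℝ} (h : Hyp κ p) (δ : ℝ) (hδ : 0 < δ) :
    ∃ Λ : ℝ, 0 < Λ ∧ ∀ n m : ℕ, 0 < n → δ ≤ p n m → (m : ℝ) ≤ Λ * n := by
  sorry
theorem Hyp.Mx_spec {κ : ℕ} {p : ℕ → ℕ → ℝ} (h : Hyp κ p) (n : ℕ) (hn : 0 < n) :
    1 / 2 ≤ p n (Mx p n) ∧ ∀ m, 1 / 2 ≤ p n m → m ≤ Mx p n := by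
  sorry

/-! ### Task CV2 (uses CV1) -/
theorem Tn_bounds (κ n : ℕ) (hn : 0 < n) :
    1 ≤ Tn κ n ∧ Tn κ n ≤ n ∧
      (Tn κ n : ℝ) ^ (κ + 1) ≤ (n : ℝ) ^ (1 - (1 : ℝ) / (2 * κ + 3)) := by
  sorry
theorem Tn_tendsto (κ : ℕ) (hκ : 2 ≤ κ) :
    Tendsto (fun n : ℕ => (n : ℝ) / (Tn κ n : ℝ) ^ (2 * κ)) atTop (nhds 0) := by
  sorry
/-- Step A -/
theorem Hyp.stepA {κ : ℕ} {p : ℕ → ℕ → ℝ} (h : Hyp κ p) (hκ : 2 ≤ κ) (δ : ℝ) (hδ : 0 < δ) :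
    ∃ n0 : ℕ, ∀ n m : ℕ, n0 ≤ n → δ ≤ p n m →
      (m : ℝ) ≤ Mx p n + (n : ℝ) ^ (1 - (1 : ℝ) / (2 * κ + 3)) := by
  sorry
/-- Step A' -/
theorem Hyp.stepA' {κ : ℕ} {p : ℕ → ℕ → ℝ} (h : Hyp κ p) (hκ : 2 ≤ κ) (ε : ℝ) (hε : 0 < ε) :
    ∃ n0 : ℕ, ∀ n m : ℕ, n0 ≤ n →
      (m : ℝ) + (n : ℝ) ^ (1 - (1 : ℝ) / (2 * κ + 3)) ≤ Mx p n → 1 - ε ≤ p n m := by
  sorry

/-! ### Task CV3 (Step B; uses CV1, CV2) -/
theorem Hyp.stepB {κ : ℕ} {p : ℕ → ℕ → ℝ} (h : Hyp κ p) (hκ : 2 ≤ κ) :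
    ∃ C : ℝ, 0 < C ∧ ∃ n0 : ℕ, ∀ N1 N2 : ℕ, n0 ≤ N1 → n0 ≤ N2 →
      N1 + N2 ≤ 4 * N1 → N1 + N2 ≤ 4 * N2 →
      min ((Mx p N1 : ℝ) / N1) ((Mx p N2 : ℝ) / N2) -
        C * ((N1 + N2 : ℕ) : ℝ) ^ (-((1 : ℝ) / (2 * κ + 3))) ≤
        (Mx p (N1 + N2) : ℝ) / ((N1 + N2 : ℕ) : ℝ) := by
  sorry

/-! ### Task CV4 (Step C; uses CV1, CV2) -/
theorem Hyp.stepC {κ : ℕ} {p : ℕ → ℕ → ℝ} (h : Hyp κ p) (hκ : 2 ≤ κ) :
    ∃ C : ℝ, 0 < C ∧ ∃ n0 : ℕ, ∀ N : ℕ, n0 ≤ N →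
      (Mx p N : ℝ) / N - C * (N : ℝ) ^ (-((1 : ℝ) / (2 * κ + 3))) ≤
        (Mx p (N + 1) : ℝ) / ((N + 1 : ℕ) : ℝ) := by
  sorry

/-! ### Task CV5 (final; uses SQ, CV1-CV4) -/
theorem Hyp.convergence {κ : ℕ} {p : ℕ → ℕ → ℝ} (h : Hyp κ p) (hκ : 2 ≤ κ) :
    ∃ rs : ℝ, (∀ r, r < rs → Tendsto (fun n : ℕ => p n ⌊r * (n : ℝ)⌋₊) atTop (nhds 1)) ∧
      (∀ r, rs < r → Tendsto (fun n : ℕ => p n ⌊r * (n : ℝ)⌋₊) atTop (nhds 0)) := by
  sorry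

/-! ### Task TR (from ordered iid literals to the frozen model) -/
theorem den_count (n k m : ℕ) :
    (univ.filter (fun F : Fin m → Fin n → Option Bool =>
      ∀ j, (univ.filter (fun i => F j i ≠ none)).card = k)).card * (k.factorial) ^ m =
      dcount n k m := by
  sorry

theorem num_count (n k m : ℕ) :
    (univ.filter (fun F : Fin m → Fin n → Option Bool =>
      (∀ j, (univ.filter (fun i => F j i ≠ none)).card = k) ∧
        ∃ a : Fin n → Bool, ∀ j, ∃ i, F j i = some (a i))).card * (k.factorial) ^ m =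
      dscount n k m := by
  sorry

/-! ### Task TL1 -/
theorem dcount_lower (k : ℕ) (Λ : ℝ) : ∃ c : ℝ, 0 < c ∧ ∃ n0 : ℕ, ∀ n m : ℕ, n0 ≤ n →
    (m : ℝ) ≤ Λ * n → c * ((2 * (n : ℝ)) ^ k) ^ m ≤ dcount n k m := by
  sorry

/-! ### Task TL2 -/
theorem dscount_le (n k m : ℕ) : (dscount n k m : ℝ) ≤ ps n k m * ((2 * (n : ℝ)) ^ k) ^ m := by
  sorry
theorem dcount_sub_le (n k m : ℕ) :
    (dcount n k m : ℝ) - dscount n k m ≤ (1 - ps n k m) * ((2 * (n : ℝ)) ^ k) ^ m := by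
  sorry
theorem dscount_le_dcount (n k m : ℕ) : dscount n k m ≤ dcount n k m := by
  sorry

/-! ### Task TL3 (limit transfer, uses den_count, num_count, TL1, TL2) -/
theorem transfer (k : ℕ) (rs : ℝ)
    (h1 : ∀ r, r < rs → Tendsto (fun n : ℕ => ps n k ⌊r * (n : ℝ)⌋₊) atTop (nhds 1))
    (h0 : ∀ r, rs < r → Tendsto (fun n : ℕ => ps n k ⌊r * (n : ℝ)⌋₊) atTop (nhds 0)) :
      (∀ r : ℝ, r < rs → Filter.Tendsto (fun n : ℕ =>
        ((Finset.univ.filter (fun F : Fin ⌊r * (n : ℝ)⌋₊ → Fin n → Option Bool =>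
            (∀ j, (Finset.univ.filter (fun i => F j i ≠ none)).card = k) ∧
            ∃ a : Fin n → Bool, ∀ j, ∃ i, F j i = some (a i))).card : ℝ) /
        ((Finset.univ.filter (fun F : Fin ⌊r * (n : ℝ)⌋₊ → Fin n → Option Bool =>
            ∀ j, (Finset.univ.filter (fun i => F j i ≠ none)).card = k)).card : ℝ))
        Filter.atTop (nhds 1)) ∧
      (∀ r : ℝ, rs < r → Filter.Tendsto (fun n : ℕ =>
        ((Finset.univ.filter (fun F : Fin ⌊r * (n : ℝ)⌋₊ → Fin n → Option Bool =>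
            (∀ j, (Finset.univ.filter (fun i => F j i ≠ none)).card = k) ∧
            ∃ a : Fin n → Bool, ∀ j, ∃ i, F j i = some (a i))).card : ℝ) /
        ((Finset.univ.filter (fun F : Fin ⌊r * (n : ℝ)⌋₊ → Fin n → Option Bool =>
            ∀ j, (Finset.univ.filter (fun i => F j i ≠ none)).card = k)).card : ℝ))
        Filter.atTop (nhds 0)) := by
  sorry

/-! ### The frozen statement S13435, by assembly -/
theorem main :
    ∀ k : ℕ, 3 ≤ k → ∃ rstar : ℝ,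
      (∀ r : ℝ, r < rstar → Filter.Tendsto (fun n : ℕ =>
        ((Finset.univ.filter (fun F : Fin ⌊r * (n : ℝ)⌋₊ → Fin n → Option Bool =>
            (∀ j, (Finset.univ.filter (fun i => F j i ≠ none)).card = k) ∧
            ∃ a : Fin n → Bool, ∀ j, ∃ i, F j i = some (a i))).card : ℝ) /
        ((Finset.univ.filter (fun F : Fin ⌊r * (n : ℝ)⌋₊ → Fin n → Option Bool =>
            ∀ j, (Finset.univ.filter (fun i => F j i ≠ none)).card = k)).card : ℝ))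
        Filter.atTop (nhds 1)) ∧
      (∀ r : ℝ, rstar < r → Filter.Tendsto (fun n : ℕ =>
        ((Finset.univ.filter (fun F : Fin ⌊r * (n : ℝ)⌋₊ → Fin n → Option Bool =>
            (∀ j, (Finset.univ.filter (fun i => F j i ≠ none)).card = k) ∧
            ∃ a : Fin n → Bool, ∀ j, ∃ i, F j i = some (a i))).card : ℝ) /
        ((Finset.univ.filter (fun F : Fin ⌊r * (n : ℝ)⌋₊ → Fin n → Option Bool =>
            ∀ j, (Finset.univ.filter (fun i => F j i ≠ none)).card = k)).card : ℝ))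
        Filter.atTop (nhds 0)) := by
  intro k hk
  obtain ⟨κ, rfl⟩ : ∃ κ, k = κ + 1 := ⟨k - 1, by omega⟩
  have hyp : Hyp κ (fun n m => ps n (κ + 1) m) :=
    { h0 := fun n => ps_zero n _
      hnn := fun n m => ps_nonneg n _ m
      hanti := fun n m => ps_succ_le n _ m
      hfm := ⟨1 - 1 / 2 ^ (κ + 1), by
        have : (1 : ℝ) / 2 ^ (κ + 1) ≤ 1 := by
          rw [div_le_one (by positivity)]; exact one_le_pow₀ (by norm_num)
        linarith, by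
        have : (0 : ℝ) < 1 / 2 ^ (κ + 1) := by positivity
        linarith, fun n m hn => first_moment n _ m hn⟩
      hsharp := fun Λ => sharp' κ Λ
      hone := fun n m hn => super_one n _ m hn (by omega)
      htwo := fun N1 N2 m m1 m2 d h1 h2 hd hdm hm1 hm2 =>
        super_two N1 N2 _ m m1 m2 d h1 h2 (by omega) hd hdm hm1 hm2 }
  obtain ⟨rs, h1, h0⟩ := hyp.convergence (by omega)
  exact ⟨rs, transfer (κ + 1) rs h1 h0⟩

end Pool.Agent.H999R2.KSat
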