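import Pool.Agent.H999R2.KSat.Defs2

/-! Task CV1: first facts about the abstract probabilities. -/

set_option autoImplicit false

namespace Pool.Agent.H999R2.KSat
open Finset Filter

theorem Hyp.anti {κ : ℕ} {p : ℕ → ℕ → ℝ} (h : Hyp κ p) (n : ℕ) {m m' : ℕ} (hm : m ≤ m') :
    p n m' ≤ p n m :=
  antitone_nat_of_succ_le (h.hanti n) hm

theorem Hyp.le_one {κ : ℕ} {p : ℕ → ℕ → ℝ} (h : Hyp κ p) (n m : ℕ) : p n m ≤ 1 := by
  have h1 := h.anti n (Nat.zero_le m)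
  rw [h.h0] at h1
  exact h1

theorem Hyp.first_bound {κ : ℕ} {p : ℕ → ℕ → ℝ} (h : Hyp κ p) (δ : ℝ) (hδ : 0 < δ) :
    ∃ Λ : ℝ, 0 < Λ ∧ ∀ n m : ℕ, 0 < n → δ ≤ p n m → (m : ℝ) ≤ Λ * n := by
  obtain ⟨q, hq0, hq1, hq⟩ := h.hfm
  rcases hq0.eq_or_lt with h0 | h0
  · refine ⟨1, one_pos, ?_⟩
    intro n m hn hp
    have h1 := hq n m hn
    rcases Nat.eq_zero_or_pos m with hm | hm
    · subst hm
      simp
    · rw [← h0, zero_pow (by omega), mul_zero] at h1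
      linarith
  · have hL : 0 < -Real.log q := by
      have := Real.log_neg h0 hq1
      linarith
    have hlog2 : 0 < Real.log 2 := Real.log_pos (by norm_num)
    refine ⟨(Real.log 2 + |Real.log δ|) / (-Real.log q), by positivity, ?_⟩
    intro n m hn hp
    have hn' : (1 : ℝ) ≤ n := by exact_mod_cast hn
    have h1 : δ ≤ 2 ^ n * q ^ m := hp.trans (hq n m hn)
    have h2 := Real.log_le_log hδ h1
    rw [Real.log_mul (by positivity) (by positivity), Real.log_pow, Real.log_pow] at h2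
    have h3 : -|Real.log δ| ≤ Real.log δ := neg_abs_le _
    have h4 : |Real.log δ| ≤ |Real.log δ| * n := by
      have := abs_nonneg (Real.log δ)
      nlinarith
    rw [div_mul_eq_mul_div, le_div_iff₀ hL]
    linarith

theorem Hyp.Mx_spec {κ : ℕ} {p : ℕ → ℕ → ℝ} (h : Hyp κ p) (n : ℕ) (hn : 0 < n) :
    1 / 2 ≤ p n (Mx p n) ∧ ∀ m, 1 / 2 ≤ p n m → m ≤ Mx p n := by
  obtain ⟨Λ, _, hb⟩ := h.first_bound (1 / 2) (by norm_num)
  have hne : {m : ℕ | 1 / 2 ≤ p n m}.Nonempty := by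
    refine ⟨0, ?_⟩
    show 1 / 2 ≤ p n 0
    rw [h.h0]
    norm_num
  have hbdd : BddAbove {m : ℕ | 1 / 2 ≤ p n m} := by
    refine ⟨⌊Λ * n⌋₊, ?_⟩
    intro m hm
    exact Nat.le_floor (hb n m hn hm)
  constructor
  · exact Nat.sSup_mem hne hbdd
  · intro m hm
    exact le_csSup hbdd hm

end Pool.Agent.H999R2.KSat
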