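import Pool.Agent.H999R2.KSat.CV1

set_option autoImplicit false

/-! The window `Tn` and step A of the convergence argument. -/

namespace Pool.Agent.H999R2.KSat
open Finset Filter

theorem cv2_floor_half {x : ℝ} (hx : 1 ≤ x) : x / 2 ≤ (⌊x⌋₊ : ℝ) := by
  have h1 : (1 : ℝ) ≤ (⌊x⌋₊ : ℝ) := by
    have : 1 ≤ ⌊x⌋₊ := Nat.le_floor (by simpa using hx)
    exact_mod_cast this
  have h2 := (Nat.lt_floor_add_one x).le
  linarith

theorem cv2_base (κ n : ℕ) (hn : 0 < n) : (1 : ℝ) ≤ (n : ℝ) ^ ((2 : ℝ) / (2 * κ + 3)) := by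
  apply Real.one_le_rpow
  · exact_mod_cast hn
  · positivity

theorem Tn_bounds (κ n : ℕ) (hn : 0 < n) :
    1 ≤ Tn κ n ∧ Tn κ n ≤ n ∧
      (Tn κ n : ℝ) ^ (κ + 1) ≤ (n : ℝ) ^ (1 - (1 : ℝ) / (2 * κ + 3)) := by
  have hn1 : (1 : ℝ) ≤ n := by exact_mod_cast hn
  have hn0 : (0 : ℝ) ≤ n := by linarith
  have hb := cv2_base κ n hn
  have hfl : (Tn κ n : ℝ) ≤ (n : ℝ) ^ ((2 : ℝ) / (2 * κ + 3)) := Nat.floor_le (by linarith)
  refine ⟨?_, ?_, ?_⟩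
  · exact Nat.le_floor (by simpa using hb)
  · have h1 : (n : ℝ) ^ ((2 : ℝ) / (2 * κ + 3)) ≤ (n : ℝ) ^ (1 : ℝ) := by
      apply Real.rpow_le_rpow_of_exponent_le hn1
      rw [div_le_one (by positivity)]
      have : (0 : ℝ) ≤ κ := Nat.cast_nonneg _
      linarith
    rw [Real.rpow_one] at h1
    exact_mod_cast hfl.trans h1
  · calc (Tn κ n : ℝ) ^ (κ + 1) ≤ ((n : ℝ) ^ ((2 : ℝ) / (2 * κ + 3))) ^ (κ + 1) :=
          pow_le_pow_left₀ (Nat.cast_nonneg _) hfl _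
      _ = (n : ℝ) ^ ((2 : ℝ) / (2 * κ + 3) * ((κ + 1 : ℕ) : ℝ)) := by
          rw [Real.rpow_mul hn0, Real.rpow_natCast]
      _ = _ := by
          congr 1
          push_cast
          field_simp
          ring

theorem Tn_tendsto (κ : ℕ) (hκ : 2 ≤ κ) :
    Tendsto (fun n : ℕ => (n : ℝ) / (Tn κ n : ℝ) ^ (2 * κ)) atTop (nhds 0) := by
  have hκR : (2 : ℝ) ≤ κ := by exact_mod_cast hκ
  set a : ℝ := (2 * κ - 3) / (2 * κ + 3) with ha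
  have ha0 : 0 < a := by
    rw [ha]
    apply div_pos <;> linarith
  have h1 : Tendsto (fun n : ℕ => (2 : ℝ) ^ (2 * κ) * (n : ℝ) ^ (-a)) atTop (nhds 0) := by
    have h2 := (tendsto_rpow_neg_atTop ha0).comp (tendsto_natCast_atTop_atTop (R := ℝ))
    have h3 := h2.const_mul ((2 : ℝ) ^ (2 * κ))
    rw [mul_zero] at h3
    exact h3
  apply squeeze_zero' _ _ h1
  · exact Eventually.of_forall fun n => by positivity
  · filter_upwards [eventually_gt_atTop 0] with n hn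
    have hn1 : (1 : ℝ) ≤ n := by exact_mod_cast hn
    have hn0 : (0 : ℝ) < n := by linarith
    have hb := cv2_base κ n hn
    have hh : (n : ℝ) ^ ((2 : ℝ) / (2 * κ + 3)) / 2 ≤ (Tn κ n : ℝ) := cv2_floor_half hb
    have hT : 0 < (n : ℝ) ^ ((2 : ℝ) / (2 * κ + 3)) / 2 := by linarith
    calc (n : ℝ) / (Tn κ n : ℝ) ^ (2 * κ)
        ≤ (n : ℝ) / ((n : ℝ) ^ ((2 : ℝ) / (2 * κ + 3)) / 2) ^ (2 * κ) := by
          apply div_le_div_of_nonneg_left hn0.le (pow_pos hT _)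
          exact pow_le_pow_left₀ hT.le hh _
      _ = (2 : ℝ) ^ (2 * κ) * ((n : ℝ) ^ (1 : ℝ) /
            (n : ℝ) ^ ((2 : ℝ) / (2 * κ + 3) * ((2 * κ : ℕ) : ℝ))) := by
          rw [div_pow, Real.rpow_mul hn0.le, Real.rpow_natCast, Real.rpow_one]
          field_simp
      _ = (2 : ℝ) ^ (2 * κ) * (n : ℝ) ^ (-a) := by
          rw [← Real.rpow_sub hn0]
          congr 2
          rw [ha]
          push_cast
          field_simp
          ring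

/-- Step A -/
theorem Hyp.stepA {κ : ℕ} {p : ℕ → ℕ → ℝ} (h : Hyp κ p) (hκ : 2 ≤ κ) (δ : ℝ) (hδ : 0 < δ) :
    ∃ n0 : ℕ, ∀ n m : ℕ, n0 ≤ n → δ ≤ p n m →
      (m : ℝ) ≤ Mx p n + (n : ℝ) ^ (1 - (1 : ℝ) / (2 * κ + 3)) := by
  obtain ⟨Λ, hΛ, hΛm⟩ := h.first_bound δ hδ
  obtain ⟨C, hC, hsh⟩ := h.hsharp Λ
  have hlim := (Tn_tendsto κ hκ).const_mul C
  rw [mul_zero] at hlim
  have hev : ∀ᶠ n : ℕ in atTop, C * ((n : ℝ) / (Tn κ n : ℝ) ^ (2 * κ)) < δ ^ 2 / 2 :=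
    hlim.eventually_lt_const (by positivity)
  obtain ⟨n0, hn0⟩ := eventually_atTop.mp hev
  refine ⟨max n0 1, fun n m hn hm => ?_⟩
  have hn1 : 0 < n := by have := le_max_right n0 1; omega
  have hn2 : n0 ≤ n := (le_max_left n0 1).trans hn
  obtain ⟨hT1, hT2, hT3⟩ := Tn_bounds κ n hn1
  have hMx : (0 : ℝ) ≤ Mx p n := Nat.cast_nonneg _
  rcases Nat.lt_or_ge m (Tn κ n ^ (κ + 1)) with hc | hc
  · have : (m : ℝ) ≤ ((Tn κ n ^ (κ + 1) : ℕ) : ℝ) := by exact_mod_cast hc.le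
    push_cast at this
    linarith
  · obtain ⟨m', hm'⟩ := Nat.exists_eq_add_of_le hc
    rw [add_comm] at hm'
    have h1 : (m' : ℝ) + (Tn κ n : ℝ) ^ (κ + 1) ≤ Λ * n := by
      have := hΛm n m hn1 hm
      rw [hm'] at this
      push_cast at this
      exact this
    have h2 := hsh n m' (Tn κ n) hT1 hT2 h1
    rw [← hm'] at h2
    have h3 := hn0 n hn2
    have h4 : C * n / (Tn κ n : ℝ) ^ (2 * κ) < δ ^ 2 / 2 := by
      rw [mul_div_assoc]; exact h3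
    have h5 : δ ^ 2 ≤ p n m ^ 2 := pow_le_pow_left₀ hδ.le hm 2
    have hp1 := h.le_one n m'
    have h6 : (1 - p n m') * δ ^ 2 ≤ (1 - p n m') * p n m ^ 2 :=
      mul_le_mul_of_nonneg_left h5 (by linarith)
    have h7 : 1 / 2 ≤ p n m' := by
      by_contra hcon
      push Not at hcon
      have h8 : 0 < δ ^ 2 := by positivity
      nlinarith
    have h9 := (h.Mx_spec n hn1).2 m' h7
    have h10 : (m' : ℝ) ≤ Mx p n := by exact_mod_cast h9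
    have h11 : (m : ℝ) = m' + (Tn κ n : ℝ) ^ (κ + 1) := by rw [hm']; push_cast; rfl
    rw [h11]
    linarith

/-- Step A' -/
theorem Hyp.stepA' {κ : ℕ} {p : ℕ → ℕ → ℝ} (h : Hyp κ p) (hκ : 2 ≤ κ) (ε : ℝ) (hε : 0 < ε) :
    ∃ n0 : ℕ, ∀ n m : ℕ, n0 ≤ n →
      (m : ℝ) + (n : ℝ) ^ (1 - (1 : ℝ) / (2 * κ + 3)) ≤ Mx p n → 1 - ε ≤ p n m := by
  obtain ⟨Λ, hΛ, hΛm⟩ := h.first_bound (1 / 2) (by norm_num)
  obtain ⟨C, hC, hsh⟩ := h.hsharp Λ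
  have hlim := (Tn_tendsto κ hκ).const_mul C
  rw [mul_zero] at hlim
  have hev : ∀ᶠ n : ℕ in atTop, C * ((n : ℝ) / (Tn κ n : ℝ) ^ (2 * κ)) < ε / 4 :=
    hlim.eventually_lt_const (by positivity)
  obtain ⟨n0, hn0⟩ := eventually_atTop.mp hev
  refine ⟨max n0 1, fun n m hn hm => ?_⟩
  have hn1 : 0 < n := by have := le_max_right n0 1; omega
  have hn2 : n0 ≤ n := (le_max_left n0 1).trans hn
  obtain ⟨hT1, hT2, hT3⟩ := Tn_bounds κ n hn1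
  obtain ⟨hM1, hM2⟩ := h.Mx_spec n hn1
  have hle : m + Tn κ n ^ (κ + 1) ≤ Mx p n := by
    have : (m : ℝ) + (Tn κ n : ℝ) ^ (κ + 1) ≤ Mx p n := by linarith
    exact_mod_cast this
  have h1 : 1 / 2 ≤ p n (m + Tn κ n ^ (κ + 1)) := hM1.trans (h.anti n hle)
  have h2 : (m : ℝ) + (Tn κ n : ℝ) ^ (κ + 1) ≤ Λ * n := by
    have := hΛm n _ hn1 h1
    push_cast at this
    exact this
  have h3 := hsh n m (Tn κ n) hT1 hT2 h2
  have h4 := hn0 n hn2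
  have h5 : C * n / (Tn κ n : ℝ) ^ (2 * κ) < ε / 4 := by
    rw [mul_div_assoc]; exact h4
  have hp1 := h.le_one n m
  have h6 : (1 / 2 : ℝ) ^ 2 ≤ p n (m + Tn κ n ^ (κ + 1)) ^ 2 :=
    pow_le_pow_left₀ (by norm_num) h1 2
  have h7 : (1 - p n m) * (1 / 2 : ℝ) ^ 2 ≤ (1 - p n m) * p n (m + Tn κ n ^ (κ + 1)) ^ 2 :=
    mul_le_mul_of_nonneg_left h6 (by linarith)
  nlinarith

end Pool.Agent.H999R2.KSat
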