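import Pool.Agent.H999R2.KSat.CV1
import Pool.Agent.H999R2.KSat.CV2

set_option autoImplicit false

namespace Pool.Agent.H999R2.KSat
open Finset Filter

theorem cv3_aux {κ : ℕ} {p : ℕ → ℕ → ℝ} (h : Hyp κ p)
    (hfb : ∃ Λ : ℝ, 0 < Λ ∧ ∀ n m : ℕ, 0 < n → 1 / 2 ≤ p n m → (m : ℝ) ≤ Λ * n)
    (hspec : ∀ n, 0 < n → 1 / 2 ≤ p n (Mx p n) ∧ ∀ m, 1 / 2 ≤ p n m → m ≤ Mx p n)
    (hA : ∃ n0 : ℕ, ∀ n m : ℕ, n0 ≤ n → 1 / 8 ≤ p n m →
      (m : ℝ) ≤ Mx p n + (n : ℝ) ^ (1 - (1 : ℝ) / (2 * κ + 3))) :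
    ∃ C : ℝ, 0 < C ∧ ∃ n0 : ℕ, ∀ N1 N2 : ℕ, n0 ≤ N1 → n0 ≤ N2 →
      N1 + N2 ≤ 4 * N1 → N1 + N2 ≤ 4 * N2 →
      min ((Mx p N1 : ℝ) / N1) ((Mx p N2 : ℝ) / N2) -
        C * ((N1 + N2 : ℕ) : ℝ) ^ (-((1 : ℝ) / (2 * κ + 3))) ≤
        (Mx p (N1 + N2) : ℝ) / ((N1 + N2 : ℕ) : ℝ) := by
  obtain ⟨L0, hL0, hL⟩ := hfb
  obtain ⟨n1, hn1⟩ := hA
  set L : ℝ := max L0 1 with hLdef
  have hL1 : 1 ≤ L := le_max_right _ _
  refine ⟨8 * Real.sqrt L + 2, by positivity, max n1 1, ?_⟩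
  intro N1 N2 h1 h2 h3 h4
  have hN1 : 0 < N1 := lt_of_lt_of_le Nat.zero_lt_one (le_trans (le_max_right _ _) h1)
  have hN2 : 0 < N2 := lt_of_lt_of_le Nat.zero_lt_one (le_trans (le_max_right _ _) h2)
  have hN1' : (0 : ℝ) < N1 := by exact_mod_cast hN1
  have hN2' : (0 : ℝ) < N2 := by exact_mod_cast hN2
  set x : ℝ := ((N1 + N2 : ℕ) : ℝ) with hx
  have hxs : x = (N1 : ℝ) + N2 := by rw [hx]; push_cast; ring
  have hx1 : 1 ≤ x := by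
    have : (1 : ℝ) ≤ N1 := by exact_mod_cast hN1
    linarith
  have hx0 : 0 < x := by linarith
  have h3' : x ≤ 4 * N1 := by rw [hx]; exact_mod_cast h3
  have h4' : x ≤ 4 * N2 := by rw [hx]; exact_mod_cast h4
  set c : ℝ := (1 : ℝ) / (2 * κ + 3) with hc
  have hκ0 : (0 : ℝ) ≤ κ := Nat.cast_nonneg _
  have hc0 : 0 < c := by positivity
  have hc2 : c ≤ 1 / 2 := by
    rw [hc]
    exact one_div_le_one_div_of_le (by norm_num) (by linarith)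
  have e1 : x ^ (1 - c) = x * x ^ (-c) := by
    rw [sub_eq_add_neg, Real.rpow_add hx0, Real.rpow_one]
  have e2 : 1 ≤ x * x ^ (-c) := by
    rw [← e1]; exact Real.one_le_rpow hx1 (by linarith)
  have e3 : Real.sqrt x ≤ x * x ^ (-c) := by
    rw [← e1, Real.sqrt_eq_rpow]
    exact Real.rpow_le_rpow_of_exponent_le hx1 (by linarith)
  set y : ℝ := x * x ^ (-c) with hy
  set ρ : ℝ := min ((Mx p N1 : ℝ) / N1) ((Mx p N2 : ℝ) / N2) with hρ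
  have hρ1 : ρ * N1 ≤ Mx p N1 := by
    have : ρ ≤ (Mx p N1 : ℝ) / N1 := min_le_left _ _
    rwa [le_div_iff₀ hN1'] at this
  have hρ2 : ρ * N2 ≤ Mx p N2 := by
    have : ρ ≤ (Mx p N2 : ℝ) / N2 := min_le_right _ _
    rwa [le_div_iff₀ hN2'] at this
  have hρ0 : 0 ≤ ρ := le_min (by positivity) (by positivity)
  have hρL : ρ ≤ L := by
    have a1 := hL N1 _ hN1 (hspec N1 hN1).1
    have a2 : (Mx p N1 : ℝ) / N1 ≤ L0 := by rw [div_le_iff₀ hN1']; exact a1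
    exact (min_le_left _ _).trans (a2.trans (le_max_left _ _))
  set d : ℝ := 2 * Real.sqrt (L * x) with hd
  have hd0 : 0 ≤ d := by positivity
  have hdd : d ^ 2 = 4 * (L * x) := by
    rw [hd, mul_pow, Real.sq_sqrt (by positivity)]; ring
  have hdy : 4 * d ≤ 8 * Real.sqrt L * y := by
    rw [hd, Real.sqrt_mul (by linarith)]
    have : Real.sqrt L * Real.sqrt x ≤ Real.sqrt L * y :=
      mul_le_mul_of_nonneg_left e3 (Real.sqrt_nonneg _)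
    linarith
  -- it suffices to multiply by x
  suffices hs : ρ * x - (8 * Real.sqrt L + 2) * y ≤ Mx p (N1 + N2) by
    rw [le_div_iff₀ hx0]
    have : (ρ - (8 * Real.sqrt L + 2) * x ^ (-c)) * x =
        ρ * x - (8 * Real.sqrt L + 2) * y := by rw [hy]; ring
    rw [this]; exact hs
  by_cases hcase : ρ * x < 4 * d
  · have hM0 : (0 : ℝ) ≤ Mx p (N1 + N2) := Nat.cast_nonneg _
    have hy0 : 0 ≤ y := by linarith
    nlinarith
  · push Not at hcase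
    set m : ℕ := ⌊ρ * x - 4 * d⌋₊ with hm
    have hm1 : (m : ℝ) ≤ ρ * x - 4 * d := Nat.floor_le (by linarith)
    have hm2 : ρ * x - 4 * d < m + 1 := Nat.lt_floor_add_one _
    have hmm : 4 * (m : ℝ) ≤ d ^ 2 := by
      rw [hdd]
      have : ρ * x ≤ L * x := mul_le_mul_of_nonneg_right hρL hx0.le
      linarith
    have key : ∀ t : ℝ, 0 < t → x ≤ 4 * t → m * t / x + d ≤ ρ * t := by
      intro t ht hxt
      have b1 : (m : ℝ) * t / x ≤ (ρ * x - 4 * d) * t / x := by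
        apply div_le_div_of_nonneg_right _ hx0.le
        exact mul_le_mul_of_nonneg_right hm1 ht.le
      have b2 : (ρ * x - 4 * d) * t / x = ρ * t - d * (4 * t / x) := by
        field_simp
      have b3 : 1 ≤ 4 * t / x := by rwa [le_div_iff₀ hx0, one_mul]
      have b4 : d * 1 ≤ d * (4 * t / x) := mul_le_mul_of_nonneg_left b3 hd0
      linarith
    have k1 := h.htwo N1 N2 m (Mx p N1) (Mx p N2) d hN1 hN2 hd0 hmm
      (by rw [← hxs]; exact (key N1 hN1' h3').trans hρ1)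
      (by rw [← hxs]; exact (key N2 hN2' h4').trans hρ2)
    have k2 := (hspec N1 hN1).1
    have k3 := (hspec N2 hN2).1
    have k4 : (1 : ℝ) / 8 ≤ p (N1 + N2) m := by
      nlinarith [mul_le_mul k2 k3 (by norm_num) (by linarith : (0 : ℝ) ≤ p N1 (Mx p N1))]
    have k5 := hn1 (N1 + N2) m ((le_max_left _ _).trans (h1.trans (Nat.le_add_right _ _))) k4
    rw [e1] at k5
    nlinarith [e2]

/-- Step B -/
theorem Hyp.stepB {κ : ℕ} {p : ℕ → ℕ → ℝ} (h : Hyp κ p) (hκ : 2 ≤ κ) :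
    ∃ C : ℝ, 0 < C ∧ ∃ n0 : ℕ, ∀ N1 N2 : ℕ, n0 ≤ N1 → n0 ≤ N2 →
      N1 + N2 ≤ 4 * N1 → N1 + N2 ≤ 4 * N2 →
      min ((Mx p N1 : ℝ) / N1) ((Mx p N2 : ℝ) / N2) -
        C * ((N1 + N2 : ℕ) : ℝ) ^ (-((1 : ℝ) / (2 * κ + 3))) ≤
        (Mx p (N1 + N2) : ℝ) / ((N1 + N2 : ℕ) : ℝ) :=
  cv3_aux h (h.first_bound (1 / 2) (by norm_num)) (fun n hn => h.Mx_spec n hn)
    (h.stepA hκ (1 / 8) (by norm_num))

end Pool.Agent.H999R2.KSat
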