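import Pool.Agent.H999R2.KSat.Defs2
import Pool.Agent.H999R2.KSat.CV1
import Pool.Agent.H999R2.KSat.CV2

set_option autoImplicit false

namespace Pool.Agent.H999R2.KSat
open Finset Filter

/-- Step C: one more variable -/
theorem Hyp.stepC {κ : ℕ} {p : ℕ → ℕ → ℝ} (h : Hyp κ p) (hκ : 2 ≤ κ) :
    ∃ C : ℝ, 0 < C ∧ ∃ n0 : ℕ, ∀ N : ℕ, n0 ≤ N →
      (Mx p N : ℝ) / N - C * (N : ℝ) ^ (-((1 : ℝ) / (2 * κ + 3))) ≤
        (Mx p (N + 1) : ℝ) / ((N + 1 : ℕ) : ℝ) := by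
  obtain ⟨Λ, hΛ, hfb⟩ := h.first_bound (1 / 2) (by norm_num)
  have hδ : 0 < Real.exp (-Λ) / 2 := by positivity
  obtain ⟨n1, hA⟩ := h.stepA hκ _ hδ
  refine ⟨Λ + 1, by linarith, max 1 n1, fun N hN => ?_⟩
  have hN1 : 1 ≤ N := le_trans (le_max_left _ _) hN
  have hNn : n1 ≤ N + 1 := le_trans (le_trans (le_max_right _ _) hN) (Nat.le_succ _)
  have hNpos : 0 < N := hN1
  have hNr : (1 : ℝ) ≤ N := by exact_mod_cast hN1
  have hN0 : (0 : ℝ) < N := by linarith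
  set c : ℝ := (1 : ℝ) / (2 * κ + 3) with hc
  have hκ0 : (0 : ℝ) ≤ κ := Nat.cast_nonneg κ
  have hc0 : 0 < c := by rw [hc]; positivity
  have hc1 : c ≤ 1 := by
    rw [hc, div_le_one (by positivity)]; linarith
  have hm := (h.Mx_spec N hNpos).1
  set m : ℕ := Mx p N with hmdef
  have hmΛ : (m : ℝ) ≤ Λ * N := hfb N m hNpos hm
  -- lower bound for `p (N+1) m`
  have hq : Real.exp (-(1 / (N : ℝ))) ≤ (N : ℝ) / (N + 1) := by
    have h1 : 1 + 1 / (N : ℝ) ≤ Real.exp (1 / (N : ℝ)) := by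
      have := Real.add_one_le_exp (1 / (N : ℝ)); linarith
    rw [Real.exp_neg, inv_eq_one_div]
    have h2 : (N : ℝ) / (N + 1) = 1 / (1 + 1 / (N : ℝ)) := by
      field_simp
    rw [h2]
    exact one_div_le_one_div_of_le (by positivity) h1
  have hpow : Real.exp (-Λ) ≤ ((N : ℝ) / (N + 1)) ^ m := by
    calc Real.exp (-Λ) ≤ Real.exp (m * -(1 / (N : ℝ))) := by
          apply Real.exp_le_exp.2
          have : (m : ℝ) * (1 / N) ≤ Λ := by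
            rw [mul_one_div, div_le_iff₀ hN0]; exact hmΛ
          linarith
      _ = Real.exp (-(1 / (N : ℝ))) ^ m := by rw [Real.exp_nat_mul]
      _ ≤ _ := pow_le_pow_left₀ (Real.exp_pos _).le hq m
  have hlow : Real.exp (-Λ) / 2 ≤ p (N + 1) m := by
    have h1 := h.hone N m hNpos
    have h2 : Real.exp (-Λ) * (1 / 2) ≤ ((N : ℝ) / (N + 1)) ^ m * p N m :=
      mul_le_mul hpow hm (by norm_num) (by positivity)
    linarith
  have hstep := hA (N + 1) m hNn hlow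
  have hNs : (0 : ℝ) < ((N + 1 : ℕ) : ℝ) := by positivity
  have hNs' : ((N + 1 : ℕ) : ℝ) = (N : ℝ) + 1 := by push_cast; ring
  -- divide
  have hdiv : (m : ℝ) / ((N + 1 : ℕ) : ℝ) ≤ (Mx p (N + 1) : ℝ) / ((N + 1 : ℕ) : ℝ) +
      ((N + 1 : ℕ) : ℝ) ^ (-c) := by
    have e : ((N + 1 : ℕ) : ℝ) ^ (-c) = ((N + 1 : ℕ) : ℝ) ^ (1 - c) / ((N + 1 : ℕ) : ℝ) := by
      rw [show (-c : ℝ) = (1 - c) - 1 by ring, Real.rpow_sub_one hNs.ne']
    rw [e, ← add_div]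
    exact div_le_div_of_nonneg_right hstep hNs.le
  have hle : ((N + 1 : ℕ) : ℝ) ^ (-c) ≤ (N : ℝ) ^ (-c) := by
    apply Real.rpow_le_rpow_of_nonpos hN0 (by rw [hNs']; linarith) (by linarith)
  have hinv : 1 / (N : ℝ) ≤ (N : ℝ) ^ (-c) := by
    rw [one_div, ← Real.rpow_neg_one]
    exact Real.rpow_le_rpow_of_exponent_le hNr (by linarith)
  have hdiff : (m : ℝ) / N - (m : ℝ) / ((N + 1 : ℕ) : ℝ) ≤ Λ * (N : ℝ) ^ (-c) := by
    have e : (m : ℝ) / N - (m : ℝ) / ((N + 1 : ℕ) : ℝ) = ((m : ℝ) / N) * (1 / ((N : ℝ) + 1)) := by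
      rw [hNs']; field_simp; ring
    rw [e]
    have h1 : (m : ℝ) / N ≤ Λ := by rw [div_le_iff₀ hN0]; exact hmΛ
    have h2 : 1 / ((N : ℝ) + 1) ≤ (N : ℝ) ^ (-c) :=
      le_trans (one_div_le_one_div_of_le hN0 (by linarith)) hinv
    exact mul_le_mul h1 h2 (by positivity) hΛ.le
  have : (Λ + 1) * (N : ℝ) ^ (-c) = Λ * (N : ℝ) ^ (-c) + (N : ℝ) ^ (-c) := by ring
  linarith

end Pool.Agent.H999R2.KSat
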