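import Pool.Agent.H999R2.KSat.Defs2
import Pool.Agent.H999R2.KSat.SQ
import Pool.Agent.H999R2.KSat.CV1
import Pool.Agent.H999R2.KSat.CV2
import Pool.Agent.H999R2.KSat.CV3
import Pool.Agent.H999R2.KSat.CV4

set_option autoImplicit false

namespace Pool.Agent.H999R2.KSat
open Finset Filter

/-! ### CV5 -/

theorem cv5_rpow (c η : ℝ) (hc : 0 < c) (hη : 0 < η) :
    ∀ᶠ n : ℕ in atTop, (n : ℝ) ^ (1 - c) ≤ η * n := by
  have h1 : Tendsto (fun n : ℕ => (n : ℝ) ^ (-c)) atTop (nhds 0) :=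
    (tendsto_rpow_neg_atTop hc).comp tendsto_natCast_atTop_atTop
  filter_upwards [h1.eventually (gt_mem_nhds hη), eventually_gt_atTop 0] with n hn hn0
  have hn' : (0 : ℝ) < n := by exact_mod_cast hn0
  have e : (n : ℝ) ^ (1 - c) = n * (n : ℝ) ^ (-c) := by
    rw [sub_eq_add_neg, Real.rpow_add hn', Real.rpow_one]
  rw [e, mul_comm]
  exact mul_le_mul_of_nonneg_right (le_of_lt hn) hn'.le

theorem Hyp.convergence {κ : ℕ} {p : ℕ → ℕ → ℝ} (h : Hyp κ p) (hκ : 2 ≤ κ) :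
    ∃ rs : ℝ, (∀ r, r < rs → Tendsto (fun n : ℕ => p n ⌊r * (n : ℝ)⌋₊) atTop (nhds 1)) ∧
      (∀ r, rs < r → Tendsto (fun n : ℕ => p n ⌊r * (n : ℝ)⌋₊) atTop (nhds 0)) := by
  set c : ℝ := (1 : ℝ) / (2 * κ + 3) with hc
  have hcp : 0 < c := by positivity
  obtain ⟨Λ, hΛ, hfb⟩ := h.first_bound (1 / 2) (by norm_num)
  obtain ⟨C1, hC1, n1, hB⟩ := h.stepB hκ
  obtain ⟨C2, hC2, n2, hC⟩ := h.stepC hκ
  have hr0 : ∀ n : ℕ, 0 ≤ (Mx p n : ℝ) / n := fun n => by positivity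
  obtain ⟨L, hL⟩ := seq_lemma (fun n => (Mx p n : ℝ) / n) c (max C1 C2) Λ (max n1 n2) hcp
    (lt_max_of_lt_left hC1) hr0
    (fun n => by
      rcases Nat.eq_zero_or_pos n with rfl | hn
      · simp [hΛ.le]
      · have hn' : (0 : ℝ) < n := by exact_mod_cast hn
        show (Mx p n : ℝ) / n ≤ Λ
        rw [div_le_iff₀ hn']
        exact hfb n _ hn (h.Mx_spec n hn).1)
    (fun N1 N2 h1 h2 h3 h4 => by
      have h5 := hB N1 N2 (le_trans (le_max_left _ _) h1) (le_trans (le_max_left _ _) h2) h3 h4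
      have h6 : (0 : ℝ) ≤ ((N1 + N2 : ℕ) : ℝ) ^ (-c) := by positivity
      have h7 : C1 * ((N1 + N2 : ℕ) : ℝ) ^ (-c) ≤ max C1 C2 * ((N1 + N2 : ℕ) : ℝ) ^ (-c) :=
        mul_le_mul_of_nonneg_right (le_max_left _ _) h6
      show min ((Mx p N1 : ℝ) / N1) ((Mx p N2 : ℝ) / N2) - _ ≤ _
      linarith)
    (fun N h1 => by
      have h5 := hC N (le_trans (le_max_right _ _) h1)
      have h6 : (0 : ℝ) ≤ (N : ℝ) ^ (-c) := by positivity
      have h7 : C2 * (N : ℝ) ^ (-c) ≤ max C1 C2 * (N : ℝ) ^ (-c) :=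
        mul_le_mul_of_nonneg_right (le_max_right _ _) h6
      show (Mx p N : ℝ) / N - _ ≤ _
      linarith)
  have hL0 : 0 ≤ L := ge_of_tendsto' hL hr0
  refine ⟨L, fun r hr => ?_, fun r hr => ?_⟩
  · by_cases hr0' : r ≤ 0
    · have e : ∀ n : ℕ, p n ⌊r * (n : ℝ)⌋₊ = 1 := by
        intro n
        have : ⌊r * (n : ℝ)⌋₊ = 0 :=
          Nat.floor_of_nonpos (mul_nonpos_of_nonpos_of_nonneg hr0' (Nat.cast_nonneg n))
        rw [this, h.h0]
      simp only [e]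
      exact tendsto_const_nhds
    · rw [not_le] at hr0'
      rw [Metric.tendsto_atTop']
      intro ε hε
      obtain ⟨n3, hA⟩ := h.stepA' hκ (ε / 2) (by positivity)
      set η := (L - r) / 2 with hη
      have hηp : 0 < η := by rw [hη]; linarith
      have ev := ((hL.eventually (lt_mem_nhds (show r + η < L by rw [hη]; linarith))).and
        (cv5_rpow c η hcp hηp)).and ((eventually_ge_atTop n3).and (eventually_gt_atTop 0))
      obtain ⟨N, hN⟩ := eventually_atTop.1 ev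
      refine ⟨N, fun n hn => ?_⟩
      obtain ⟨⟨h1, h2⟩, h3, h4⟩ := hN n hn.le
      have hn' : (0 : ℝ) < n := by exact_mod_cast h4
      have h5 : (⌊r * (n : ℝ)⌋₊ : ℝ) ≤ r * n := Nat.floor_le (by positivity)
      have h6 : (r + η) * n < Mx p n := by rwa [lt_div_iff₀ hn'] at h1
      have h7 := hA n ⌊r * (n : ℝ)⌋₊ h3 (by nlinarith)
      have h8 := h.le_one n ⌊r * (n : ℝ)⌋₊
      rw [Real.dist_eq, abs_lt]
      constructor <;> linarith
  · rw [Metric.tendsto_atTop']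
    intro ε hε
    obtain ⟨n3, hA⟩ := h.stepA hκ ε hε
    set η := (r - L) / 3 with hη
    have hηp : 0 < η := by rw [hη]; linarith
    have ev := ((hL.eventually (gt_mem_nhds (show L < L + η by linarith))).and
      (cv5_rpow c η hcp hηp)).and ((eventually_ge_atTop n3).and
      ((eventually_gt_atTop 0).and (tendsto_natCast_atTop_atTop.eventually
        (eventually_gt_atTop (1 / η)))))
    obtain ⟨N, hN⟩ := eventually_atTop.1 ev
    refine ⟨N, fun n hn => ?_⟩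
    obtain ⟨⟨h1, h2⟩, h3, h4, h5⟩ := hN n hn.le
    have hn' : (0 : ℝ) < n := by exact_mod_cast h4
    have h6 : (Mx p n : ℝ) < (L + η) * n := by rwa [div_lt_iff₀ hn'] at h1
    have h7 : r * n < ⌊r * (n : ℝ)⌋₊ + 1 := Nat.lt_floor_add_one _
    have h8 : 1 < η * n := by
      rw [div_lt_iff₀ hηp] at h5
      linarith
    have h9 := h.hnn n ⌊r * (n : ℝ)⌋₊
    rw [Real.dist_eq, sub_zero, abs_of_nonneg h9]
    by_contra hcon
    rw [not_lt] at hcon
    have h10 := hA n _ h3 hcon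
    have h11 : (r - L - 2 * η) * n = η * n := by rw [hη]; ring
    nlinarith

end Pool.Agent.H999R2.KSat
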