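import Pool.Agent.H999R2.KSat.UN
import Pool.Agent.H999R2.KSat.AB
import Pool.Agent.H999R2.KSat.AC
import Pool.Agent.H999R2.KSat.BA

/-! One-sided and two-sided estimates for the effect of fixing one variable. -/

set_option autoImplicit false

namespace Pool.Agent.H999R2.KSat
open Finset Filter

/-- the basic constant -/
theorem os_const_nonneg (κ s T n : ℕ) : (0 : ℝ) ≤ ((κ : ℝ) + 1) / (2 * n) * KK κ s T := by
  unfold KK; positivity




theorem os_E_al {n M : ℕ} (κ s T : ℕ) (hn : 0 < n) (hT : 1 ≤ T) (hTn : T ≤ n)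
    (i : Fin n) (b : Bool) (X : Fin M → Prop) (j : Fin M) :
    E (fun G : Fin M → Cl n (κ + 1) => al s i b X j G) ≤ ((κ : ℝ) + 1) / (2 * n) * KK κ s T := by
  rw [E_update j]
  exact E_le_of_nonneg (os_const_nonneg κ s T n)
    (fun G => al_update_le κ s T hn hT hTn i b X j G)

theorem one_sided {n : ℕ} (κ s T M : ℕ) (hn : 0 < n) (hT : 1 ≤ T) (hTn : T ≤ n)
    (i : Fin n) (b : Bool) :
    E (fun G : Fin M → Cl n (κ + 1) =>
      RA (κ + 1) s (Sol G) - RA (κ + 1) s (Sol G ∩ {a | a i = b})) ≤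
      ((M : ℝ) + s) * (((κ : ℝ) + 1) / (2 * n) * KK κ s T) := by
  set c := ((κ : ℝ) + 1) / (2 * n) * KK κ s T with hc
  have hc0 : 0 ≤ c := os_const_nonneg κ s T n
  calc E (fun G : Fin M → Cl n (κ + 1) =>
      RA (κ + 1) s (Sol G) - RA (κ + 1) s (Sol G ∩ {a | a i = b}))
      ≤ E (fun G : Fin M → Cl n (κ + 1) =>
          ∑ j, al s i b (fun _ => False) j G + be (κ + 1) s i b (Sol G)) :=
        E_mono fun G => union_bound s i b G
    _ = ∑ j, E (fun G : Fin M → Cl n (κ + 1) => al s i b (fun _ => False) j G) +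
          E (fun G : Fin M → Cl n (κ + 1) => be (κ + 1) s i b (Sol G)) := by
        rw [E_add, E_sum]
    _ ≤ ∑ _j : Fin M, c + s * c := by
        refine add_le_add (Finset.sum_le_sum fun j _ => os_E_al κ s T hn hT hTn i b _ j) ?_
        exact E_le_of_nonneg (by positivity) (fun G => be_le κ s T hn hT hTn i b (Sol G))
    _ = ((M : ℝ) + s) * c := by
        simp; ring

theorem os_cross {n M : ℕ} (κ s T : ℕ) (hn : 0 < n) (hT : 1 ≤ T) (hTn : T ≤ n)
    (i : Fin n) (b : Bool) (j j' : Fin M) :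
    E (fun G : Fin M → Cl n (κ + 1) =>
      al s i b (fun _ => False) j G * al s i (!b) (fun _ => False) j' G) ≤
      (((κ : ℝ) + 1) / (2 * n) * KK κ s T) ^ 2 := by
  set c := ((κ : ℝ) + 1) / (2 * n) * KK κ s T with hc
  have hc0 : 0 ≤ c := os_const_nonneg κ s T n
  by_cases hj : j = j'
  · subst hj
    calc E (fun G : Fin M → Cl n (κ + 1) =>
        al s i b (fun _ => False) j G * al s i (!b) (fun _ => False) j G)
        = E (fun _ : Fin M → Cl n (κ + 1) => (0 : ℝ)) :=
          E_congr fun G => al_opp s i b _ _ j G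
      _ = 0 := E_zero
      _ ≤ c ^ 2 := by positivity
  · calc E (fun G : Fin M → Cl n (κ + 1) =>
        al s i b (fun _ => False) j G * al s i (!b) (fun _ => False) j' G)
        ≤ E (fun G : Fin M → Cl n (κ + 1) =>
            al s i b (fun x => x = j') j G * al s i (!b) (fun x => x = j) j' G) :=
          E_mono fun G => al_cross s i b j j' hj G
      _ = E (fun G : Fin M → Cl n (κ + 1) => E (fun y : Cl n (κ + 1) =>
            al s i b (fun x => x = j') j (Function.update G j y) *
            al s i (!b) (fun x => x = j) j' (Function.update G j y))) := by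
          rw [E_update j]
      _ = E (fun G : Fin M → Cl n (κ + 1) =>
            E (fun y : Cl n (κ + 1) => al s i b (fun x => x = j') j (Function.update G j y)) *
            al s i (!b) (fun x => x = j) j' G) := by
          refine E_congr fun G => ?_
          rw [← E_mul_right]
          refine E_congr fun y => ?_
          rw [al_excl s i (!b) (fun x => x = j) j' j hj rfl G y]
      _ ≤ E (fun G : Fin M → Cl n (κ + 1) => c * al s i (!b) (fun x => x = j) j' G) :=
          E_mono fun G => mul_le_mul_of_nonneg_right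
            (al_update_le κ s T hn hT hTn i b _ j G) (al_nonneg s i (!b) _ j' G)
      _ = c * E (fun G : Fin M → Cl n (κ + 1) => al s i (!b) (fun x => x = j) j' G) := by
          rw [E_mul_left]
      _ ≤ c * c := mul_le_mul_of_nonneg_left (os_E_al κ s T hn hT hTn i (!b) _ j') hc0
      _ = c ^ 2 := by ring

theorem two_sided {n : ℕ} (κ s T M : ℕ) (hn : 0 < n) (hT : 1 ≤ T) (hTn : T ≤ n)
    (i : Fin n) (b : Bool) :
    E (fun G : Fin M → Cl n (κ + 1) =>
      (RA (κ + 1) s (Sol G) - RA (κ + 1) s (Sol G ∩ {a | a i = b})) *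
      (RA (κ + 1) s (Sol G) - RA (κ + 1) s (Sol G ∩ {a | a i = !b}))) ≤
      (((M : ℝ) + s) * (((κ : ℝ) + 1) / (2 * n) * KK κ s T)) ^ 2 := by
  set c := ((κ : ℝ) + 1) / (2 * n) * KK κ s T with hc
  have hc0 : 0 ≤ c := os_const_nonneg κ s T n
  set x : Fin M → (Fin M → Cl n (κ + 1)) → ℝ := fun j G => al s i b (fun _ => False) j G with hx
  set y : Fin M → (Fin M → Cl n (κ + 1)) → ℝ := fun j G => al s i (!b) (fun _ => False) j G
    with hy
  have hx0 : ∀ j G, 0 ≤ x j G := fun j G => al_nonneg s i b _ j G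
  have hy0 : ∀ j G, 0 ≤ y j G := fun j G => al_nonneg s i (!b) _ j G
  have key : ∀ G : Fin M → Cl n (κ + 1),
      (RA (κ + 1) s (Sol G) - RA (κ + 1) s (Sol G ∩ {a | a i = b})) *
      (RA (κ + 1) s (Sol G) - RA (κ + 1) s (Sol G ∩ {a | a i = !b})) ≤
      ∑ j, ∑ j', x j G * y j' G + ∑ j, (s * c) * x j G + ∑ j, (s * c) * y j G + (s * c) ^ 2 := by
    intro G
    have h1 := union_bound s i b G
    have h2 := union_bound s i (!b) G
    have h3 := be_le κ s T hn hT hTn i b (Sol G)
    have h4 := be_le κ s T hn hT hTn i (!b) (Sol G)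
    have h5 : 0 ≤ RA (κ + 1) s (Sol G) - RA (κ + 1) s (Sol G ∩ {a | a i = !b}) := by
      have := RA_mono (κ + 1) s (Set.inter_subset_left : Sol G ∩ {a | a i = !b} ⊆ Sol G)
      linarith
    have hX : RA (κ + 1) s (Sol G) - RA (κ + 1) s (Sol G ∩ {a | a i = b}) ≤
        ∑ j, x j G + s * c := by
      have : ∑ j, x j G = ∑ j, al s i b (fun _ => False) j G := rfl
      linarith
    have hY : RA (κ + 1) s (Sol G) - RA (κ + 1) s (Sol G ∩ {a | a i = !b}) ≤
        ∑ j, y j G + s * c := by
      have : ∑ j, y j G = ∑ j, al s i (!b) (fun _ => False) j G := rfl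
      linarith
    have hXs : 0 ≤ ∑ j, x j G := Finset.sum_nonneg fun j _ => hx0 j G
    have hsc : 0 ≤ (s : ℝ) * c := by positivity
    calc _ ≤ (∑ j, x j G + s * c) * (∑ j, y j G + s * c) :=
          mul_le_mul hX hY h5 (by positivity)
      _ = _ := by
          rw [add_mul, mul_add, mul_add, Finset.sum_mul_sum, ← Finset.mul_sum, ← Finset.mul_sum]
          ring
  calc _ ≤ E (fun G : Fin M → Cl n (κ + 1) => ∑ j, ∑ j', x j G * y j' G +
        ∑ j, (s * c) * x j G + ∑ j, (s * c) * y j G + (s * c) ^ 2) := E_mono key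
    _ ≤ ∑ _j : Fin M, ∑ _j' : Fin M, c ^ 2 + ∑ _j : Fin M, (s * c) * c +
        ∑ _j : Fin M, (s * c) * c + (s * c) ^ 2 := by
      rw [E_add, E_add, E_add, E_sum, E_sum, E_sum]
      refine add_le_add (add_le_add (add_le_add ?_ ?_) ?_) ?_
      · refine Finset.sum_le_sum fun j _ => ?_
        rw [E_sum]
        exact Finset.sum_le_sum fun j' _ => os_cross κ s T hn hT hTn i b j j'
      · refine Finset.sum_le_sum fun j _ => ?_
        rw [E_mul_left]
        exact mul_le_mul_of_nonneg_left (os_E_al κ s T hn hT hTn i b _ j) (by positivity)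
      · refine Finset.sum_le_sum fun j _ => ?_
        rw [E_mul_left]
        exact mul_le_mul_of_nonneg_left (os_E_al κ s T hn hT hTn i (!b) _ j) (by positivity)
      · exact E_le_of_nonneg (by positivity) (fun _ => le_refl _)
    _ = (((M : ℝ) + s) * c) ^ 2 := by
      simp; ring
end Pool.Agent.H999R2.KSat
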