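import Pool.Agent.H999R2.KSat.Defs2

set_option autoImplicit false

/-! Effect of one random shorter clause on `RA`. -/

namespace Pool.Agent.H999R2.KSat
open Finset Filter

/-- elements of `B` satisfying the first `u` clauses -/
def te_Q {n k s : ℕ} (B : Set (Asg n)) (W : Fin s → Cl n k) (u : ℕ) : Set (Asg n) :=
  {a | a ∈ B ∧ ∀ l : Fin s, l.val < u → sc a (W l)}

/-- probability that a random clause is false everywhere on `Q` -/
theorem te_prod {n : ℕ} (k : ℕ) (Q : Set (Asg n)) :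
    E (fun c : Cl n k => ind (∀ a ∈ Q, ¬ sc a c)) = xf Q ^ k := by
  have h : ∀ c : Cl n k, ind (∀ a ∈ Q, ¬ sc a c) =
      ∏ p, ind (∀ a ∈ Q, a (c p).1 ≠ (c p).2) := by
    intro c
    rw [← ind_forall]
    apply ind_congr
    unfold sc
    constructor
    · intro h p a ha he
      exact h a ha ⟨p, he⟩
    · rintro h a ha ⟨p, hp⟩
      exact h p a ha hp
  rw [E_congr h]
  have h2 := E_pi (X := Lit n) (m := k) (fun _ l => ind (∀ a ∈ Q, a l.1 ≠ l.2))
  rw [h2, Finset.prod_const, Finset.card_univ, Fintype.card_fin]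
  rfl

theorem te_xf_nonneg {n : ℕ} (Q : Set (Asg n)) : 0 ≤ xf Q := E_nonneg fun _ => ind_nonneg _

theorem te_xf_le_one {n : ℕ} (Q : Set (Asg n)) : xf Q ≤ 1 :=
  E_le_of_nonneg (by norm_num) fun _ => ind_le_one _

/-- the elementary inequality -/
theorem te_pow (κ : ℕ) (T : ℝ) (hT : 1 ≤ T) (x : ℝ) (hx : 0 ≤ x) :
    x ^ κ ≤ T * x ^ (κ + 1) + 1 / T ^ κ := by
  have hT0 : 0 < T := by linarith
  rcases le_or_gt (1 / T) x with h | h
  · have h1 : 1 ≤ T * x := by
      rw [div_le_iff₀ hT0] at h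
      linarith
    have h2 : x ^ κ ≤ T * x ^ (κ + 1) := by
      rw [pow_succ]
      have := pow_nonneg hx κ
      nlinarith
    have h3 : 0 ≤ 1 / T ^ κ := by positivity
    linarith
  · have h1 : x ^ κ ≤ (1 / T) ^ κ := pow_le_pow_left₀ hx h.le κ
    rw [div_pow, one_pow] at h1
    have h2 : 0 ≤ T * x ^ (κ + 1) := by positivity
    linarith

/-- one random clause applied to a nonempty set -/
theorem te_ind {n k : ℕ} (Q : Set (Asg n)) (c : Cl n k) :
    ind Q.Nonempty - ind (Q ∩ {a | sc a c}).Nonempty =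
      ind Q.Nonempty * ind (∀ a ∈ Q, ¬ sc a c) := by
  rw [← ind_and]
  by_cases h1 : Q.Nonempty
  · rw [ind_true h1]
    by_cases h2 : (Q ∩ {a | sc a c}).Nonempty
    · rw [ind_true h2, ind_false]
      · ring
      · rintro ⟨_, h3⟩
        obtain ⟨a, ha1, ha2⟩ := h2
        exact h3 a ha1 ha2
    · rw [ind_false h2, ind_true]
      · ring
      · refine ⟨h1, fun a ha hs => h2 ⟨a, ha, hs⟩⟩
  · rw [ind_false h1, ind_false, ind_false]
    · ring
    · exact fun h => h1 h.1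
    · rintro ⟨a, ha, _⟩
      exact h1 ⟨a, ha⟩

theorem te_Q_succ {n k s : ℕ} (B : Set (Asg n)) (W : Fin s → Cl n k) (u : Fin s) :
    te_Q B W (u.val + 1) = te_Q B W u.val ∩ {a | sc a (W u)} := by
  ext a
  constructor
  · rintro ⟨h1, h2⟩
    exact ⟨⟨h1, fun l hl => h2 l (by omega)⟩, h2 u (by omega)⟩
  · rintro ⟨⟨h1, h2⟩, h3⟩
    refine ⟨h1, fun l hl => ?_⟩
    rcases Nat.lt_succ_iff_lt_or_eq.mp hl with h | h
    · exact h2 l h
    · have : l = u := Fin.ext h
      rw [this]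
      exact h3

theorem te_Q_update {n k s : ℕ} (B : Set (Asg n)) (W : Fin s → Cl n k) (u : Fin s) (y : Cl n k) :
    te_Q B (Function.update W u y) u.val = te_Q B W u.val := by
  ext a
  constructor
  · rintro ⟨h1, h2⟩
    refine ⟨h1, fun l hl => ?_⟩
    have := h2 l hl
    rwa [Function.update_of_ne (by intro h; rw [h] at hl; exact lt_irrefl _ hl)] at this
  · rintro ⟨h1, h2⟩
    refine ⟨h1, fun l hl => ?_⟩
    rw [Function.update_of_ne (by intro h; rw [h] at hl; exact lt_irrefl _ hl)]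
    exact h2 l hl

/-- one step of the telescope -/
theorem te_step {n s : ℕ} (κ : ℕ) (B : Set (Asg n)) (u : Fin s) :
    E (fun W : Fin s → Cl n (κ + 1) => ind (te_Q B W u.val).Nonempty *
      xf (te_Q B W u.val) ^ (κ + 1)) =
      E (fun W : Fin s → Cl n (κ + 1) => ind (te_Q B W u.val).Nonempty) -
      E (fun W : Fin s → Cl n (κ + 1) => ind (te_Q B W (u.val + 1)).Nonempty) := by
  have h1 : ∀ W : Fin s → Cl n (κ + 1), ind (te_Q B W u.val).Nonempty -
      ind (te_Q B W (u.val + 1)).Nonempty =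
      ind (te_Q B W u.val).Nonempty * ind (∀ a ∈ te_Q B W u.val, ¬ sc a (W u)) := by
    intro W
    rw [te_Q_succ]
    exact te_ind _ _
  rw [← E_sub, E_congr h1,
    E_update u (fun W : Fin s → Cl n (κ + 1) => ind (te_Q B W u.val).Nonempty *
      ind (∀ a ∈ te_Q B W u.val, ¬ sc a (W u)))]
  apply E_congr
  intro W
  have h2 : ∀ y : Cl n (κ + 1), ind (te_Q B (Function.update W u y) u.val).Nonempty *
      ind (∀ a ∈ te_Q B (Function.update W u y) u.val, ¬ sc a (Function.update W u y u)) =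
      ind (te_Q B W u.val).Nonempty * ind (∀ a ∈ te_Q B W u.val, ¬ sc a y) := by
    intro y
    rw [te_Q_update, Function.update_self]
  rw [E_congr h2, E_mul_left, te_prod]

theorem te_telescope {n : ℕ} (κ s : ℕ) (B : Set (Asg n)) :
    ∑ u ∈ range s, E (fun W : Fin s → Cl n (κ + 1) => ind (te_Q B W u).Nonempty *
      xf (te_Q B W u) ^ (κ + 1)) ≤ 1 := by
  have h1 : ∀ u ∈ range s, E (fun W : Fin s → Cl n (κ + 1) => ind (te_Q B W u).Nonempty *
      xf (te_Q B W u) ^ (κ + 1)) =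
      E (fun W : Fin s → Cl n (κ + 1) => ind (te_Q B W u).Nonempty) -
      E (fun W : Fin s → Cl n (κ + 1) => ind (te_Q B W (u + 1)).Nonempty) := by
    intro u hu
    exact te_step κ B ⟨u, Finset.mem_range.mp hu⟩
  rw [Finset.sum_congr rfl h1,
    Finset.sum_range_sub' (fun u => E (fun W : Fin s → Cl n (κ + 1) =>
      ind (te_Q B W u).Nonempty)) s]
  have h2 : E (fun W : Fin s → Cl n (κ + 1) => ind (te_Q B W 0).Nonempty) ≤ 1 :=
    E_le_of_nonneg (by norm_num) fun _ => ind_le_one _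
  have h3 : 0 ≤ E (fun W : Fin s → Cl n (κ + 1) => ind (te_Q B W s).Nonempty) :=
    E_nonneg fun _ => ind_nonneg _
  linarith

theorem te_RA {n : ℕ} (k s : ℕ) (B : Set (Asg n)) :
    RA k s B = E (fun W : Fin s → Cl n k => ∑ u ∈ range s, ind (te_Q B W u).Nonempty) := by
  unfold RA
  apply E_congr
  intro W
  apply Finset.sum_congr rfl
  intro u _
  apply ind_congr
  constructor
  · rintro ⟨a, h1, h2⟩
    exact ⟨a, h1, h2⟩
  · rintro ⟨a, h1, h2⟩
    exact ⟨a, h1, h2⟩

theorem te_Q_inter {n k s κ : ℕ} (B : Set (Asg n)) (c' : Cl n κ) (W : Fin s → Cl n k) (u : ℕ) :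
    te_Q (B ∩ {a | sc a c'}) W u = te_Q B W u ∩ {a | sc a c'} := by
  ext a
  constructor
  · rintro ⟨⟨h1, h2⟩, h3⟩
    exact ⟨⟨h1, h3⟩, h2⟩
  · rintro ⟨⟨h1, h3⟩, h2⟩
    exact ⟨⟨h1, h2⟩, h3⟩

theorem tail_effect {n : ℕ} (κ s T : ℕ) (hn : 0 < n) (hT : 1 ≤ T) (B : Set (Asg n)) :
    E (fun c' : Cl n κ => RA (κ + 1) s B - RA (κ + 1) s (B ∩ {a | sc a c'})) ≤
      T + s / (T : ℝ) ^ κ := by
  have hTR : (1 : ℝ) ≤ T := by exact_mod_cast hT
  have hT0 : (0 : ℝ) < T := by linarith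
  have e1 : E (fun c' : Cl n κ => RA (κ + 1) s B - RA (κ + 1) s (B ∩ {a | sc a c'})) =
      ∑ u ∈ range s, E (fun W : Fin s → Cl n (κ + 1) => ind (te_Q B W u).Nonempty *
        xf (te_Q B W u) ^ κ) := by
    have h1 : ∀ c' : Cl n κ, RA (κ + 1) s B - RA (κ + 1) s (B ∩ {a | sc a c'}) =
        E (fun W : Fin s → Cl n (κ + 1) => ∑ u ∈ range s,
          ind (te_Q B W u).Nonempty * ind (∀ a ∈ te_Q B W u, ¬ sc a c')) := by
      intro c'
      rw [te_RA, te_RA, ← E_sub]
      apply E_congr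
      intro W
      rw [← Finset.sum_sub_distrib]
      apply Finset.sum_congr rfl
      intro u _
      rw [te_Q_inter]
      exact te_ind _ _
    rw [E_congr h1, E_comm]
    rw [← E_sum]
    apply E_congr
    intro W
    rw [E_sum]
    apply Finset.sum_congr rfl
    intro u _
    rw [E_mul_left, te_prod]
  rw [e1]
  have h2 : ∀ u ∈ range s, E (fun W : Fin s → Cl n (κ + 1) => ind (te_Q B W u).Nonempty *
      xf (te_Q B W u) ^ κ) ≤ T * E (fun W : Fin s → Cl n (κ + 1) =>
        ind (te_Q B W u).Nonempty * xf (te_Q B W u) ^ (κ + 1)) + 1 / (T : ℝ) ^ κ := by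
    intro u _
    calc E (fun W : Fin s → Cl n (κ + 1) => ind (te_Q B W u).Nonempty * xf (te_Q B W u) ^ κ)
        ≤ E (fun W : Fin s → Cl n (κ + 1) => T * (ind (te_Q B W u).Nonempty *
          xf (te_Q B W u) ^ (κ + 1)) + ind (te_Q B W u).Nonempty * (1 / (T : ℝ) ^ κ)) := by
          apply E_mono
          intro W
          have := te_pow κ T hTR (xf (te_Q B W u)) (te_xf_nonneg _)
          have h3 := ind_nonneg (te_Q B W u).Nonempty
          nlinarith
      _ ≤ _ := by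
          rw [E_add, E_mul_left, E_mul_right]
          have h4 : E (fun W : Fin s → Cl n (κ + 1) => ind (te_Q B W u).Nonempty) ≤ 1 :=
            E_le_of_nonneg (by norm_num) fun _ => ind_le_one _
          have h5 : 0 ≤ 1 / (T : ℝ) ^ κ := by positivity
          nlinarith
  refine (Finset.sum_le_sum h2).trans ?_
  rw [Finset.sum_add_distrib, ← Finset.mul_sum, Finset.sum_const, Finset.card_range,
    nsmul_eq_mul]
  have h6 := te_telescope κ s B
  have h7 : (s : ℝ) * (1 / (T : ℝ) ^ κ) = s / (T : ℝ) ^ κ := by ring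
  rw [h7]
  nlinarith

end Pool.Agent.H999R2.KSat
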