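import Pool.Agent.H999R2.KSat.DECore
import Pool.Agent.H999R2.KSat.TE
import Pool.Agent.H999R2.KSat.OS
import Pool.Agent.H999R2.KSat.BA

/-! Second moment of the effect of one clause. -/

set_option autoImplicit false

namespace Pool.Agent.H999R2.KSat

theorem delta_sq {n : ℕ} (κ s T M : ℕ) (hn : 0 < n) (hT : 1 ≤ T) (hTn : T ≤ n) :
    E (fun G : Fin M → Cl n (κ + 1) => E (fun C : Cl n (κ + 1) =>
      (RA (κ + 1) s (Sol G) - RA (κ + 1) s (Sol G ∩ {a | sc a C})) ^ 2)) ≤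
      (((M : ℝ) + s) * (((κ : ℝ) + 1) / (2 * n) * KK κ s T)) ^ 2 +
      (((M : ℝ) + s) * (((κ : ℝ) + 1) / (2 * n) * KK κ s T)) * (T + s / (T : ℝ) ^ κ) := by
  refine de_core κ s T M hn (fun h => RA_mono (κ + 1) s h)
    (fun B => tail_effect κ s T hn hT B) _ ?_
    (fun i b => one_sided κ s T M hn hT hTn i b) (fun i b => two_sided κ s T M hn hT hTn i b)
  unfold KK
  positivity

end Pool.Agent.H999R2.KSat
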