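import Pool.Agent.H999R2.KSat.Defs2

/-! Second moment of the effect of one clause: core computation with the inputs as hypotheses. -/

set_option autoImplicit false

namespace Pool.Agent.H999R2.KSat
open Finset

/-- pointwise bound: the effect of a clause `(i,b) :: tail` -/
theorem de_point {n : ℕ} (κ s : ℕ) (hmono : ∀ {A B : Set (Asg n)}, A ⊆ B →
      RA (κ + 1) s A ≤ RA (κ + 1) s B) (A : Set (Asg n)) (i : Fin n) (b : Bool)
    (c' : Cl n κ) :
    (RA (κ + 1) s A - RA (κ + 1) s (A ∩ {a | sc a (Fin.cons (i, b) c' : Cl n (κ + 1))})) ^ 2 ≤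
      (RA (κ + 1) s A - RA (κ + 1) s (A ∩ {a | a i = b})) *
        (RA (κ + 1) s A - RA (κ + 1) s (A ∩ {a | a i = !b})) +
      (RA (κ + 1) s A - RA (κ + 1) s (A ∩ {a | a i = b})) *
        (RA (κ + 1) s (A ∩ {a | a i = !b}) -
          RA (κ + 1) s ((A ∩ {a | a i = !b}) ∩ {a | sc a c'})) := by
  set RAA := RA (κ + 1) s A
  set RC := RA (κ + 1) s (A ∩ {a | sc a (Fin.cons (i, b) c' : Cl n (κ + 1))}) with hRC
  set Rb := RA (κ + 1) s (A ∩ {a | a i = b}) with hRb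
  set Rnb := RA (κ + 1) s (A ∩ {a | a i = !b}) with hRnb
  set Rt := RA (κ + 1) s ((A ∩ {a | a i = !b}) ∩ {a | sc a c'}) with hRt
  have h1 : RC ≤ RAA := hmono Set.inter_subset_left
  have h2 : Rb ≤ RC := by
    refine hmono ?_
    rintro a ⟨ha, hb⟩
    refine ⟨ha, ⟨0, ?_⟩⟩
    simpa using hb
  have h3 : Rt ≤ RC := by
    refine hmono ?_
    rintro a ⟨⟨ha, hb⟩, ⟨p, hp⟩⟩
    refine ⟨ha, ⟨p.succ, ?_⟩⟩
    simpa using hp
  have h4 : Rnb ≤ RAA := hmono Set.inter_subset_left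
  have h5 : Rt ≤ Rnb := hmono Set.inter_subset_left
  -- Δ = RAA - RC ; Δ ≤ D_b = RAA - Rb ; Δ ≤ RAA - Rt = D_{!b} + Γ
  have hD : 0 ≤ RAA - RC := by linarith
  have hDb : RAA - RC ≤ RAA - Rb := by linarith
  have hDn : RAA - RC ≤ (RAA - Rnb) + (Rnb - Rt) := by linarith
  calc (RAA - RC) ^ 2 = (RAA - RC) * (RAA - RC) := by ring
    _ ≤ (RAA - Rb) * ((RAA - Rnb) + (Rnb - Rt)) :=
        mul_le_mul hDb hDn hD (by linarith)
    _ = _ := by ring

theorem de_core {n : ℕ} (κ s T M : ℕ) (hn : 0 < n)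
    (hmono : ∀ {A B : Set (Asg n)}, A ⊆ B → RA (κ + 1) s A ≤ RA (κ + 1) s B)
    (htail : ∀ B : Set (Asg n),
      E (fun c' : Cl n κ => RA (κ + 1) s B - RA (κ + 1) s (B ∩ {a | sc a c'})) ≤
        T + s / (T : ℝ) ^ κ)
    (K : ℝ) (hK : 0 ≤ K)
    (hone : ∀ (i : Fin n) (b : Bool), E (fun G : Fin M → Cl n (κ + 1) =>
      RA (κ + 1) s (Sol G) - RA (κ + 1) s (Sol G ∩ {a | a i = b})) ≤ K)
    (htwo : ∀ (i : Fin n) (b : Bool), E (fun G : Fin M → Cl n (κ + 1) =>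
      (RA (κ + 1) s (Sol G) - RA (κ + 1) s (Sol G ∩ {a | a i = b})) *
      (RA (κ + 1) s (Sol G) - RA (κ + 1) s (Sol G ∩ {a | a i = !b}))) ≤ K ^ 2) :
    E (fun G : Fin M → Cl n (κ + 1) => E (fun C : Cl n (κ + 1) =>
      (RA (κ + 1) s (Sol G) - RA (κ + 1) s (Sol G ∩ {a | sc a C})) ^ 2)) ≤
      K ^ 2 + K * (T + s / (T : ℝ) ^ κ) := by
  have hTs : (0 : ℝ) ≤ T + s / (T : ℝ) ^ κ := by positivity
  have : Nonempty (Fin n) := ⟨⟨0, hn⟩⟩
  rw [E_comm, E_cons]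
  refine E_le_of_nonneg (by positivity) ?_
  rintro ⟨i, b⟩
  -- inner: average over tail of average over G
  rw [E_comm]
  have hb1 : ∀ G : Fin M → Cl n (κ + 1),
      E (fun c' : Cl n κ => (RA (κ + 1) s (Sol G) -
        RA (κ + 1) s (Sol G ∩ {a | sc a (Fin.cons (i, b) c' : Cl n (κ + 1))})) ^ 2) ≤
      (RA (κ + 1) s (Sol G) - RA (κ + 1) s (Sol G ∩ {a | a i = b})) *
        (RA (κ + 1) s (Sol G) - RA (κ + 1) s (Sol G ∩ {a | a i = !b})) +
      (RA (κ + 1) s (Sol G) - RA (κ + 1) s (Sol G ∩ {a | a i = b})) *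
        (T + s / (T : ℝ) ^ κ) := by
    intro G
    have hDb : 0 ≤ RA (κ + 1) s (Sol G) - RA (κ + 1) s (Sol G ∩ {a | a i = b}) :=
      sub_nonneg.mpr (hmono Set.inter_subset_left)
    calc E (fun c' : Cl n κ => (RA (κ + 1) s (Sol G) -
          RA (κ + 1) s (Sol G ∩ {a | sc a (Fin.cons (i, b) c' : Cl n (κ + 1))})) ^ 2)
        ≤ E (fun c' : Cl n κ =>
          (RA (κ + 1) s (Sol G) - RA (κ + 1) s (Sol G ∩ {a | a i = b})) *
            (RA (κ + 1) s (Sol G) - RA (κ + 1) s (Sol G ∩ {a | a i = !b})) +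
          (RA (κ + 1) s (Sol G) - RA (κ + 1) s (Sol G ∩ {a | a i = b})) *
            (RA (κ + 1) s (Sol G ∩ {a | a i = !b}) -
              RA (κ + 1) s ((Sol G ∩ {a | a i = !b}) ∩ {a | sc a c'}))) :=
          E_mono fun c' => de_point κ s hmono (Sol G) i b c'
      _ = (RA (κ + 1) s (Sol G) - RA (κ + 1) s (Sol G ∩ {a | a i = b})) *
            (RA (κ + 1) s (Sol G) - RA (κ + 1) s (Sol G ∩ {a | a i = !b})) +
          (RA (κ + 1) s (Sol G) - RA (κ + 1) s (Sol G ∩ {a | a i = b})) *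
            E (fun c' : Cl n κ => RA (κ + 1) s (Sol G ∩ {a | a i = !b}) -
              RA (κ + 1) s ((Sol G ∩ {a | a i = !b}) ∩ {a | sc a c'})) := by
          rw [E_add, E_const, E_mul_left]
      _ ≤ _ := by
          have := mul_le_mul_of_nonneg_left (htail (Sol G ∩ {a | a i = !b})) hDb
          linarith
  calc E (fun G : Fin M → Cl n (κ + 1) => E (fun c' : Cl n κ => (RA (κ + 1) s (Sol G) -
        RA (κ + 1) s (Sol G ∩ {a | sc a (Fin.cons (i, b) c' : Cl n (κ + 1))})) ^ 2))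
      ≤ E (fun G : Fin M → Cl n (κ + 1) =>
        (RA (κ + 1) s (Sol G) - RA (κ + 1) s (Sol G ∩ {a | a i = b})) *
          (RA (κ + 1) s (Sol G) - RA (κ + 1) s (Sol G ∩ {a | a i = !b})) +
        (RA (κ + 1) s (Sol G) - RA (κ + 1) s (Sol G ∩ {a | a i = b})) *
          (T + s / (T : ℝ) ^ κ)) := E_mono hb1
    _ = E (fun G : Fin M → Cl n (κ + 1) =>
        (RA (κ + 1) s (Sol G) - RA (κ + 1) s (Sol G ∩ {a | a i = b})) *
          (RA (κ + 1) s (Sol G) - RA (κ + 1) s (Sol G ∩ {a | a i = !b}))) +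
        E (fun G : Fin M → Cl n (κ + 1) =>
          RA (κ + 1) s (Sol G) - RA (κ + 1) s (Sol G ∩ {a | a i = b})) *
          (T + s / (T : ℝ) ^ κ) := by
        rw [E_add, E_mul_right]
    _ ≤ K ^ 2 + K * (T + s / (T : ℝ) ^ κ) := by
        have h1 := htwo i b
        have h2 := mul_le_mul_of_nonneg_right (hone i b) hTs
        linarith

end Pool.Agent.H999R2.KSat
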