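import Mathlib

/-!
# Random k-SAT: definitions and a small calculus of uniform averages

`E f` is the average of `f` over a finite type, `ind P` the indicator of `P`.
Clauses are ordered tuples of independent uniform literals.
-/

set_option autoImplicit false

namespace Pool.Agent.H999R2.KSat

open Finset

/-- average over a finite type -/
noncomputable def E {α : Type} [Fintype α] (f : α → ℝ) : ℝ :=
  (∑ x, f x) / (Fintype.card α : ℝ)

open Classical in
/-- indicator of a proposition -/
noncomputable def ind (P : Prop) : ℝ := if P then 1 else 0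

section indlemmas

theorem ind_true {P : Prop} (h : P) : ind P = 1 := by simp [ind, h]
theorem ind_false {P : Prop} (h : ¬ P) : ind P = 0 := by simp [ind, h]
theorem ind_nonneg (P : Prop) : 0 ≤ ind P := by
  unfold ind; split_ifs <;> norm_num
theorem ind_le_one (P : Prop) : ind P ≤ 1 := by
  unfold ind; split_ifs <;> norm_num
theorem ind_mono {P Q : Prop} (h : P → Q) : ind P ≤ ind Q := by
  by_cases hP : P
  · rw [ind_true hP, ind_true (h hP)]
  · rw [ind_false hP]; exact ind_nonneg Q
theorem ind_congr {P Q : Prop} (h : P ↔ Q) : ind P = ind Q := by rw [propext h]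
theorem ind_and (P Q : Prop) : ind (P ∧ Q) = ind P * ind Q := by
  by_cases hP : P <;> by_cases hQ : Q <;> simp [ind, hP, hQ]
theorem ind_not (P : Prop) : ind (¬ P) = 1 - ind P := by
  by_cases hP : P <;> simp [ind, hP]
theorem ind_or_le (P Q : Prop) : ind (P ∨ Q) ≤ ind P + ind Q := by
  by_cases hP : P <;> by_cases hQ : Q <;> simp [ind, hP, hQ]
theorem ind_exists_le {ι : Type} [Fintype ι] (P : ι → Prop) :
    ind (∃ i, P i) ≤ ∑ i, ind (P i) := by
  by_cases h : ∃ i, P i
  · obtain ⟨i, hi⟩ := h
    rw [ind_true ⟨i, hi⟩]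
    calc (1 : ℝ) = ind (P i) := (ind_true hi).symm
      _ ≤ ∑ i, ind (P i) := Finset.single_le_sum (f := fun i => ind (P i))
          (fun j _ => ind_nonneg _) (Finset.mem_univ i)
  · rw [ind_false h]; exact Finset.sum_nonneg (fun j _ => ind_nonneg _)
theorem ind_forall {ι : Type} [Fintype ι] (P : ι → Prop) :
    ind (∀ i, P i) = ∏ i, ind (P i) := by
  by_cases h : ∀ i, P i
  · rw [ind_true h]; simp [ind, h]
  · rw [ind_false h]
    obtain ⟨i, hi⟩ := not_forall.mp h
    exact (Finset.prod_eq_zero (Finset.mem_univ i) (ind_false hi)).symm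
theorem ind_sq (P : Prop) : ind P * ind P = ind P := by
  by_cases hP : P <;> simp [ind, hP]

end indlemmas

section Elemmas

variable {α β : Type} [Fintype α] [Fintype β]

theorem E_congr {f g : α → ℝ} (h : ∀ x, f x = g x) : E f = E g := by
  unfold E; rw [Finset.sum_congr rfl (fun x _ => h x)]

theorem E_mono {f g : α → ℝ} (h : ∀ x, f x ≤ g x) : E f ≤ E g := by
  unfold E
  exact div_le_div_of_nonneg_right (Finset.sum_le_sum fun x _ => h x) (by positivity)

theorem E_nonneg {f : α → ℝ} (h : ∀ x, 0 ≤ f x) : 0 ≤ E f := by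
  unfold E
  exact div_nonneg (Finset.sum_nonneg fun x _ => h x) (by positivity)

theorem E_const [Nonempty α] (c : ℝ) : E (fun _ : α => c) = c := by
  unfold E
  have : (Fintype.card α : ℝ) ≠ 0 := by
    exact_mod_cast Fintype.card_ne_zero
  simp only [Finset.sum_const, Finset.card_univ, nsmul_eq_mul]
  field_simp

theorem E_zero : E (fun _ : α => (0 : ℝ)) = 0 := by simp [E]

theorem E_le_const [Nonempty α] {f : α → ℝ} {c : ℝ} (h : ∀ x, f x ≤ c) : E f ≤ c := by
  calc E f ≤ E (fun _ : α => c) := E_mono h
    _ = c := E_const c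

theorem le_E_const [Nonempty α] {f : α → ℝ} {c : ℝ} (h : ∀ x, c ≤ f x) : c ≤ E f := by
  calc c = E (fun _ : α => c) := (E_const c).symm
    _ ≤ E f := E_mono h

/-- upper bound valid also for empty types -/
theorem E_le_of_nonneg {f : α → ℝ} {c : ℝ} (hc : 0 ≤ c) (h : ∀ x, f x ≤ c) : E f ≤ c := by
  rcases isEmpty_or_nonempty α with hα | hα
  · simpa [E] using hc
  · exact E_le_const h

theorem E_add (f g : α → ℝ) : E (fun x => f x + g x) = E f + E g := by
  unfold E; rw [Finset.sum_add_distrib, add_div]

theorem E_sub (f g : α → ℝ) : E (fun x => f x - g x) = E f - E g := by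
  unfold E; rw [Finset.sum_sub_distrib, sub_div]

theorem E_mul_left (c : ℝ) (f : α → ℝ) : E (fun x => c * f x) = c * E f := by
  unfold E; rw [← Finset.mul_sum, mul_div_assoc]

theorem E_mul_right (c : ℝ) (f : α → ℝ) : E (fun x => f x * c) = E f * c := by
  unfold E; rw [← Finset.sum_mul]; ring

theorem E_sum {ι : Type*} (s : Finset ι) (f : ι → α → ℝ) :
    E (fun x => ∑ i ∈ s, f i x) = ∑ i ∈ s, E (f i) := by
  unfold E; rw [Finset.sum_comm, Finset.sum_div]

theorem E_comm (f : α → β → ℝ) :
    E (fun x => E (fun y => f x y)) = E (fun y => E (fun x => f x y)) := by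
  unfold E
  rw [← Finset.sum_div, ← Finset.sum_div, Finset.sum_comm, div_div, div_div, mul_comm]

theorem E_equiv (e : α ≃ β) (f : β → ℝ) : E (fun x => f (e x)) = E f := by
  unfold E
  rw [Fintype.card_congr e, Equiv.sum_comp e f]

theorem E_prod (f : α → β → ℝ) :
    E (fun z : α × β => f z.1 z.2) = E (fun x => E (fun y => f x y)) := by
  unfold E
  rw [Fintype.sum_prod_type, ← Finset.sum_div, div_div, Fintype.card_prod]
  push_cast
  rw [mul_comm (Fintype.card α : ℝ)]

theorem E_prod_mul (f : α → ℝ) (g : β → ℝ) :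
    E (fun z : α × β => f z.1 * g z.2) = E f * E g := by
  rw [E_prod (fun x y => f x * g y)]
  simp_rw [E_mul_left]
  rw [E_mul_right]

/-- Jensen: the square of the average is at most the average of the square -/
theorem sq_E_le (f : α → ℝ) : (E f) ^ 2 ≤ E (fun x => f x ^ 2) := by
  rcases isEmpty_or_nonempty α with hα | hα
  · simp [E]
  · have h0 : 0 ≤ E (fun x => (f x - E f) ^ 2) := E_nonneg fun x => sq_nonneg _
    have h1 : E (fun x => (f x - E f) ^ 2) = E (fun x => f x ^ 2) - (E f) ^ 2 := by
      have : ∀ x, (f x - E f) ^ 2 = (f x ^ 2 - (2 * E f) * f x) + (E f) ^ 2 := by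
        intro x; ring
      rw [E_congr this, E_add, E_sub, E_mul_left, E_const]; ring
    linarith

/-- the variance is at most the second moment around any constant -/
theorem var_le_E_sq_sub [Nonempty α] (f : α → ℝ) (c : ℝ) :
    E (fun x => f x ^ 2) - (E f) ^ 2 ≤ E (fun x => (f x - c) ^ 2) := by
  have : ∀ x, (f x - c) ^ 2 = (f x ^ 2 - (2 * c) * f x) + c ^ 2 := by intro x; ring
  rw [E_congr this, E_add, E_sub, E_mul_left, E_const]
  nlinarith [sq_nonneg (E f - c)]

theorem E_sq_sub_mean [Nonempty α] (f : α → ℝ) :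
    E (fun x => (f x - E f) ^ 2) = E (fun x => f x ^ 2) - (E f) ^ 2 := by
  have : ∀ x, (f x - E f) ^ 2 = (f x ^ 2 - (2 * E f) * f x) + (E f) ^ 2 := by
    intro x; ring
  rw [E_congr this, E_add, E_sub, E_mul_left, E_const]; ring

end Elemmas

section tuples

variable {X : Type} [Fintype X]

/-- splitting off the first coordinate -/
theorem E_cons {m : ℕ} (f : (Fin (m + 1) → X) → ℝ) :
    E f = E (fun x : X => E (fun G : Fin m → X => f (Fin.cons x G))) := by
  rw [← E_equiv (Fin.consEquiv (fun _ : Fin (m + 1) => X)) f]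
  exact E_prod (fun (x : X) (G : Fin m → X) => f (Fin.cons x G))

/-- splitting off the coordinate `j` -/
theorem E_insertNth {m : ℕ} (j : Fin (m + 1)) (f : (Fin (m + 1) → X) → ℝ) :
    E f = E (fun x : X => E (fun G : Fin m → X => f (j.insertNth x G))) := by
  rw [← E_equiv (Fin.insertNthEquiv (fun _ : Fin (m + 1) => X) j) f]
  exact E_prod (fun (x : X) (G : Fin m → X) => f (j.insertNth x G))

/-- resampling the coordinate `j` does not change the average -/
theorem E_update {m : ℕ} (j : Fin m) (f : (Fin m → X) → ℝ) :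
    E f = E (fun F : Fin m → X => E (fun y : X => f (Function.update F j y))) := by
  cases m with
  | zero => exact j.elim0
  | succ m =>
    rcases isEmpty_or_nonempty X with hX | hX
    · have : IsEmpty (Fin (m + 1) → X) := ⟨fun F => hX.false (F j)⟩
      simp [E]
    · rw [E_insertNth j f, E_insertNth j]
      have h : ∀ (x : X), E (fun G : Fin m → X =>
          E (fun y : X => f (Function.update (j.insertNth x G) j y))) =
          E (fun x : X => E (fun G : Fin m → X => f (j.insertNth x G))) := by
        intro x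
        rw [E_comm]
        refine E_congr fun y => E_congr fun G => ?_
        rw [Fin.update_insertNth]
      rw [E_congr h, E_const]

/-- splitting a tuple of length `m + s` -/
theorem E_append {m s : ℕ} (f : (Fin (m + s) → X) → ℝ) :
    E f = E (fun F : Fin m → X => E (fun W : Fin s → X => f (Fin.append F W))) := by
  rw [← E_equiv (Fin.appendEquiv m s (α := X)) f]
  exact E_prod (fun (F : Fin m → X) (W : Fin s → X) => f (Fin.append F W))

/-- product structure: averages of products of functions of the coordinates -/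
theorem E_pi {m : ℕ} (f : Fin m → X → ℝ) :
    E (fun c : Fin m → X => ∏ p, f p (c p)) = ∏ p, E (f p) := by
  unfold E
  rw [← Fintype.prod_sum, Finset.prod_div_distrib, Finset.prod_const, Fintype.card_fun,
    Finset.card_univ]
  push_cast
  rfl

end tuples

/-! ## Literals, clauses, assignments -/

/-- literals over `n` variables: `(i, b)` is true under `a` iff `a i = b` -/
abbrev Lit (n : ℕ) := Fin n × Bool
/-- clauses: `k`-tuples of literals -/
abbrev Cl (n k : ℕ) := Fin k → Lit n
/-- assignments -/
abbrev Asg (n : ℕ) := Fin n → Bool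

/-- `a` satisfies the clause `c` -/
def sc {n k : ℕ} (a : Asg n) (c : Cl n k) : Prop := ∃ p, a (c p).1 = (c p).2

/-- the set of assignments satisfying all clauses of `F` -/
def Sol {n k m : ℕ} (F : Fin m → Cl n k) : Set (Asg n) := {a | ∀ j, sc a (F j)}

/-- the proportion of literals that are false under every assignment of `A` -/
noncomputable def xf {n : ℕ} (A : Set (Asg n)) : ℝ :=
  E (fun l : Lit n => ind (∀ a ∈ A, a l.1 ≠ l.2))

/-- probability that `m` independent uniform `k`-clauses over `n` variables are satisfiable -/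
noncomputable def ps (n k m : ℕ) : ℝ :=
  E (fun F : Fin m → Cl n k => ind ((Sol F).Nonempty))

/-- the smoothed survival functional with `s` probing `k`-clauses -/
noncomputable def RA {n : ℕ} (k s : ℕ) (A : Set (Asg n)) : ℝ :=
  E (fun W : Fin s → Cl n k =>
    ∑ u ∈ range s, ind (∃ a ∈ A, ∀ l : Fin s, l.val < u → sc a (W l)))

end Pool.Agent.H999R2.KSat
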