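import Pool.Agent.H999R2.KSat.Defs2

/-! Task IN: interpolation between split and whole clauses. -/

set_option autoImplicit false

namespace Pool.Agent.H999R2.KSat
open Finset Filter

/-- survival probability of a set under one clause on a subset of the variables -/
theorem in_one {n n' : ℕ} (k : ℕ) (hn : 0 < n') (e : Fin n' → Fin n) (R : Set (Asg n)) :
    E (fun c : Cl n' k =>
      ind (R ∩ {a | sc a (fun p => (e (c p).1, (c p).2) : Cl n k)}).Nonempty) =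
      1 - (E (fun l : Lit n' => ind (∀ a ∈ R, a (e l.1) ≠ l.2))) ^ k := by
  have : Nonempty (Fin n') := ⟨⟨0, hn⟩⟩
  have : Nonempty (Cl n' k) := ⟨fun _ => (⟨0, hn⟩, true)⟩
  have h : ∀ c : Cl n' k,
      ind (R ∩ {a | sc a (fun p => (e (c p).1, (c p).2) : Cl n k)}).Nonempty =
      1 - ∏ p, ind (∀ a ∈ R, a (e (c p).1) ≠ (c p).2) := by
    intro c
    rw [← ind_forall, ← ind_not]
    apply ind_congr
    constructor
    · rintro ⟨a, haR, p, hp⟩ hall
      exact hall p a haR hp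
    · intro hne
      push Not at hne
      obtain ⟨p, a, haR, hp⟩ := hne
      exact ⟨a, haR, p, hp⟩
  rw [E_congr h, E_sub, E_const]
  congr 1
  have := E_pi (m := k) (fun (_ : Fin k) (l : Lit n') => ind (∀ a ∈ R, a (e l.1) ≠ l.2))
  rw [this]
  simp

theorem in_xf {N1 N2 : ℕ} (h1 : 0 < N1) (h2 : 0 < N2) (g : Lit (N1 + N2) → ℝ) :
    E g = ((N1 : ℝ) / (N1 + N2)) * E (fun l : Lit N1 => g (Fin.castAdd N2 l.1, l.2)) +
      ((N2 : ℝ) / (N1 + N2)) * E (fun l : Lit N2 => g (Fin.natAdd N1 l.1, l.2)) := by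
  have hN1 : (N1 : ℝ) ≠ 0 := by positivity
  have hN2 : (N2 : ℝ) ≠ 0 := by positivity
  have hN : (N1 : ℝ) + N2 ≠ 0 := by positivity
  unfold E
  rw [Fintype.sum_prod_type, Fintype.sum_prod_type, Fintype.sum_prod_type, Fin.sum_univ_add]
  simp only [Fintype.card_prod, Fintype.card_fin, Fintype.card_bool]
  push_cast
  field_simp

/-- one step of the interpolation -/
theorem in_step {N1 N2 : ℕ} (k : ℕ) (h1 : 0 < N1) (h2 : 0 < N2) (R : Set (Asg (N1 + N2))) :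
    ((N1 : ℝ) / (N1 + N2)) * E (fun c : Cl N1 k => ind (R ∩ {a | sc a (inl N1 N2 c)}).Nonempty) +
    ((N2 : ℝ) / (N1 + N2)) * E (fun c : Cl N2 k => ind (R ∩ {a | sc a (inr N1 N2 c)}).Nonempty) ≤
    E (fun c : Cl (N1 + N2) k => ind (R ∩ {a | sc a c}).Nonempty) := by
  have hN1 : (0 : ℝ) < N1 := by positivity
  have hN2 : (0 : ℝ) < N2 := by positivity
  have e1 := in_one k h1 (Fin.castAdd N2) R
  have e2 := in_one k h2 (Fin.natAdd N1) R
  have e3 := in_one (n := N1 + N2) (n' := N1 + N2) k (by omega) id R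
  have e4 := in_xf h1 h2 (fun l : Lit (N1 + N2) => ind (∀ a ∈ R, a l.1 ≠ l.2))
  unfold inl inr
  rw [e1, e2]
  simp only [id] at e3
  rw [e3, e4]
  set x1 := E (fun l : Lit N1 => ind (∀ a ∈ R, a (Fin.castAdd N2 l.1) ≠ l.2)) with hx1
  set x2 := E (fun l : Lit N2 => ind (∀ a ∈ R, a (Fin.natAdd N1 l.1) ≠ l.2)) with hx2
  have hx1n : 0 ≤ x1 := E_nonneg fun _ => ind_nonneg _
  have hx2n : 0 ≤ x2 := E_nonneg fun _ => ind_nonneg _
  have hp : (0 : ℝ) ≤ (N1 : ℝ) / (N1 + N2) := by positivity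
  have hq : (0 : ℝ) ≤ (N2 : ℝ) / (N1 + N2) := by positivity
  have hpq : (N1 : ℝ) / (N1 + N2) + (N2 : ℝ) / (N1 + N2) = 1 := by
    rw [← add_div]; exact div_self (by positivity)
  have hc := (convexOn_pow (𝕜 := ℝ) k).2 (x := x1) (y := x2) hx1n hx2n hp hq hpq
  simp only [smul_eq_mul] at hc
  nlinarith [hc, hpq]

theorem in_sv_succ {n : ℕ} (k m : ℕ) (A : Set (Asg n)) :
    sv k (m + 1) A = E (fun c : Cl n k => sv k m (A ∩ {a | sc a c})) := by
  unfold sv
  rw [E_cons]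
  refine E_congr fun c => E_congr fun G => ?_
  congr 2
  ext a
  constructor
  · rintro ⟨haA, haS⟩
    refine ⟨⟨haA, by simpa using haS 0⟩, fun j => by simpa using haS j.succ⟩
  · rintro ⟨⟨haA, hac⟩, haS⟩
    refine ⟨haA, fun j => ?_⟩
    refine Fin.cases ?_ (fun j => ?_) j
    · simpa using hac
    · simpa using haS j

theorem in_sv_zero {n : ℕ} (k : ℕ) (A : Set (Asg n)) : sv k 0 A = ind A.Nonempty := by
  unfold sv
  have h : ∀ F : Fin 0 → Cl n k, ind (A ∩ Sol F).Nonempty = ind A.Nonempty := by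
    intro F
    have : Sol F = Set.univ := by
      ext a; simp [Sol]
    rw [this, Set.inter_univ]
  rw [E_congr h]
  exact E_const _

theorem in_rect_nonempty {N1 N2 : ℕ} (A1 : Set (Asg N1)) (A2 : Set (Asg N2)) :
    (rect A1 A2).Nonempty ↔ A1.Nonempty ∧ A2.Nonempty := by
  constructor
  · rintro ⟨a, h1, h2⟩
    exact ⟨⟨_, h1⟩, ⟨_, h2⟩⟩
  · rintro ⟨⟨a1, h1⟩, ⟨a2, h2⟩⟩
    refine ⟨Fin.append a1 a2, ?_, ?_⟩
    · simpa [Fin.append_left] using h1
    · simpa [Fin.append_right] using h2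

theorem in_anti {N1 N2 : ℕ} (k m : ℕ) (h1 : 0 < N1) (h2 : 0 < N2) :
    ∀ (A1 : Set (Asg N1)) (A2 : Set (Asg N2)),
    ∑ ij ∈ antidiagonal m, (m.choose ij.1 : ℝ) * (((N1 : ℝ) / (N1 + N2)) ^ ij.1 *
      ((N2 : ℝ) / (N1 + N2)) ^ ij.2 * (sv k ij.1 A1 * sv k ij.2 A2)) ≤
      sv k m (rect A1 A2) := by
  induction m with
  | zero =>
    intro A1 A2
    simp only [Finset.Nat.antidiagonal_zero, sum_singleton, Nat.choose_self, Nat.cast_one, pow_zero, one_mul]
    rw [in_sv_zero, in_sv_zero, in_sv_zero, ← ind_and]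
    exact ind_mono (in_rect_nonempty A1 A2).2
  | succ m ih =>
    intro A1 A2
    set p : ℝ := (N1 : ℝ) / (N1 + N2) with hp
    set q : ℝ := (N2 : ℝ) / (N1 + N2) with hq
    have hp0 : 0 ≤ p := by positivity
    have hq0 : 0 ≤ q := by positivity
    have hpas := Finset.sum_antidiagonal_choose_succ_mul
      (fun i j => p ^ i * q ^ j * (sv k i A1 * sv k j A2)) m
    rw [hpas]
    have hA : ∑ ij ∈ antidiagonal m, (m.choose ij.1 : ℝ) *
        (p ^ ij.1 * q ^ (ij.2 + 1) * (sv k ij.1 A1 * sv k (ij.2 + 1) A2)) =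
        q * E (fun c : Cl N2 k => ∑ ij ∈ antidiagonal m, (m.choose ij.1 : ℝ) *
          (p ^ ij.1 * q ^ ij.2 * (sv k ij.1 A1 * sv k ij.2 (A2 ∩ {a | sc a c})))) := by
      rw [E_sum, Finset.mul_sum]
      refine Finset.sum_congr rfl fun ij _ => ?_
      rw [in_sv_succ]
      have : ∀ c : Cl N2 k, (m.choose ij.1 : ℝ) *
          (p ^ ij.1 * q ^ ij.2 * (sv k ij.1 A1 * sv k ij.2 (A2 ∩ {a | sc a c}))) =
          ((m.choose ij.1 : ℝ) * (p ^ ij.1 * q ^ ij.2 * sv k ij.1 A1)) *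
            sv k ij.2 (A2 ∩ {a | sc a c}) := by intro c; ring
      rw [E_congr this, E_mul_left]
      ring
    have hB : ∑ ij ∈ antidiagonal m, (m.choose ij.2 : ℝ) *
        (p ^ (ij.1 + 1) * q ^ ij.2 * (sv k (ij.1 + 1) A1 * sv k ij.2 A2)) =
        p * E (fun c : Cl N1 k => ∑ ij ∈ antidiagonal m, (m.choose ij.1 : ℝ) *
          (p ^ ij.1 * q ^ ij.2 * (sv k ij.1 (A1 ∩ {a | sc a c}) * sv k ij.2 A2))) := by
      rw [E_sum, Finset.mul_sum]
      refine Finset.sum_congr rfl fun ij hij => ?_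
      rw [in_sv_succ]
      have hch : m.choose ij.2 = m.choose ij.1 := by
        have := mem_antidiagonal.1 hij
        rw [← this]
        exact (Nat.choose_symm_add).symm
      have : ∀ c : Cl N1 k, (m.choose ij.1 : ℝ) *
          (p ^ ij.1 * q ^ ij.2 * (sv k ij.1 (A1 ∩ {a | sc a c}) * sv k ij.2 A2)) =
          ((m.choose ij.1 : ℝ) * (p ^ ij.1 * q ^ ij.2 * sv k ij.2 A2)) *
            sv k ij.1 (A1 ∩ {a | sc a c}) := by intro c; ring
      rw [E_congr this, E_mul_left, hch]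
      ring
    rw [hA, hB]
    have hA' : E (fun c : Cl N2 k => ∑ ij ∈ antidiagonal m, (m.choose ij.1 : ℝ) *
          (p ^ ij.1 * q ^ ij.2 * (sv k ij.1 A1 * sv k ij.2 (A2 ∩ {a | sc a c})))) ≤
        E (fun F : Fin m → Cl (N1 + N2) k => E (fun c : Cl N2 k =>
          ind (rect A1 A2 ∩ Sol F ∩ {a | sc a (inr N1 N2 c)}).Nonempty)) := by
      rw [← E_comm]
      refine E_mono fun c => ?_
      refine (ih A1 (A2 ∩ {a | sc a c})).trans (le_of_eq ?_)
      unfold sv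
      refine E_congr fun F => ?_
      congr 2
      ext a
      constructor
      · rintro ⟨⟨ha1, ha2, p, hp⟩, haF⟩
        exact ⟨⟨⟨ha1, ha2⟩, haF⟩, p, hp⟩
      · rintro ⟨⟨⟨ha1, ha2⟩, haF⟩, p, hp⟩
        exact ⟨⟨ha1, ha2, p, hp⟩, haF⟩
    have hB' : E (fun c : Cl N1 k => ∑ ij ∈ antidiagonal m, (m.choose ij.1 : ℝ) *
          (p ^ ij.1 * q ^ ij.2 * (sv k ij.1 (A1 ∩ {a | sc a c}) * sv k ij.2 A2))) ≤
        E (fun F : Fin m → Cl (N1 + N2) k => E (fun c : Cl N1 k =>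
          ind (rect A1 A2 ∩ Sol F ∩ {a | sc a (inl N1 N2 c)}).Nonempty)) := by
      rw [← E_comm]
      refine E_mono fun c => ?_
      refine (ih (A1 ∩ {a | sc a c}) A2).trans (le_of_eq ?_)
      unfold sv
      refine E_congr fun F => ?_
      congr 2
      ext a
      constructor
      · rintro ⟨⟨⟨ha1, p, hp⟩, ha2⟩, haF⟩
        exact ⟨⟨⟨ha1, ha2⟩, haF⟩, p, hp⟩
      · rintro ⟨⟨⟨ha1, ha2⟩, haF⟩, p, hp⟩
        exact ⟨⟨⟨ha1, p, hp⟩, ha2⟩, haF⟩
    have hfin : sv k (m + 1) (rect A1 A2) =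
        E (fun F : Fin m → Cl (N1 + N2) k => E (fun c : Cl (N1 + N2) k =>
          ind (rect A1 A2 ∩ Sol F ∩ {a | sc a c}).Nonempty)) := by
      rw [in_sv_succ, ← E_comm]
      refine E_congr fun c => ?_
      unfold sv
      refine E_congr fun F => ?_
      congr 2
      ext a
      constructor
      · rintro ⟨⟨ha, hc⟩, haF⟩
        exact ⟨⟨ha, haF⟩, hc⟩
      · rintro ⟨⟨ha, haF⟩, hc⟩
        exact ⟨⟨ha, hc⟩, haF⟩
    rw [hfin]
    refine (add_le_add (mul_le_mul_of_nonneg_left hA' hq0)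
      (mul_le_mul_of_nonneg_left hB' hp0)).trans ?_
    rw [← E_mul_left, ← E_mul_left, ← E_add]
    refine E_mono fun F => ?_
    have := in_step k h1 h2 (rect A1 A2 ∩ Sol F)
    linarith

/-! ### Task IN (interpolation: split clauses against whole clauses) -/
theorem interp (N1 N2 k m : ℕ) (h1 : 0 < N1) (h2 : 0 < N2) (hk : 0 < k)
    (A1 : Set (Asg N1)) (A2 : Set (Asg N2)) :
    ∑ j ∈ range (m + 1), (m.choose j : ℝ) * ((N1 : ℝ) / (N1 + N2)) ^ j *
      ((N2 : ℝ) / (N1 + N2)) ^ (m - j) * (sv k j A1 * sv k (m - j) A2) ≤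
      sv k m (rect A1 A2) := by
  have := in_anti k m h1 h2 A1 A2
  rw [Finset.Nat.sum_antidiagonal_eq_sum_range_succ
    (fun i j => (m.choose i : ℝ) * (((N1 : ℝ) / (N1 + N2)) ^ i *
      ((N2 : ℝ) / (N1 + N2)) ^ j * (sv k i A1 * sv k j A2)))] at this
  refine le_trans (le_of_eq ?_) this
  refine Finset.sum_congr rfl fun j _ => ?_
  ring

end Pool.Agent.H999R2.KSat
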