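import Pool.Agent.H999R2.KSat.Defs2

set_option autoImplicit false

namespace Pool.Agent.H999R2.KSat
open Finset Filter

/-- the chance of one given literal -/
theorem kp_single {n : ℕ} (l0 : Lit n) :
    E (fun l : Lit n => ind (l = l0)) = 1 / (2 * n) := by
  classical
  unfold E
  have : ∑ l : Lit n, ind (l = l0) = 1 := by
    rw [Finset.sum_eq_single l0]
    · exact ind_true rfl
    · intro b _ hb; exact ind_false hb
    · intro h; exact absurd (Finset.mem_univ _) h
  rw [this, Fintype.card_prod, Fintype.card_fin, Fintype.card_bool]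
  push_cast
  ring

/-- one position -/
theorem kp_pos {n : ℕ} (κ : ℕ) (l0 : Lit n) (Q : Set (Asg n)) (p : Fin (κ + 1)) :
    E (fun c : Cl n (κ + 1) => ind (c p = l0 ∧
      ∀ p' : Fin κ, ∀ a ∈ Q, a (c (p.succAbove p')).1 ≠ (c (p.succAbove p')).2)) =
      1 / (2 * n) * xf Q ^ κ := by
  rw [E_insertNth p]
  have h : ∀ x : Lit n, E (fun G : Fin κ → Lit n => ind ((p.insertNth x G : Cl n (κ + 1)) p = l0 ∧
      ∀ p' : Fin κ, ∀ a ∈ Q, a ((p.insertNth x G : Cl n (κ + 1)) (p.succAbove p')).1 ≠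
        ((p.insertNth x G : Cl n (κ + 1)) (p.succAbove p')).2)) = ind (x = l0) * xf Q ^ κ := by
    intro x
    have h2 : ∀ G : Fin κ → Lit n, ind ((p.insertNth x G : Cl n (κ + 1)) p = l0 ∧
      ∀ p' : Fin κ, ∀ a ∈ Q, a ((p.insertNth x G : Cl n (κ + 1)) (p.succAbove p')).1 ≠
        ((p.insertNth x G : Cl n (κ + 1)) (p.succAbove p')).2) =
        ind (x = l0) * ∏ p' : Fin κ, ind (∀ a ∈ Q, a (G p').1 ≠ (G p').2) := by
      intro G
      rw [ind_and, Fin.insertNth_apply_same, ← ind_forall]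
      congr 1
      apply ind_congr
      simp only [Fin.insertNth_apply_succAbove]
    rw [E_congr h2, E_mul_left, E_pi (fun _ (l : Lit n) => ind (∀ a ∈ Q, a l.1 ≠ l.2))]
    simp [xf]
  rw [E_congr h, E_mul_right, kp_single]

theorem kill_prob {n : ℕ} (κ : ℕ) (hn : 0 < n) (i : Fin n) (b : Bool) (Q : Set (Asg n)) :
    E (fun c : Cl n (κ + 1) => ind (kl i b Q c)) ≤
      ((κ : ℝ) + 1) / (2 * n) * (ind Q.Nonempty * xf Q ^ κ) := by
  by_cases hQ : Q.Nonempty
  · rw [ind_true hQ, one_mul]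
    calc E (fun c : Cl n (κ + 1) => ind (kl i b Q c))
        ≤ E (fun c : Cl n (κ + 1) => ∑ p : Fin (κ + 1), ind (c p = (i, !b) ∧
          ∀ p' : Fin κ, ∀ a ∈ Q, a (c (p.succAbove p')).1 ≠ (c (p.succAbove p')).2)) := by
          refine E_mono fun c => ?_
          refine le_trans (ind_mono ?_) (ind_exists_le _)
          rintro ⟨-, ⟨p, hp⟩, h⟩
          refine ⟨p, hp, fun p' a ha heq => h a ha ⟨_, heq⟩⟩
      _ = ∑ p : Fin (κ + 1), (1 / (2 * n) * xf Q ^ κ : ℝ) := by
          rw [E_sum]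
          exact Finset.sum_congr rfl fun p _ => kp_pos κ (i, !b) Q p
      _ = ((κ : ℝ) + 1) / (2 * n) * xf Q ^ κ := by
          rw [Finset.sum_const, Finset.card_univ, Fintype.card_fin, nsmul_eq_mul]
          push_cast
          ring
  · rw [ind_false hQ]
    have : ∀ c : Cl n (κ + 1), ind (kl i b Q c) = 0 := fun c => ind_false fun h => hQ h.1
    rw [E_congr this, E_zero]
    simp

end Pool.Agent.H999R2.KSat
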