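import Pool.Agent.H999R2.KSat.ES
import Pool.Agent.H999R2.KSat.DE
import Pool.Agent.H999R2.KSat.BA

/-!
# The sharpness inequality (assembly)
-/

set_option autoImplicit false

namespace Pool.Agent.H999R2.KSat
open Finset Filter

theorem sh_Sol_insertNth {n k M : ℕ} (j : Fin (M + 1)) (x : Cl n k) (G : Fin M → Cl n k) :
    Sol (j.insertNth x G : Fin (M + 1) → Cl n k) = Sol G ∩ {a | sc a x} := by
  ext a
  simp only [Sol, Set.mem_ofPred_eq, Set.mem_inter_iff]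
  rw [Fin.forall_iff_succAbove j]
  simp only [Fin.insertNth_apply_same, Fin.insertNth_apply_succAbove]
  tauto

theorem sh_var_upper (κ s T n M : ℕ) (hn : 0 < n) (hT : 1 ≤ T) (hTn : T ≤ n) :
    E (fun F : Fin (M + 1) → Cl n (κ + 1) => RA (κ + 1) s (Sol F) ^ 2)
      - (E (fun F : Fin (M + 1) → Cl n (κ + 1) => RA (κ + 1) s (Sol F))) ^ 2 ≤
      ((M : ℝ) + 1) * ((((M : ℝ) + s) * (((κ : ℝ) + 1) / (2 * n) * KK κ s T)) ^ 2 +
      (((M : ℝ) + s) * (((κ : ℝ) + 1) / (2 * n) * KK κ s T)) * (T + s / (T : ℝ) ^ κ)) := by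
  have h1 := efron_stein (M + 1) (fun F : Fin (M + 1) → Cl n (κ + 1) => RA (κ + 1) s (Sol F))
    (fun j F => RA (κ + 1) s (Sol (j.removeNth F))) (by
      intro j F y
      simp only [Fin.removeNth_update])
  refine h1.trans ?_
  have h2 : ∀ j : Fin (M + 1), E (fun F : Fin (M + 1) → Cl n (κ + 1) =>
      (RA (κ + 1) s (Sol F) - RA (κ + 1) s (Sol (j.removeNth F))) ^ 2) ≤
      (((M : ℝ) + s) * (((κ : ℝ) + 1) / (2 * n) * KK κ s T)) ^ 2 +
      (((M : ℝ) + s) * (((κ : ℝ) + 1) / (2 * n) * KK κ s T)) * (T + s / (T : ℝ) ^ κ) := by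
    intro j
    rw [E_insertNth j, E_comm]
    refine le_trans (le_of_eq ?_) (delta_sq κ s T M hn hT hTn)
    refine E_congr fun G => E_congr fun C => ?_
    rw [sh_Sol_insertNth, Fin.removeNth_insertNth]
    ring
  calc _ ≤ ∑ _j : Fin (M + 1), ((((M : ℝ) + s) * (((κ : ℝ) + 1) / (2 * n) * KK κ s T)) ^ 2 +
      (((M : ℝ) + s) * (((κ : ℝ) + 1) / (2 * n) * KK κ s T)) * (T + s / (T : ℝ) ^ κ)) :=
        Finset.sum_le_sum fun j _ => h2 j
    _ = _ := by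
        rw [Finset.sum_const, Finset.card_univ, Fintype.card_fin, nsmul_eq_mul]
        push_cast
        ring

theorem sh_var_lower (κ s n m : ℕ) (hn : 0 < n) :
    (1 - ps n (κ + 1) m) * ((s : ℝ) * ps n (κ + 1) (m + s)) ^ 2 ≤
    E (fun F : Fin m → Cl n (κ + 1) => RA (κ + 1) s (Sol F) ^ 2)
      - (E (fun F : Fin m → Cl n (κ + 1) => RA (κ + 1) s (Sol F))) ^ 2 := by
  have hne : Nonempty (Fin n) := ⟨⟨0, hn⟩⟩
  rw [← E_sq_sub_mean]
  set μ := E (fun F : Fin m → Cl n (κ + 1) => RA (κ + 1) s (Sol F)) with hμ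
  have h1 : (s : ℝ) * ps n (κ + 1) (m + s) ≤ μ := E_RA_ge n (κ + 1) m s
  have h2 : 0 ≤ (s : ℝ) * ps n (κ + 1) (m + s) := mul_nonneg (by positivity) (ps_nonneg _ _ _)
  have h3 : ((s : ℝ) * ps n (κ + 1) (m + s)) ^ 2 ≤ μ ^ 2 := pow_le_pow_left₀ h2 h1 2
  have h4 : 0 ≤ 1 - ps n (κ + 1) m := by linarith [ps_le_one n (κ + 1) m]
  have h5 : (1 - ps n (κ + 1) m) * μ ^ 2
      = E (fun F : Fin m → Cl n (κ + 1) => ind (¬ (Sol F).Nonempty) * μ ^ 2) := by
    rw [E_mul_right]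
    congr 1
    simp only [ind_not]
    rw [E_sub, E_const]
    rfl
  calc _ ≤ (1 - ps n (κ + 1) m) * μ ^ 2 := mul_le_mul_of_nonneg_left h3 h4
    _ = _ := h5
    _ ≤ _ := by
        refine E_mono fun F => ?_
        by_cases hF : (Sol F).Nonempty
        · rw [ind_false (not_not.2 hF), zero_mul]
          exact sq_nonneg _
        · rw [ind_true hF, one_mul, Set.not_nonempty_iff_eq_empty.1 hF, RA_empty]
          rw [zero_sub, neg_sq]

theorem sharp_gen (κ s T n m : ℕ) (hn : 0 < n) (hT : 1 ≤ T) (hTn : T ≤ n) :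
    (1 - ps n (κ + 1) m) * ((s : ℝ) * ps n (κ + 1) (m + s)) ^ 2 ≤
      m * ((((m : ℝ) + s) * (((κ : ℝ) + 1) / (2 * n) * KK κ s T)) ^ 2 +
      (((m : ℝ) + s) * (((κ : ℝ) + 1) / (2 * n) * KK κ s T)) * (T + s / (T : ℝ) ^ κ)) := by
  rcases m with _ | M
  · rw [ps_zero]
    simp
  · refine (sh_var_lower κ s n (M + 1) hn).trans ((sh_var_upper κ s T n M hn hT hTn).trans ?_)
    have hK : 0 ≤ ((κ : ℝ) + 1) / (2 * n) * KK κ s T := by
      unfold KK
      positivity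
    have hT2 : 0 ≤ (T : ℝ) + s / (T : ℝ) ^ κ := by positivity
    push_cast
    apply mul_le_mul_of_nonneg_left _ (by positivity)
    have h1 : ((M : ℝ) + s) * (((κ : ℝ) + 1) / (2 * n) * KK κ s T)
        ≤ ((M : ℝ) + 1 + s) * (((κ : ℝ) + 1) / (2 * n) * KK κ s T) :=
      mul_le_mul_of_nonneg_right (by linarith) hK
    have h0 : 0 ≤ ((M : ℝ) + s) * (((κ : ℝ) + 1) / (2 * n) * KK κ s T) :=
      mul_nonneg (by positivity) hK
    exact add_le_add (pow_le_pow_left₀ h0 h1 2) (mul_le_mul_of_nonneg_right h1 hT2)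

end Pool.Agent.H999R2.KSat
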