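import Pool.Agent.H999R2.KSat.Defs2
import Pool.Agent.H999R2.KSat.SH

set_option autoImplicit false

/-! Task SA: algebra from `sharp_gen`. -/

namespace Pool.Agent.H999R2.KSat
open Finset Filter

theorem sharp' (κ : ℕ) (Λ : ℝ) : ∃ C : ℝ, 0 < C ∧ ∀ n m T : ℕ, 1 ≤ T → T ≤ n →
    (m : ℝ) + (T : ℝ) ^ (κ + 1) ≤ Λ * n →
    (1 - ps n (κ + 1) m) * ps n (κ + 1) (m + T ^ (κ + 1)) ^ 2 ≤ C * n / (T : ℝ) ^ (2 * κ) := by
  set a : ℝ := 2 ^ (κ + 1) + 1 with ha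
  set R : ℝ := |Λ| * (((κ : ℝ) + 1) / 2 * a) with hR
  have ha0 : 0 < a := by positivity
  have hR0 : 0 ≤ R := by positivity
  refine ⟨|Λ| * (R ^ 2 + 2 * R) + 1, by positivity, fun n m T hT hTn hm => ?_⟩
  have hn : 0 < n := by omega
  have hnR : (0 : ℝ) < n := by exact_mod_cast hn
  have hTR : (0 : ℝ) < T := by exact_mod_cast hT
  have hΛ : Λ * n ≤ |Λ| * n := mul_le_mul_of_nonneg_right (le_abs_self Λ) hnR.le
  have hm0 : (0 : ℝ) ≤ m := Nat.cast_nonneg m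
  have hs0 : (0 : ℝ) ≤ (T : ℝ) ^ (κ + 1) := by positivity
  have h := sharp_gen κ (T ^ (κ + 1)) T n m hn hT hTn
  have hc : ((T ^ (κ + 1) : ℕ) : ℝ) = (T : ℝ) ^ (κ + 1) := by push_cast; ring
  have hdiv : (T : ℝ) ^ (κ + 1) / (T : ℝ) ^ κ = T := by
    rw [pow_succ]
    field_simp
  have hKK : KK κ (T ^ (κ + 1)) T = a * T := by
    unfold KK
    rw [hc, hdiv, ha]
    ring
  rw [hKK, hc, hdiv] at h
  set x : ℝ := ((m : ℝ) + (T : ℝ) ^ (κ + 1)) * (((κ : ℝ) + 1) / (2 * n) * (a * T)) with hx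
  have hx0 : 0 ≤ x := by positivity
  have hx1 : x ≤ R * T := by
    have h1 : x = (((m : ℝ) + (T : ℝ) ^ (κ + 1)) / n) * (((κ : ℝ) + 1) / 2 * a * T) := by
      rw [hx]
      field_simp
    have h2 : ((m : ℝ) + (T : ℝ) ^ (κ + 1)) / n ≤ |Λ| := by
      rw [div_le_iff₀ hnR]
      linarith
    have h3 : 0 ≤ ((κ : ℝ) + 1) / 2 * a * T := by positivity
    calc x = (((m : ℝ) + (T : ℝ) ^ (κ + 1)) / n) * (((κ : ℝ) + 1) / 2 * a * T) := h1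
      _ ≤ |Λ| * (((κ : ℝ) + 1) / 2 * a * T) := mul_le_mul_of_nonneg_right h2 h3
      _ = R * T := by rw [hR]; ring
  have hm1 : (m : ℝ) ≤ |Λ| * n := by linarith
  have hRT : 0 ≤ R * T := by positivity
  have h4 : m * (x ^ 2 + x * (T + T)) ≤ (|Λ| * n) * ((R * T) ^ 2 + (R * T) * (T + T)) := by
    have e1 : x ^ 2 ≤ (R * T) ^ 2 := pow_le_pow_left₀ hx0 hx1 2
    have e2 : x * ((T : ℝ) + T) ≤ (R * T) * (T + T) :=
      mul_le_mul_of_nonneg_right hx1 (by positivity)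
    have e3 : 0 ≤ x ^ 2 + x * ((T : ℝ) + T) := by positivity
    exact mul_le_mul hm1 (by linarith) e3 (by positivity)
  have h5 : (1 - ps n (κ + 1) m) * ps n (κ + 1) (m + T ^ (κ + 1)) ^ 2 * ((T : ℝ) ^ (κ + 1)) ^ 2 ≤
      |Λ| * (R ^ 2 + 2 * R) * n * (T : ℝ) ^ 2 := by
    calc (1 - ps n (κ + 1) m) * ps n (κ + 1) (m + T ^ (κ + 1)) ^ 2 * ((T : ℝ) ^ (κ + 1)) ^ 2
        = (1 - ps n (κ + 1) m) * ((T : ℝ) ^ (κ + 1) * ps n (κ + 1) (m + T ^ (κ + 1))) ^ 2 := by ring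
      _ ≤ m * (x ^ 2 + x * (T + T)) := h
      _ ≤ (|Λ| * n) * ((R * T) ^ 2 + (R * T) * (T + T)) := h4
      _ = |Λ| * (R ^ 2 + 2 * R) * n * (T : ℝ) ^ 2 := by ring
  have h6 : ((T : ℝ) ^ (κ + 1)) ^ 2 = (T : ℝ) ^ (2 * κ) * (T : ℝ) ^ 2 := by
    rw [← pow_mul, ← pow_add]
    congr 1
    ring
  rw [h6, ← mul_assoc] at h5
  have h7 := le_of_mul_le_mul_right h5 (by positivity)
  rw [le_div_iff₀ (by positivity)]
  have h8 : |Λ| * (R ^ 2 + 2 * R) * n ≤ (|Λ| * (R ^ 2 + 2 * R) + 1) * n := by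
    nlinarith
  linarith

end Pool.Agent.H999R2.KSat
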