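import Pool.Agent.H999R2.KSat.Defs2
import Pool.Agent.H999R2.KSat.IN
set_option autoImplicit false
namespace Pool.Agent.H999R2.KSat
open Finset Filter

theorem sm_sv_univ (n k m : ℕ) : sv k m (Set.univ : Set (Asg n)) = ps n k m := by
  unfold sv ps
  refine E_congr fun F => ?_
  rw [Set.univ_inter]

theorem sm_rect_univ (N1 N2 : ℕ) :
    rect (Set.univ : Set (Asg N1)) (Set.univ : Set (Asg N2)) = Set.univ := by
  ext a; simp [rect]

theorem sm_ps_nonneg (n k m : ℕ) : 0 ≤ ps n k m := E_nonneg fun _ => ind_nonneg _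

theorem sm_ps_zero (n k : ℕ) : ps n k 0 = 1 := by
  unfold ps
  rw [E_congr (g := fun _ => (1 : ℝ))]
  · exact E_const 1
  · intro F
    apply ind_true
    exact ⟨fun _ => true, fun j => j.elim0⟩

theorem sm_ps_succ_le (n k m : ℕ) (hn : 0 < n) : ps n k (m + 1) ≤ ps n k m := by
  have : Nonempty (Cl n k) := ⟨fun _ => (⟨0, hn⟩, true)⟩
  unfold ps
  rw [E_cons]
  calc E (fun x : Cl n k => E (fun G : Fin m → Cl n k => ind (Sol (Fin.cons x G : Fin (m+1) → Cl n k)).Nonempty))
      ≤ E (fun _ : Cl n k => E (fun G : Fin m → Cl n k => ind (Sol G).Nonempty)) := by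
        refine E_mono fun x => E_mono fun G => ind_mono ?_
        rintro ⟨a, ha⟩
        refine ⟨a, fun j => ?_⟩
        have := ha j.succ
        simpa using this
    _ = _ := E_const _

theorem sm_ps_anti (n k : ℕ) (hn : 0 < n) {m m' : ℕ} (h : m ≤ m') : ps n k m' ≤ ps n k m :=
  antitone_nat_of_succ_le (fun m => sm_ps_succ_le n k m hn) h

theorem super_one (n k m : ℕ) (hn : 0 < n) (hk : 0 < k) :
    ((n : ℝ) / (n + 1)) ^ m * ps n k m ≤ ps (n + 1) k m := by
  have h := interp n 1 k m hn one_pos hk Set.univ Set.univ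
  rw [sm_rect_univ, sm_sv_univ] at h
  simp only [sm_sv_univ] at h
  refine le_trans ?_ h
  have hnn : ∀ j ∈ range (m + 1), 0 ≤ (m.choose j : ℝ) * ((n : ℝ) / (n + (1 : ℕ))) ^ j *
      (((1 : ℕ) : ℝ) / (n + (1 : ℕ))) ^ (m - j) * (ps n k j * ps 1 k (m - j)) := by
    intro j _
    have := sm_ps_nonneg n k j
    have := sm_ps_nonneg 1 k (m - j)
    positivity
  refine le_trans ?_ (Finset.single_le_sum hnn (Finset.self_mem_range_succ m))
  simp only [Nat.choose_self, Nat.sub_self, pow_zero, sm_ps_zero, Nat.cast_one, one_mul, mul_one]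
  exact le_refl _

theorem sm_variance (m : ℕ) (p : ℝ) :
    ∑ j ∈ range (m + 1), (m.choose j : ℝ) * p ^ j * (1 - p) ^ (m - j) * ((j : ℝ) - m * p) ^ 2 =
      m * p * (1 - p) := by
  have h := congrArg (Polynomial.eval p) (bernsteinPolynomial.variance ℝ m)
  rw [Polynomial.eval_finsetSum] at h
  simp only [bernsteinPolynomial, Polynomial.eval_mul, Polynomial.eval_pow, Polynomial.eval_sub,
    Polynomial.eval_X, Polynomial.eval_natCast, Polynomial.eval_one,
    nsmul_eq_mul] at h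
  rw [← h]
  refine Finset.sum_congr rfl fun j _ => ?_
  ring

theorem super_two (N1 N2 k m m1 m2 : ℕ) (d : ℝ) (h1 : 0 < N1) (h2 : 0 < N2) (hk : 0 < k)
    (hd : 0 ≤ d) (hdm : 4 * (m : ℝ) ≤ d ^ 2)
    (hm1 : m * (N1 : ℝ) / (N1 + N2) + d ≤ m1) (hm2 : m * (N2 : ℝ) / (N1 + N2) + d ≤ m2) :
    1 / 2 * ps N1 k m1 * ps N2 k m2 ≤ ps (N1 + N2) k m := by
  have h := interp N1 N2 k m h1 h2 hk Set.univ Set.univ
  rw [sm_rect_univ, sm_sv_univ] at h
  simp only [sm_sv_univ] at h
  refine le_trans ?_ h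
  have hN1 : (0 : ℝ) < N1 := by exact_mod_cast h1
  have hN2 : (0 : ℝ) < N2 := by exact_mod_cast h2
  set p : ℝ := (N1 : ℝ) / (N1 + N2) with hp
  have hq : (N2 : ℝ) / (N1 + N2) = 1 - p := by rw [hp]; field_simp; ring
  have hp0 : 0 ≤ p := by positivity
  have hp1 : 0 ≤ 1 - p := by rw [← hq]; positivity
  rw [hq]
  have hmp : m * (N1 : ℝ) / (N1 + N2) = m * p := by rw [hp]; ring
  have hmq : m * (N2 : ℝ) / (N1 + N2) = m * (1 - p) := by rw [← hq]; ring
  rw [hmp] at hm1
  rw [hmq] at hm2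
  set P : ℝ := ps N1 k m1 * ps N2 k m2 with hP
  have hP0 : 0 ≤ P := mul_nonneg (sm_ps_nonneg _ _ _) (sm_ps_nonneg _ _ _)
  -- weights
  set w : ℕ → ℝ := fun j => (m.choose j : ℝ) * p ^ j * (1 - p) ^ (m - j) with hw
  have hw0 : ∀ j, 0 ≤ w j := fun j => by simp only [hw]; positivity
  have hsum : ∑ j ∈ range (m + 1), w j = 1 := by
    have := add_pow p (1 - p) m
    rw [add_sub_cancel, one_pow] at this
    rw [this]
    refine Finset.sum_congr rfl fun j _ => ?_
    simp only [hw]; ring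
  have hvar : ∑ j ∈ range (m + 1), w j * ((j : ℝ) - m * p) ^ 2 ≤ m := by
    have := sm_variance m p
    simp only [hw]
    rw [this]
    have hm : (0 : ℝ) ≤ m := by positivity
    have : p * (1 - p) ≤ 1 := by nlinarith
    calc (m : ℝ) * p * (1 - p) = m * (p * (1 - p)) := by ring
      _ ≤ m * 1 := mul_le_mul_of_nonneg_left this hm
      _ = m := mul_one _
  -- pointwise bound
  have key : ∀ j ∈ range (m + 1), d ^ 2 * (w j * P) ≤
      d ^ 2 * (w j * (ps N1 k j * ps N2 k (m - j))) + w j * ((j : ℝ) - m * p) ^ 2 * P := by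
    intro j hj
    have hjm : j ≤ m := by
      have := Finset.mem_range.mp hj; omega
    by_cases hg : j ≤ m1 ∧ m - j ≤ m2
    · have ha := sm_ps_anti N1 k h1 hg.1
      have hb := sm_ps_anti N2 k h2 hg.2
      have : P ≤ ps N1 k j * ps N2 k (m - j) :=
        mul_le_mul ha hb (sm_ps_nonneg _ _ _) (sm_ps_nonneg _ _ _)
      have h3 : w j * P ≤ w j * (ps N1 k j * ps N2 k (m - j)) :=
        mul_le_mul_of_nonneg_left this (hw0 j)
      have h4 : 0 ≤ w j * ((j : ℝ) - m * p) ^ 2 * P :=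
        mul_nonneg (mul_nonneg (hw0 j) (sq_nonneg _)) hP0
      have := mul_le_mul_of_nonneg_left h3 (sq_nonneg d)
      linarith
    · have hdd : d ^ 2 ≤ ((j : ℝ) - m * p) ^ 2 := by
        rcases not_and_or.mp hg with h5 | h5
        · have h6 : (m1 : ℝ) < j := by exact_mod_cast not_le.mp h5
          have : d ≤ (j : ℝ) - m * p := by linarith
          exact pow_le_pow_left₀ hd this 2
        · have h6 : (m2 : ℝ) < ((m - j : ℕ) : ℝ) := by exact_mod_cast not_le.mp h5
          rw [Nat.cast_sub hjm] at h6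
          have : d ≤ m * p - (j : ℝ) := by linarith
          have := pow_le_pow_left₀ hd this 2
          calc d ^ 2 ≤ (m * p - (j : ℝ)) ^ 2 := this
            _ = _ := by ring
      have h4 : 0 ≤ d ^ 2 * (w j * (ps N1 k j * ps N2 k (m - j))) :=
        mul_nonneg (sq_nonneg d) (mul_nonneg (hw0 j)
          (mul_nonneg (sm_ps_nonneg _ _ _) (sm_ps_nonneg _ _ _)))
      have h5 : d ^ 2 * (w j * P) ≤ ((j : ℝ) - m * p) ^ 2 * (w j * P) :=
        mul_le_mul_of_nonneg_right hdd (mul_nonneg (hw0 j) hP0)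
      calc d ^ 2 * (w j * P) ≤ ((j : ℝ) - m * p) ^ 2 * (w j * P) := h5
        _ = w j * ((j : ℝ) - m * p) ^ 2 * P := by ring
        _ ≤ _ := by linarith
  have hS := Finset.sum_le_sum key
  rw [Finset.sum_add_distrib, ← Finset.mul_sum, ← Finset.mul_sum, ← Finset.sum_mul,
    ← Finset.sum_mul, hsum] at hS
  set S : ℝ := ∑ j ∈ range (m + 1), w j * (ps N1 k j * ps N2 k (m - j)) with hSdef
  have hS0 : 0 ≤ S := Finset.sum_nonneg fun j _ => mul_nonneg (hw0 j)
    (mul_nonneg (sm_ps_nonneg _ _ _) (sm_ps_nonneg _ _ _))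
  have hgoal : 1 / 2 * P ≤ S := by
    rcases Nat.eq_zero_or_pos m with hm | hm
    · -- m = 0
      have hS1 : S = 1 := by
        rw [hSdef]
        subst hm
        simp [hw, sm_ps_zero]
      have hA : ps N1 k m1 ≤ 1 := by
        have := sm_ps_anti N1 k h1 (Nat.zero_le m1); rwa [sm_ps_zero] at this
      have hB : ps N2 k m2 ≤ 1 := by
        have := sm_ps_anti N2 k h2 (Nat.zero_le m2); rwa [sm_ps_zero] at this
      have : P ≤ 1 := by
        rw [hP]
        exact mul_le_one₀ hA (sm_ps_nonneg _ _ _) hB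
      rw [hS1]; linarith
    · have hm' : (0 : ℝ) < m := by exact_mod_cast hm
      have hd2 : 0 < d ^ 2 := by linarith
      have hV : (∑ j ∈ range (m + 1), w j * ((j : ℝ) - m * p) ^ 2) * P ≤ d ^ 2 / 4 * P := by
        apply mul_le_mul_of_nonneg_right _ hP0
        linarith
      have : d ^ 2 * (1 * P) ≤ d ^ 2 * S + d ^ 2 / 4 * P := by linarith
      have h8 : d ^ 2 * (1 / 2 * P) ≤ d ^ 2 * S := by nlinarith
      exact le_of_mul_le_mul_left h8 hd2
  calc 1 / 2 * ps N1 k m1 * ps N2 k m2 = 1 / 2 * P := by rw [hP]; ring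
    _ ≤ S := hgoal
    _ = _ := by rw [hSdef]

end Pool.Agent.H999R2.KSat
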