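import Pool.Agent.H999R2.KSat.Defs2

/-! Task TL1: lower bound for the number of formulas with distinct variables. -/

set_option autoImplicit false

namespace Pool.Agent.H999R2.KSat
open Finset Filter

open Classical in
/-- number of ordered clauses with distinct variables -/
noncomputable def tl1_D (n k : ℕ) : ℕ :=
  (univ.filter (fun c : Cl n k => Function.Injective (fun p => (c p).1))).card

theorem tl1_dcount (n k m : ℕ) : dcount n k m = tl1_D n k ^ m := by
  classical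
  unfold dcount tl1_D
  have h : (univ.filter (fun F : Fin m → Cl n k =>
      ∀ j, Function.Injective (fun p => (F j p).1))) =
      Fintype.piFinset (fun _ : Fin m =>
        univ.filter (fun c : Cl n k => Function.Injective (fun p => (c p).1))) := by
    ext F
    simp [Fintype.mem_piFinset]
  rw [h, Fintype.card_piFinset]
  simp

theorem tl1_D_lower (n k : ℕ) : n.descFactorial k * 2 ^ k ≤ tl1_D n k := by
  classical
  have h1 : Fintype.card ((Fin k ↪ Fin n) × (Fin k → Bool)) = n.descFactorial k * 2 ^ k := by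
    rw [Fintype.card_prod, Fintype.card_embedding_eq]
    simp
  rw [← h1, ← Finset.card_univ]
  unfold tl1_D
  refine Finset.card_le_card_of_injOn (fun es p => (es.1 p, es.2 p)) ?_ ?_
  · intro es _
    simp only [Finset.coe_filter, Finset.mem_univ, true_and, Set.mem_ofPred_eq]
    exact es.1.injective
  · rintro ⟨e, s⟩ _ ⟨e', s'⟩ _ h
    have h2 := fun p => congrFun h p
    simp only [Prod.mk.injEq] at h2
    ext p
    · exact congrArg Fin.val (h2 p).1
    · exact (h2 p).2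

theorem tl1_exp {x : ℝ} (h0 : 0 ≤ x) (h1 : x ≤ 1 / 2) : Real.exp (-(2 * x)) ≤ 1 - x := by
  rw [Real.exp_neg]
  have h2 : 1 + 2 * x ≤ Real.exp (2 * x) := by
    have := Real.add_one_le_exp (2 * x)
    linarith
  have h3 : (Real.exp (2 * x))⁻¹ ≤ (1 + 2 * x)⁻¹ := inv_anti₀ (by linarith) h2
  refine h3.trans ?_
  rw [inv_le_iff_one_le_mul₀ (by linarith)]
  nlinarith

theorem dcount_lower (k : ℕ) (Λ : ℝ) : ∃ c : ℝ, 0 < c ∧ ∃ n0 : ℕ, ∀ n m : ℕ, n0 ≤ n →
    (m : ℝ) ≤ Λ * n → c * ((2 * (n : ℝ)) ^ k) ^ m ≤ dcount n k m := by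
  refine ⟨Real.exp (-(2 * (k : ℝ) ^ 2 * Λ)), Real.exp_pos _, 2 * k ^ 2 + k + 1,
    fun n m hn hm => ?_⟩
  have hn1 : 1 ≤ n := by omega
  have hnk : k ≤ n := by
    have : 0 ≤ 2 * k ^ 2 := Nat.zero_le _
    omega
  have hnpos : (0 : ℝ) < n := by exact_mod_cast hn1
  have hk2 : 2 * (k : ℝ) ^ 2 ≤ n := by
    have : 2 * k ^ 2 ≤ n := by omega
    exact_mod_cast this
  set x : ℝ := (k : ℝ) ^ 2 / n with hx
  have hx0 : 0 ≤ x := by positivity
  have hx1 : x ≤ 1 / 2 := by
    rw [hx, div_le_iff₀ hnpos]; linarith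
  -- lower bound for D
  have hD : (2 * (n : ℝ)) ^ k * (1 - x) ≤ (tl1_D n k : ℝ) := by
    have h1 : ((n - k : ℕ) : ℝ) ^ k ≤ (n.descFactorial k : ℝ) := by
      have h2 : (n + 1 - k) ^ k ≤ n.descFactorial k := Nat.pow_sub_le_descFactorial n k
      have h3 : (n - k) ^ k ≤ (n + 1 - k) ^ k := Nat.pow_le_pow_left (by omega) k
      exact_mod_cast h3.trans h2
    have h4 : ((n.descFactorial k * 2 ^ k : ℕ) : ℝ) ≤ (tl1_D n k : ℝ) := by
      exact_mod_cast tl1_D_lower n k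
    push_cast at h4
    rw [Nat.cast_sub hnk] at h1
    have h5 : 1 - x ≤ (1 - (k : ℝ) / n) ^ k := by
      have h6 : (-2 : ℝ) ≤ -((k : ℝ) / n) := by
        have : (k : ℝ) / n ≤ 1 := by
          rw [div_le_one hnpos]; exact_mod_cast hnk
        linarith
      have h7 := one_add_mul_le_pow h6 k
      have h8 : (1 : ℝ) + k * -((k : ℝ) / n) = 1 - x := by
        rw [hx]; ring
      rw [h8] at h7
      have h9 : (1 : ℝ) + -((k : ℝ) / n) = 1 - (k : ℝ) / n := by ring
      rwa [h9] at h7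
    have h10 : (2 * (n : ℝ)) ^ k * (1 - (k : ℝ) / n) ^ k = ((n : ℝ) - k) ^ k * 2 ^ k := by
      rw [← mul_pow, ← mul_pow]
      congr 1
      field_simp
    calc (2 * (n : ℝ)) ^ k * (1 - x) ≤ (2 * (n : ℝ)) ^ k * (1 - (k : ℝ) / n) ^ k :=
          mul_le_mul_of_nonneg_left h5 (by positivity)
      _ = ((n : ℝ) - k) ^ k * 2 ^ k := h10
      _ ≤ (n.descFactorial k : ℝ) * 2 ^ k := mul_le_mul_of_nonneg_right h1 (by positivity)
      _ ≤ (tl1_D n k : ℝ) := h4
  have hexp := tl1_exp hx0 hx1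
  have hmx : (m : ℝ) * (2 * x) ≤ 2 * (k : ℝ) ^ 2 * Λ := by
    have h1 : (m : ℝ) / n ≤ Λ := by rw [div_le_iff₀ hnpos]; exact hm
    have h2 : (m : ℝ) * (2 * x) = 2 * (k : ℝ) ^ 2 * ((m : ℝ) / n) := by
      rw [hx]; ring
    rw [h2]
    exact mul_le_mul_of_nonneg_left h1 (by positivity)
  rw [tl1_dcount]
  push_cast
  calc Real.exp (-(2 * (k : ℝ) ^ 2 * Λ)) * ((2 * (n : ℝ)) ^ k) ^ m
      ≤ Real.exp (-(2 * x)) ^ m * ((2 * (n : ℝ)) ^ k) ^ m := by
        refine mul_le_mul_of_nonneg_right ?_ (by positivity)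
        rw [← Real.exp_nat_mul]
        apply Real.exp_le_exp.2
        linarith
    _ ≤ (1 - x) ^ m * ((2 * (n : ℝ)) ^ k) ^ m :=
        mul_le_mul_of_nonneg_right (pow_le_pow_left₀ (Real.exp_pos _).le hexp m) (by positivity)
    _ = ((2 * (n : ℝ)) ^ k * (1 - x)) ^ m := by rw [mul_pow _ (1 - x)]; ring
    _ ≤ (tl1_D n k : ℝ) ^ m :=
        pow_le_pow_left₀ (mul_nonneg (by positivity) (by linarith)) hD m

end Pool.Agent.H999R2.KSat
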