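import Pool.Agent.H999R2.KSat.Defs2

/-! Task TL2: comparison of the counts of formulas with distinct variables with `ps`. -/

set_option autoImplicit false

namespace Pool.Agent.H999R2.KSat
open Finset Filter

theorem tl2_card (n k m : ℕ) :
    (Fintype.card (Fin m → Cl n k) : ℝ) = ((2 * (n : ℝ)) ^ k) ^ m := by
  simp only [Cl, Lit, Fintype.card_fun, Fintype.card_fin, Fintype.card_prod, Fintype.card_bool]
  push_cast
  rw [mul_comm (n : ℝ) 2]

theorem tl2_ps (n k m : ℕ) :
    ps n k m * ((2 * (n : ℝ)) ^ k) ^ m = ∑ F : Fin m → Cl n k, ind ((Sol F).Nonempty) := by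
  unfold ps E
  rw [tl2_card]
  by_cases h : ((2 * (n : ℝ)) ^ k) ^ m = 0
  · have h0 : Fintype.card (Fin m → Cl n k) = 0 := by
      have := tl2_card n k m
      rw [h] at this
      exact_mod_cast this
    have : IsEmpty (Fin m → Cl n k) := Fintype.card_eq_zero_iff.mp h0
    simp
  · field_simp

theorem tl2_one (n k m : ℕ) :
    ((2 * (n : ℝ)) ^ k) ^ m = ∑ _F : Fin m → Cl n k, (1 : ℝ) := by
  rw [← tl2_card]; simp

theorem dscount_le (n k m : ℕ) : (dscount n k m : ℝ) ≤ ps n k m * ((2 * (n : ℝ)) ^ k) ^ m := by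
  classical
  rw [tl2_ps]
  unfold dscount
  rw [Finset.card_filter]
  push_cast
  refine Finset.sum_le_sum fun F _ => ?_
  split_ifs with h
  · rw [ind_true h.2]
  · exact ind_nonneg _

theorem dcount_sub_le (n k m : ℕ) :
    (dcount n k m : ℝ) - dscount n k m ≤ (1 - ps n k m) * ((2 * (n : ℝ)) ^ k) ^ m := by
  classical
  rw [sub_mul, one_mul, tl2_ps, tl2_one]
  unfold dscount dcount
  rw [Finset.card_filter, Finset.card_filter]
  push_cast
  rw [← Finset.sum_sub_distrib, ← Finset.sum_sub_distrib]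
  refine Finset.sum_le_sum fun F _ => ?_
  by_cases h1 : ∀ j, Function.Injective (fun p => (F j p).1)
  · by_cases h2 : (Sol F).Nonempty
    · rw [if_pos h1, if_pos ⟨h1, h2⟩, ind_true h2]
    · rw [if_pos h1, if_neg (fun h => h2 h.2), ind_false h2]
  · rw [if_neg h1, if_neg (fun h => h1 h.1), sub_self]
    linarith [ind_le_one (Sol F).Nonempty]

theorem dscount_le_dcount (n k m : ℕ) : dscount n k m ≤ dcount n k m := by
  classical
  unfold dscount dcount
  refine Finset.card_le_card fun F hF => ?_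
  rw [Finset.mem_filter] at hF ⊢
  exact ⟨hF.1, hF.2.1⟩

end Pool.Agent.H999R2.KSat
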