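import Pool.Agent.H999R2.KSat.TR
import Pool.Agent.H999R2.KSat.TL1
import Pool.Agent.H999R2.KSat.TL2

/-! Task TL3: limit transfer. -/

set_option autoImplicit false

namespace Pool.Agent.H999R2.KSat
open Finset Filter

theorem tl3_ratio (a b f A B : ℕ) (hf : 0 < f) (h1 : a * f = A) (h2 : b * f = B) :
    (a : ℝ) / b = (A : ℝ) / B := by
  rw [← h1, ← h2]
  push_cast
  have hf' : (f : ℝ) ≠ 0 := by exact_mod_cast hf.ne'
  rw [mul_div_mul_right _ _ hf']

theorem tl3_bounds (k : ℕ) (r : ℝ) : ∃ c : ℝ, 0 < c ∧ ∃ n0 : ℕ, ∀ n : ℕ, n0 ≤ n →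
    0 ≤ (dscount n k ⌊r * (n : ℝ)⌋₊ : ℝ) / dcount n k ⌊r * (n : ℝ)⌋₊ ∧
    (dscount n k ⌊r * (n : ℝ)⌋₊ : ℝ) / dcount n k ⌊r * (n : ℝ)⌋₊ ≤ ps n k ⌊r * (n : ℝ)⌋₊ / c ∧
    0 ≤ 1 - (dscount n k ⌊r * (n : ℝ)⌋₊ : ℝ) / dcount n k ⌊r * (n : ℝ)⌋₊ ∧
    1 - (dscount n k ⌊r * (n : ℝ)⌋₊ : ℝ) / dcount n k ⌊r * (n : ℝ)⌋₊ ≤
      (1 - ps n k ⌊r * (n : ℝ)⌋₊) / c := by
  obtain ⟨c, hc, n0, h⟩ := dcount_lower k (max r 0)
  refine ⟨c, hc, max n0 1, ?_⟩
  intro n hn
  have hn0 : n0 ≤ n := le_trans (le_max_left _ _) hn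
  have hn1 : 1 ≤ n := le_trans (le_max_right _ _) hn
  have hnpos : (0 : ℝ) < n := by exact_mod_cast hn1
  generalize hm : ⌊r * (n : ℝ)⌋₊ = m
  have hmle : (m : ℝ) ≤ max r 0 * n := by
    rw [← hm]
    rcases le_or_gt 0 r with hr | hr
    · calc ((⌊r * (n : ℝ)⌋₊ : ℕ) : ℝ) ≤ r * n := Nat.floor_le (mul_nonneg hr hnpos.le)
        _ ≤ max r 0 * n := mul_le_mul_of_nonneg_right (le_max_left _ _) hnpos.le
    · have : ⌊r * (n : ℝ)⌋₊ = 0 := Nat.floor_of_nonpos (by nlinarith)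
      rw [this]
      push_cast
      exact mul_nonneg (le_max_right _ _) hnpos.le
  have hX : (0 : ℝ) < ((2 * (n : ℝ)) ^ k) ^ m := by positivity
  have h1 := h n m hn0 hmle
  have h2 := dscount_le n k m
  have h3 := dcount_sub_le n k m
  have h4 : (dscount n k m : ℝ) ≤ dcount n k m := by exact_mod_cast dscount_le_dcount n k m
  have hcX : 0 < c * ((2 * (n : ℝ)) ^ k) ^ m := mul_pos hc hX
  have hD : (0 : ℝ) < dcount n k m := lt_of_lt_of_le hcX h1
  generalize ((2 * (n : ℝ)) ^ k) ^ m = X at hX h1 h2 h3 hcX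
  have hs0 : (0 : ℝ) ≤ dscount n k m := Nat.cast_nonneg _
  have hpX : 0 ≤ ps n k m * X := le_trans hs0 h2
  have hp0 : 0 ≤ ps n k m := nonneg_of_mul_nonneg_left hpX hX
  have hqX : 0 ≤ (1 - ps n k m) * X := le_trans (by linarith) h3
  have hq0 : 0 ≤ 1 - ps n k m := nonneg_of_mul_nonneg_left hqX hX
  have e1 : (1 : ℝ) - (dscount n k m : ℝ) / dcount n k m
      = ((dcount n k m : ℝ) - dscount n k m) / dcount n k m := by
    field_simp
  refine ⟨div_nonneg hs0 hD.le, ?_, ?_, ?_⟩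
  · rw [div_le_div_iff₀ hD hc]
    calc (dscount n k m : ℝ) * c ≤ ps n k m * X * c := mul_le_mul_of_nonneg_right h2 hc.le
      _ = ps n k m * (c * X) := by ring
      _ ≤ ps n k m * dcount n k m := mul_le_mul_of_nonneg_left h1 hp0
  · rw [e1]
    exact div_nonneg (by linarith) hD.le
  · rw [e1, div_le_div_iff₀ hD hc]
    calc ((dcount n k m : ℝ) - dscount n k m) * c ≤ (1 - ps n k m) * X * c :=
          mul_le_mul_of_nonneg_right h3 hc.le
      _ = (1 - ps n k m) * (c * X) := by ring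
      _ ≤ (1 - ps n k m) * dcount n k m := mul_le_mul_of_nonneg_left h1 hq0

theorem transfer (k : ℕ) (rs : ℝ)
    (h1 : ∀ r, r < rs → Tendsto (fun n : ℕ => ps n k ⌊r * (n : ℝ)⌋₊) atTop (nhds 1))
    (h0 : ∀ r, rs < r → Tendsto (fun n : ℕ => ps n k ⌊r * (n : ℝ)⌋₊) atTop (nhds 0)) :
      (∀ r : ℝ, r < rs → Filter.Tendsto (fun n : ℕ =>
        ((Finset.univ.filter (fun F : Fin ⌊r * (n : ℝ)⌋₊ → Fin n → Option Bool =>
            (∀ j, (Finset.univ.filter (fun i => F j i ≠ none)).card = k) ∧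
            ∃ a : Fin n → Bool, ∀ j, ∃ i, F j i = some (a i))).card : ℝ) /
        ((Finset.univ.filter (fun F : Fin ⌊r * (n : ℝ)⌋₊ → Fin n → Option Bool =>
            ∀ j, (Finset.univ.filter (fun i => F j i ≠ none)).card = k)).card : ℝ))
        Filter.atTop (nhds 1)) ∧
      (∀ r : ℝ, rs < r → Filter.Tendsto (fun n : ℕ =>
        ((Finset.univ.filter (fun F : Fin ⌊r * (n : ℝ)⌋₊ → Fin n → Option Bool =>
            (∀ j, (Finset.univ.filter (fun i => F j i ≠ none)).card = k) ∧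
            ∃ a : Fin n → Bool, ∀ j, ∃ i, F j i = some (a i))).card : ℝ) /
        ((Finset.univ.filter (fun F : Fin ⌊r * (n : ℝ)⌋₊ → Fin n → Option Bool =>
            ∀ j, (Finset.univ.filter (fun i => F j i ≠ none)).card = k)).card : ℝ))
        Filter.atTop (nhds 0)) := by
  have key : ∀ r : ℝ, (fun n : ℕ =>
        ((Finset.univ.filter (fun F : Fin ⌊r * (n : ℝ)⌋₊ → Fin n → Option Bool =>
            (∀ j, (Finset.univ.filter (fun i => F j i ≠ none)).card = k) ∧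
            ∃ a : Fin n → Bool, ∀ j, ∃ i, F j i = some (a i))).card : ℝ) /
        ((Finset.univ.filter (fun F : Fin ⌊r * (n : ℝ)⌋₊ → Fin n → Option Bool =>
            ∀ j, (Finset.univ.filter (fun i => F j i ≠ none)).card = k)).card : ℝ))
      = fun n : ℕ => (dscount n k ⌊r * (n : ℝ)⌋₊ : ℝ) / dcount n k ⌊r * (n : ℝ)⌋₊ := by
    intro r
    funext n
    exact tl3_ratio _ _ _ _ _ (pow_pos (Nat.factorial_pos k) ⌊r * (n : ℝ)⌋₊)
      (num_count n k ⌊r * (n : ℝ)⌋₊) (den_count n k ⌊r * (n : ℝ)⌋₊)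
  constructor
  · intro r hr
    rw [key r]
    obtain ⟨c, hc, n0, hb⟩ := tl3_bounds k r
    have hlim : Tendsto (fun n : ℕ => (1 - ps n k ⌊r * (n : ℝ)⌋₊) / c) atTop (nhds 0) := by
      have := ((tendsto_const_nhds (x := (1 : ℝ))).sub (h1 r hr)).div_const c
      simpa using this
    have hsq : Tendsto (fun n : ℕ =>
        1 - (dscount n k ⌊r * (n : ℝ)⌋₊ : ℝ) / dcount n k ⌊r * (n : ℝ)⌋₊) atTop (nhds 0) := by
      apply squeeze_zero' _ _ hlim
      · filter_upwards [eventually_ge_atTop n0] with n hn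
        exact (hb n hn).2.2.1
      · filter_upwards [eventually_ge_atTop n0] with n hn
        exact (hb n hn).2.2.2
    have := (tendsto_const_nhds (x := (1 : ℝ))).sub hsq
    simpa using this
  · intro r hr
    rw [key r]
    obtain ⟨c, hc, n0, hb⟩ := tl3_bounds k r
    have hlim : Tendsto (fun n : ℕ => ps n k ⌊r * (n : ℝ)⌋₊ / c) atTop (nhds 0) := by
      have := (h0 r hr).div_const c
      simpa using this
    apply squeeze_zero' _ _ hlim
    · filter_upwards [eventually_ge_atTop n0] with n hn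
      exact (hb n hn).1
    · filter_upwards [eventually_ge_atTop n0] with n hn
      exact (hb n hn).2.1

end Pool.Agent.H999R2.KSat
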