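import Pool.Agent.H999R2.KSat.Defs2

/-! Task TR: clauses with distinct variables versus functions `Fin n → Option Bool`. -/

set_option autoImplicit false

namespace Pool.Agent.H999R2.KSat
open Finset Filter

open Classical in
/-- the partial assignment given by an ordered clause -/
noncomputable def trPhi {n k : ℕ} (c : Cl n k) : Fin n → Option Bool :=
  fun i => if h : ∃ p, (c p).1 = i then some (c h.choose).2 else none

theorem trPhi_apply {n k : ℕ} (c : Cl n k) (hc : Function.Injective (fun p => (c p).1))
    (p : Fin k) : trPhi c (c p).1 = some (c p).2 := by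
  have h : ∃ q, (c q).1 = (c p).1 := ⟨p, rfl⟩
  unfold trPhi
  rw [dif_pos h]
  have : h.choose = p := hc h.choose_spec
  rw [this]

theorem trPhi_none {n k : ℕ} (c : Cl n k) (i : Fin n) (hi : ∀ p, (c p).1 ≠ i) :
    trPhi c i = none := by
  unfold trPhi
  rw [dif_neg]
  rintro ⟨p, hp⟩
  exact hi p hp

theorem trPhi_support {n k : ℕ} (c : Cl n k) (hc : Function.Injective (fun p => (c p).1)) :
    univ.filter (fun i => trPhi c i ≠ none) = univ.image (fun p => (c p).1) := by
  ext i
  simp only [mem_filter, mem_univ, true_and, mem_image]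
  constructor
  · intro h
    by_contra hcon
    push Not at hcon
    exact h (trPhi_none c i hcon)
  · rintro ⟨p, rfl⟩
    rw [trPhi_apply c hc p]
    simp

theorem trPhi_card {n k : ℕ} (c : Cl n k) (hc : Function.Injective (fun p => (c p).1)) :
    (univ.filter (fun i => trPhi c i ≠ none)).card = k := by
  rw [trPhi_support c hc, card_image_of_injective _ hc, card_univ, Fintype.card_fin]

theorem trPhi_eq_iff {n k : ℕ} (c : Cl n k) (hc : Function.Injective (fun p => (c p).1))
    (C : Fin n → Option Bool) (hC : (univ.filter (fun i => C i ≠ none)).card = k) :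
    trPhi c = C ↔ ∀ p, C (c p).1 = some (c p).2 := by
  constructor
  · rintro rfl p
    exact trPhi_apply c hc p
  · intro h
    have hsub : univ.image (fun p => (c p).1) ⊆ univ.filter (fun i => C i ≠ none) := by
      intro i hi
      simp only [mem_image, mem_univ, true_and] at hi
      obtain ⟨p, rfl⟩ := hi
      simp [h p]
    have heq : univ.image (fun p => (c p).1) = univ.filter (fun i => C i ≠ none) := by
      refine eq_of_subset_of_card_le hsub ?_
      rw [hC, card_image_of_injective _ hc, card_univ, Fintype.card_fin]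
    funext i
    by_cases hi : ∃ p, (c p).1 = i
    · obtain ⟨p, rfl⟩ := hi
      rw [trPhi_apply c hc p, h p]
    · push Not at hi
      rw [trPhi_none c i hi]
      by_contra hcon
      have : i ∈ univ.filter (fun i => C i ≠ none) := by
        simp only [mem_filter, mem_univ, true_and]
        exact fun h' => hcon h'.symm
      rw [← heq] at this
      simp only [mem_image, mem_univ, true_and] at this
      obtain ⟨p, hp⟩ := this
      exact hi p hp

/-- ordered clauses agreeing with `C` -/
def trEquiv {n k : ℕ} (C : Fin n → Option Bool) :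
    {c : Cl n k // Function.Injective (fun p => (c p).1) ∧ ∀ p, C (c p).1 = some (c p).2} ≃
      (Fin k ↪ {i : Fin n // C i ≠ none}) where
  toFun c := ⟨fun p => ⟨(c.1 p).1, by rw [c.2.2 p]; simp⟩, fun p q h => c.2.1 (by
    simpa using congrArg Subtype.val h)⟩
  invFun e := ⟨fun p => ((e p).1, (C (e p).1).get (Option.isSome_iff_ne_none.2 (e p).2)), by
    refine ⟨fun p q h => ?_, fun p => ?_⟩
    · exact e.injective (Subtype.ext h)
    · simp⟩
  left_inv c := by
    apply Subtype.ext
    funext p
    have := c.2.2 p
    refine Prod.ext rfl ?_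
    change (C (c.1 p).1).get _ = (c.1 p).2
    simp only [this, Option.get_some]
  right_inv e := by
    ext p
    rfl

open Classical in
theorem tr_fibre {n k : ℕ} (C : Fin n → Option Bool)
    (hC : (univ.filter (fun i => C i ≠ none)).card = k) :
    (univ.filter (fun c : Cl n k => Function.Injective (fun p => (c p).1) ∧ trPhi c = C)).card =
      k.factorial := by
  have h1 : univ.filter (fun c : Cl n k => Function.Injective (fun p => (c p).1) ∧ trPhi c = C) =
      univ.filter (fun c : Cl n k => Function.Injective (fun p => (c p).1) ∧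
        ∀ p, C (c p).1 = some (c p).2) := by
    refine filter_congr fun c _ => ?_
    constructor
    · rintro ⟨h1, h2⟩
      exact ⟨h1, (trPhi_eq_iff c h1 C hC).1 h2⟩
    · rintro ⟨h1, h2⟩
      exact ⟨h1, (trPhi_eq_iff c h1 C hC).2 h2⟩
  rw [h1, ← Fintype.card_subtype, Fintype.card_congr (trEquiv C), Fintype.card_embedding_eq,
    Fintype.card_fin]
  have h2 : Fintype.card {i : Fin n // C i ≠ none} = k := by
    rw [Fintype.card_subtype, ← hC]
  rw [h2, Nat.descFactorial_self]

open Classical in
theorem tr_gen (n k m : ℕ) (R : (Fin m → Fin n → Option Bool) → Prop) :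
    (univ.filter (fun F : Fin m → Fin n → Option Bool =>
      (∀ j, (univ.filter (fun i => F j i ≠ none)).card = k) ∧ R F)).card * k.factorial ^ m =
    (univ.filter (fun F : Fin m → Cl n k =>
      (∀ j, Function.Injective (fun p => (F j p).1)) ∧ R (fun j => trPhi (F j)))).card := by
  have hmaps : ((univ.filter (fun F : Fin m → Cl n k =>
      (∀ j, Function.Injective (fun p => (F j p).1)) ∧ R (fun j => trPhi (F j))) :
        Finset (Fin m → Cl n k)) : Set (Fin m → Cl n k)).MapsTo
      (fun F j => trPhi (F j)) (univ.filter (fun F : Fin m → Fin n → Option Bool =>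
      (∀ j, (univ.filter (fun i => F j i ≠ none)).card = k) ∧ R F) :
        Finset (Fin m → Fin n → Option Bool)) := by
    intro F hF
    simp only [coe_filter, mem_univ, true_and, Set.mem_ofPred_eq] at hF ⊢
    exact ⟨fun j => trPhi_card (F j) (hF.1 j), hF.2⟩
  rw [card_eq_sum_card_fiberwise hmaps]
  rw [sum_congr rfl (g := fun _ => k.factorial ^ m)]
  · simp
  intro F hF
  simp only [mem_filter, mem_univ, true_and] at hF
  have h1 : (univ.filter (fun F : Fin m → Cl n k =>
      (∀ j, Function.Injective (fun p => (F j p).1)) ∧ R (fun j => trPhi (F j)))).filter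
        (fun G => (fun j => trPhi (G j)) = F) =
      Fintype.piFinset (fun j => univ.filter (fun c : Cl n k =>
        Function.Injective (fun p => (c p).1) ∧ trPhi c = F j)) := by
    ext G
    simp only [mem_filter, mem_univ, true_and, Fintype.mem_piFinset]
    constructor
    · rintro ⟨⟨h1, h2⟩, h3⟩ j
      exact ⟨h1 j, congrFun h3 j⟩
    · intro h
      have h3 : (fun j => trPhi (G j)) = F := funext fun j => (h j).2
      exact ⟨⟨fun j => (h j).1, by rw [h3]; exact hF.2⟩, h3⟩
  rw [h1, Fintype.card_piFinset, prod_congr rfl (g := fun _ => k.factorial)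
    (fun j _ => tr_fibre (F j) (hF.1 j))]
  simp

theorem tr_sat {n k m : ℕ} (F : Fin m → Cl n k)
    (hF : ∀ j, Function.Injective (fun p => (F j p).1)) :
    (∃ a : Fin n → Bool, ∀ j, ∃ i, trPhi (F j) i = some (a i)) ↔ (Sol F).Nonempty := by
  constructor
  · rintro ⟨a, ha⟩
    refine ⟨a, fun j => ?_⟩
    obtain ⟨i, hi⟩ := ha j
    by_cases hp : ∃ p, (F j p).1 = i
    · obtain ⟨p, rfl⟩ := hp
      refine ⟨p, ?_⟩
      rw [trPhi_apply (F j) (hF j) p] at hi
      exact (Option.some.inj hi).symm
    · push Not at hp
      rw [trPhi_none (F j) i hp] at hi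
      exact absurd hi (by simp)
  · rintro ⟨a, ha⟩
    refine ⟨a, fun j => ?_⟩
    obtain ⟨p, hp⟩ := ha j
    exact ⟨(F j p).1, by rw [trPhi_apply (F j) (hF j) p, hp]⟩

theorem den_count (n k m : ℕ) :
    (univ.filter (fun F : Fin m → Fin n → Option Bool =>
      ∀ j, (univ.filter (fun i => F j i ≠ none)).card = k)).card * (k.factorial) ^ m =
      dcount n k m := by
  have h := tr_gen n k m (fun _ => True)
  simp only [and_true] at h
  unfold dcount
  rw [← h]

theorem num_count (n k m : ℕ) :
    (univ.filter (fun F : Fin m → Fin n → Option Bool =>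
      (∀ j, (univ.filter (fun i => F j i ≠ none)).card = k) ∧
        ∃ a : Fin n → Bool, ∀ j, ∃ i, F j i = some (a i))).card * (k.factorial) ^ m =
      dscount n k m := by
  have h := tr_gen n k m (fun F => ∃ a : Fin n → Bool, ∀ j, ∃ i, F j i = some (a i))
  have h2 : dscount n k m = (univ.filter (fun F : Fin m → Cl n k =>
      (∀ j, Function.Injective (fun p => (F j p).1)) ∧
        ∃ a : Fin n → Bool, ∀ j, ∃ i, trPhi (F j) i = some (a i))).card := by
    unfold dscount
    classical
    congr 1
    ext F
    simp only [mem_filter, mem_univ, true_and]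
    constructor
    · rintro ⟨h1, h2⟩
      exact ⟨h1, (tr_sat F h1).2 h2⟩
    · rintro ⟨h1, h2⟩
      exact ⟨h1, (tr_sat F h1).1 h2⟩
  rw [h2]
  convert h using 2
  · congr!
  · ext F
    simp only [mem_filter, mem_univ, true_and]

end Pool.Agent.H999R2.KSat
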