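import Pool.Agent.H999R2.KSat.Defs2

/-! Task UN: union bound over the killing clause. -/

set_option autoImplicit false

namespace Pool.Agent.H999R2.KSat
open Finset

/-- combinatorial core: the first clause (in the order) that makes the side `B` die -/
theorem un_general {n k N : ℕ} (i : Fin n) (b : Bool) (C : Fin N → Cl n k) (D : Fin N → Prop)
    (B : Set (Asg n)) (hB : ∀ a ∈ B, a i = b)
    (H1 : ∃ a ∈ B, ∀ j, D j → ¬ inv i (C j) → sc a (C j))
    (H2 : ¬ ∃ a ∈ B, ∀ j, D j → sc a (C j)) :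
    ∃ j, D j ∧ kl i b {a | a ∈ B ∧ ∀ j', D j' → j' ≠ j → (j' < j ∨ ¬ inv i (C j')) →
      sc a (C j')} (C j) := by
  classical
  let R : ℕ → Set (Asg n) := fun t =>
    {a | a ∈ B ∧ ∀ j', D j' → (j'.val < t ∨ ¬ inv i (C j')) → sc a (C j')}
  have hR0 : (R 0).Nonempty := by
    obtain ⟨a, ha, h⟩ := H1
    refine ⟨a, ha, fun j' hD hj' => h j' hD ?_⟩
    rcases hj' with h' | h'
    · exact absurd h' (Nat.not_lt_zero _)
    · exact h'
  have hRN : ¬ (R N).Nonempty := by
    rintro ⟨a, ha, h⟩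
    exact H2 ⟨a, ha, fun j hD => h j hD (Or.inl j.isLt)⟩
  have hex : ∃ t, ¬ (R t).Nonempty := ⟨N, hRN⟩
  have ht1 : ¬ (R (Nat.find hex)).Nonempty := Nat.find_spec hex
  have ht2 : Nat.find hex ≤ N := Nat.find_min' hex hRN
  have ht3 : ∀ t, t < Nat.find hex → (R t).Nonempty := fun t ht => by
    have := Nat.find_min hex ht
    exact not_not.mp this
  generalize Nat.find hex = t at ht1 ht2 ht3
  cases t with
  | zero => exact absurd hR0 ht1
  | succ t =>
    have hne : (R t).Nonempty := ht3 t (Nat.lt_succ_self t)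
    let j : Fin N := ⟨t, ht2⟩
    have key : ∀ a, a ∈ R t → (D j → sc a (C j)) → a ∈ R (t + 1) := by
      intro a ha hsc
      refine ⟨ha.1, fun j' hD hj' => ?_⟩
      by_cases hjj : j' = j
      · subst hjj; exact hsc hD
      · rcases hj' with h' | h'
        · refine ha.2 j' hD (Or.inl ?_)
          have : j'.val ≠ t := fun h => hjj (Fin.ext h)
          omega
        · exact ha.2 j' hD (Or.inr h')
    have hDj : D j := by
      by_contra hD
      obtain ⟨a, ha⟩ := hne
      exact ht1 ⟨a, key a ha (fun h => absurd h hD)⟩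
    have hinv : inv i (C j) := by
      by_contra hi
      obtain ⟨a, ha⟩ := hne
      exact ht1 ⟨a, key a ha (fun h => ha.2 j h (Or.inr hi))⟩
    have hsub : ∀ a, (a ∈ B ∧ ∀ j', D j' → j' ≠ j → (j' < j ∨ ¬ inv i (C j')) →
        sc a (C j')) → a ∈ R t := by
      rintro a ⟨ha, h⟩
      refine ⟨ha, fun j' hD hj' => ?_⟩
      rcases hj' with h' | h'
      · exact h j' hD (fun hjj => by rw [hjj] at h'; exact absurd h' (lt_irrefl _)) (Or.inl h')
      · exact h j' hD (fun hjj => h' (hjj ▸ hinv)) (Or.inr h')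
    have hnsc : ∀ a, a ∈ R t → ¬ sc a (C j) := fun a ha hsc =>
      ht1 ⟨a, key a ha (fun _ => hsc)⟩
    refine ⟨j, hDj, ?_, ?_, ?_⟩
    · obtain ⟨a, ha⟩ := hne
      refine ⟨a, ha.1, fun j' hD _ hj' => ha.2 j' hD ?_⟩
      rcases hj' with h' | h'
      · exact Or.inl h'
      · exact Or.inr h'
    · obtain ⟨p, hp⟩ := hinv
      refine ⟨p, ?_⟩
      obtain ⟨a, ha⟩ := hne
      have h1 : (C j p).2 ≠ b := by
        intro h2
        refine hnsc a ha ⟨p, ?_⟩
        rw [hp, h2, hB a ha.1]
      have h2 : (C j p).2 = !b := by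
        cases hb : b <;> cases hc : (C j p).2 <;> simp_all
      exact Prod.ext hp h2
    · intro a ha
      exact hnsc a (hsub a ha)

/-- an assignment changed at `i` still satisfies the clauses avoiding `i` -/
theorem un_update {n k : ℕ} (i : Fin n) (b : Bool) (a : Asg n) (c : Cl n k)
    (hc : ¬ inv i c) (h : sc a c) : sc (Function.update a i b) c := by
  obtain ⟨p, hp⟩ := h
  refine ⟨p, ?_⟩
  rw [Function.update_of_ne (fun h => hc ⟨p, h⟩)]
  exact hp

/-- pointwise union bound -/
theorem un_point {n k M s : ℕ} (i : Fin n) (b : Bool) (G : Fin M → Cl n k)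
    (W : Fin s → Cl n k) (u : ℕ) :
    ind (∃ a ∈ Sol G, ∀ l : Fin s, l.val < u → sc a (W l)) -
      ind (∃ a ∈ Sol G ∩ {a | a i = b}, ∀ l : Fin s, l.val < u → sc a (W l)) ≤
    ∑ j, ind (kl i b (QG i b (fun _ => False) j G W u) (G j)) +
      ∑ l0 : Fin s, ind (l0.val < u ∧ kl i b (QW i b (Sol G) l0 W u) (W l0)) := by
  classical
  have hA : 0 ≤ ∑ j, ind (kl i b (QG i b (fun _ => False) j G W u) (G j)) :=
    Finset.sum_nonneg (fun j _ => ind_nonneg _)
  have hB : 0 ≤ ∑ l0 : Fin s, ind (l0.val < u ∧ kl i b (QW i b (Sol G) l0 W u) (W l0)) :=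
    Finset.sum_nonneg (fun j _ => ind_nonneg _)
  by_cases hP : ∃ a ∈ Sol G, ∀ l : Fin s, l.val < u → sc a (W l)
  · by_cases hQ : ∃ a ∈ Sol G ∩ {a | a i = b}, ∀ l : Fin s, l.val < u → sc a (W l)
    · rw [ind_true hP, ind_true hQ]; linarith
    · rw [ind_true hP, ind_false hQ]
      obtain ⟨as, hasG, hasW⟩ := hP
      -- the flipped assignment
      have ha'i : (Function.update as i b) i = b := Function.update_self i b as
      by_cases hph : ∃ a, (a i = b ∧ a ∈ PW i W u) ∧ ∀ j, True → sc a (G j)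
      · -- phase 2
        obtain ⟨a2, ⟨ha2i, ha2W⟩, ha2G⟩ := hph
        obtain ⟨l0, hl0, hkl⟩ := un_general i b W (fun l => l.val < u)
          {a | a ∈ Sol G ∧ a i = b} (fun a ha => ha.2)
          ⟨a2, ⟨fun j => ha2G j trivial, ha2i⟩, fun l hl hi => ha2W l hl hi⟩
          (by
            rintro ⟨a, ⟨h1, h2⟩, h3⟩
            exact hQ ⟨a, ⟨h1, h2⟩, h3⟩)
        have hset : {a | a ∈ {a | a ∈ Sol G ∧ a i = b} ∧ ∀ j', (fun l : Fin s => l.val < u) j' →
            j' ≠ l0 → (j' < l0 ∨ ¬ inv i (W j')) → sc a (W j')} = QW i b (Sol G) l0 W u := by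
          ext a
          constructor
          · rintro ⟨⟨h1, h2⟩, h3⟩
            exact ⟨h1, h2, fun l hl hne ho => h3 l hl hne ho⟩
          · rintro ⟨h1, h2, h3⟩
            exact ⟨⟨h1, h2⟩, fun l hl hne ho => h3 l hl hne ho⟩
        rw [hset] at hkl
        have h1 : (1 : ℝ) ≤
            ∑ l0 : Fin s, ind (l0.val < u ∧ kl i b (QW i b (Sol G) l0 W u) (W l0)) := by
          calc (1 : ℝ) = ind (l0.val < u ∧ kl i b (QW i b (Sol G) l0 W u) (W l0)) :=
                (ind_true ⟨hl0, hkl⟩).symm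
            _ ≤ _ := Finset.single_le_sum
                (f := fun l0 : Fin s => ind (l0.val < u ∧ kl i b (QW i b (Sol G) l0 W u) (W l0)))
                (fun j _ => ind_nonneg _) (Finset.mem_univ l0)
        linarith
      · -- phase 1
        obtain ⟨j, _, hkl⟩ := un_general i b G (fun _ => True)
          {a | a i = b ∧ a ∈ PW i W u} (fun a ha => ha.1)
          ⟨Function.update as i b, ⟨ha'i, fun l hl hi => un_update i b as _ hi (hasW l hl)⟩,
            fun j _ hi => un_update i b as _ hi (hasG j)⟩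
          (by
            rintro ⟨a, ha, h3⟩
            exact hph ⟨a, ha, h3⟩)
        have hset : {a | a ∈ {a | a i = b ∧ a ∈ PW i W u} ∧ ∀ j', (fun _ : Fin M => True) j' →
            j' ≠ j → (j' < j ∨ ¬ inv i (G j')) → sc a (G j')} =
            QG i b (fun _ => False) j G W u := by
          ext a
          constructor
          · rintro ⟨⟨h1, h2⟩, h3⟩
            exact ⟨h1, fun j' _ hne ho => h3 j' trivial hne ho, h2⟩
          · rintro ⟨h1, h2, h3⟩
            exact ⟨⟨h1, h3⟩, fun j' _ hne ho => h2 j' (fun h => h) hne ho⟩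
        rw [hset] at hkl
        have h1 : (1 : ℝ) ≤ ∑ j, ind (kl i b (QG i b (fun _ => False) j G W u) (G j)) := by
          calc (1 : ℝ) = ind (kl i b (QG i b (fun _ => False) j G W u) (G j)) :=
                (ind_true hkl).symm
            _ ≤ _ := Finset.single_le_sum
                (f := fun j => ind (kl i b (QG i b (fun _ => False) j G W u) (G j)))
                (fun j _ => ind_nonneg _) (Finset.mem_univ j)
        linarith
  · have hQ : ¬ ∃ a ∈ Sol G ∩ {a | a i = b}, ∀ l : Fin s, l.val < u → sc a (W l) := by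
      rintro ⟨a, ha, h⟩
      exact hP ⟨a, ha.1, h⟩
    rw [ind_false hP, ind_false hQ]; linarith

theorem union_bound {n k M : ℕ} (s : ℕ) (i : Fin n) (b : Bool) (G : Fin M → Cl n k) :
    RA k s (Sol G) - RA k s (Sol G ∩ {a | a i = b}) ≤
      ∑ j, al s i b (fun _ => False) j G + be k s i b (Sol G) := by
  unfold RA al be
  rw [← E_sub, ← E_sum, ← E_add]
  refine E_mono fun W => ?_
  rw [← Finset.sum_sub_distrib]
  rw [Finset.sum_comm (s := (Finset.univ : Finset (Fin M)))]
  rw [← Finset.sum_add_distrib]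
  exact Finset.sum_le_sum fun u _ => un_point i b G W u

end Pool.Agent.H999R2.KSat
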